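import Pool.Agent.H98.TQ.Defs

/-!
# Project T3 (MP_a3214d): definitions

Two step equidistribution over a number field `k`: the prime `m` is planted by products of small
polynomials, the ramified prime `l` by a union bound over the lattice of `m`.
-/

set_option autoImplicit false

open Polynomial IsDedekindDomain NumberField

open Pool.Agent.H92.SQ2 (gg WW)

namespace Pool.Agent.H96.T3

/-- `g (x)` and `g' (x)` lie in `l` -/
def D1 {k : Type} [Field k] [NumberField k] (l : Ideal (𝓞 k)) (x : 𝓞 k) (g : (𝓞 k)[X]) : Prop :=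
  g.eval x ∈ l ∧ g.derivative.eval x ∈ l

/-- the conditions on the parameters: `D` is the degree of `k`, `H = h ^ b`, `m` of norm `h ^ u`,
`l` of norm `h ^ v`; `d0, ρ0, κ0`: degree and radii for the polynomials vanishing at `x` modulo
`m`; `ρT, κT`: radii for the lattice of `m` and `l` -/
structure Cond (D n b u v d0 ρ0 κ0 ρT κT : ℕ) : Prop where
  cn : 4 ≤ n
  cb : 1 ≤ b
  cu : 2 ≤ u
  cv : 2 ≤ v
  cuv : u ≠ v
  c1 : D * (2 * ρ0 * (d0 + 1) + b * d0 * (d0 + 1)) + 12 ≤ 2 * u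
  c2 : 2 * u + 2 ≤ D * (2 * ρ0 * (d0 + 1) + 2 * κ0 + b * d0 * (d0 + 1))
  c3 : 2 * d0 ≤ n - 2
  c4 : 2 * (ρ0 + κ0) + 1 ≤ ρT
  c5 : D * (2 * (n - 1) * ρT + b * (n - 1) * (n - 2)) + 20 ≤ 6 * u + 4 * v
  c6 : 6 * u + 4 * v + 2 ≤ D * (2 * (n - 1) * ρT + 2 * κT + b * (n - 1) * (n - 2))
  c7 : ρT + κT + 1 ≤ 2 * b
  c8 : D * (b * ((n ^ 2 + 2 * n) / 4)) + 12 ≤ 2 * v
  c9 : D * (b * (n * (n + 1) / 2 - 1)) + 7 ≤ 3 * u + 3 * v
  c10 : D * (b * n) + 2 ≤ v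

/-- `max (2 gg n (r + 1)) (⌊(n² + 2 n) / 4⌋ / 2)` -/
noncomputable def lam3 (n r : ℕ) : ℝ :=
  max (2 * (gg n (r + 1) : ℝ)) ((((n ^ 2 + 2 * n) / 4 : ℕ) : ℝ) / 2)

/-- the exponent of the planted index -/
noncomputable def mu3 (n r : ℕ) : ℝ := (WW n - 2 * lam3 n r) / 3

/-- the exponent of the lower bound -/
noncomputable def ee3 (n r : ℕ) : ℝ :=
  (WW n - mu3 n r * WW n / (WW n - r)) / ((n : ℝ) * (n - 1) - 2 * mu3 n r)

end Pool.Agent.H96.T3
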