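import Pool.Agent.H96.T3.Defs
import Pool.Agent.H35.AN.Defs
import Pool.Agent.H35.AN.Box
import Pool.Agent.H41.RG.Boxes

/-! Project T3, row T3-3: points of a lattice with independent small vectors. -/

set_option autoImplicit false

open Polynomial IsDedekindDomain NumberField Pool.Agent.H35.AN
open Pool.Agent.H67.MU (Bdd)
open Pool.Agent.H92.SQ2 (gg WW)
open Pool.Agent.H98.TQ

namespace Pool.Agent.H96.T3

section

variable (k : Type) [Field k] [NumberField k]

/-- rounding: every element of `k` is an integer plus an element with bounded conjugates -/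
private theorem t3_3_round : ∃ C : ℝ, 0 < C ∧ ∀ c : k, ∃ a : 𝓞 k,
    ∀ φ : k →+* ℂ, ‖φ (c - (a : k))‖ ≤ C := by
  classical
  set Bd : ℝ := ∑ ψ : k →+* ℂ, ∑ i : Idx k, ‖ψ ((RingOfIntegers.basis k i : 𝓞 k) : k)‖ with hBd
  have hBd0 : 0 ≤ Bd := Finset.sum_nonneg (fun ψ _ => Finset.sum_nonneg (fun i _ => norm_nonneg _))
  have hBφ : ∀ φ : k →+* ℂ, ∑ i : Idx k, ‖φ ((RingOfIntegers.basis k i : 𝓞 k) : k)‖ ≤ Bd :=
    fun φ => an27_sum_le φ (fun ψ => ∑ i : Idx k, ‖ψ ((RingOfIntegers.basis k i : 𝓞 k) : k)‖)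
      (fun ψ => Finset.sum_nonneg (fun i _ => norm_nonneg _))
  refine ⟨Bd + 1, by linarith, fun c => ?_⟩
  have hc : c = ∑ i : Idx k, ((integralBasis k).repr c i : k) *
      ((RingOfIntegers.basis k i : 𝓞 k) : k) := by
    conv_lhs => rw [← (integralBasis k).sum_repr c]
    refine Finset.sum_congr rfl fun i _ => ?_
    rw [integralBasis_apply, Algebra.smul_def]
    rfl
  refine ⟨∑ i : Idx k, (⌊(integralBasis k).repr c i⌋ : 𝓞 k) * RingOfIntegers.basis k i, ?_⟩
  intro φ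
  have h1 : c - ((∑ i : Idx k, (⌊(integralBasis k).repr c i⌋ : 𝓞 k) *
      RingOfIntegers.basis k i : 𝓞 k) : k) = ∑ i : Idx k,
        ((Int.fract ((integralBasis k).repr c i) : ℚ) : k) *
          ((RingOfIntegers.basis k i : 𝓞 k) : k) := by
    have h2 : ((∑ i : Idx k, (⌊(integralBasis k).repr c i⌋ : 𝓞 k) *
      RingOfIntegers.basis k i : 𝓞 k) : k) = ∑ i : Idx k,
        ((⌊(integralBasis k).repr c i⌋ : ℤ) : k) * ((RingOfIntegers.basis k i : 𝓞 k) : k) := by
      show algebraMap (𝓞 k) k _ = _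
      rw [map_sum]
      refine Finset.sum_congr rfl fun i _ => ?_
      rw [map_mul, map_intCast]
    rw [h2]
    nth_rewrite 1 [hc]
    rw [← Finset.sum_sub_distrib]
    refine Finset.sum_congr rfl fun i _ => ?_
    rw [← sub_mul, Int.fract]
    push_cast
    rfl
  rw [h1, map_sum]
  refine (norm_sum_le _ _).trans ?_
  refine le_trans ?_ (le_trans (hBφ φ) (by linarith))
  refine Finset.sum_le_sum fun i _ => ?_
  rw [map_mul, norm_mul, map_ratCast]
  refine mul_le_of_le_one_left (norm_nonneg _) ?_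
  rw [Complex.norm_ratCast, abs_of_nonneg (by exact_mod_cast Int.fract_nonneg _)]
  exact_mod_cast (Int.fract_lt_one _).le

/-- representation of a polynomial by the `y i` over the field -/
private theorem t3_3_repr {N : ℕ} (y : Fin (N + 1) → (𝓞 k)[X]) (hy : LinearIndependent (𝓞 k) y)
    (hd : ∀ i, (y i).natDegree ≤ N) (D : (𝓞 k)[X]) :
    ∃ c : Fin (N + 1) → k, ∀ j ≤ N,
      ((D.coeff j : 𝓞 k) : k) = ∑ i, c i * (((y i).coeff j : 𝓞 k) : k) := by
  classical
  let v : Fin (N + 1) → (Fin (N + 1) → k) := fun i j => (((y i).coeff j : 𝓞 k) : k)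
  have hv : LinearIndependent (𝓞 k) v := by
    rw [Fintype.linearIndependent_iff] at hy ⊢
    intro g hg
    apply hy g
    ext j
    rw [Polynomial.finsetSum_coeff, Polynomial.coeff_zero]
    by_cases hj : j < N + 1
    · have h1 := congrFun hg ⟨j, hj⟩
      rw [Finset.sum_apply] at h1
      have h2 : ((∑ i, g i * (y i).coeff j : 𝓞 k) : k) = 0 := by
        show algebraMap (𝓞 k) k _ = _
        rw [map_sum, ← h1.trans (Pi.zero_apply _)]
        refine Finset.sum_congr rfl fun i _ => ?_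
        rw [map_mul, Pi.smul_apply, Algebra.smul_def]
      have h3 : (∑ i, g i * (y i).coeff j : 𝓞 k) = 0 :=
        RingOfIntegers.coe_eq_zero_iff.1 h2
      have h4 : ∑ i, (g i • y i).coeff j = ∑ i, g i * (y i).coeff j :=
        Finset.sum_congr rfl fun i _ => by rw [coeff_smul, smul_eq_mul]
      rw [h4, h3]
    · refine congrArg _ (Finset.sum_eq_zero fun i _ => ?_)
      rw [Polynomial.coeff_smul, Polynomial.coeff_eq_zero_of_natDegree_lt
        (lt_of_le_of_lt (hd i) (by omega)), smul_zero]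
  have hvQ : LinearIndependent k v := (LinearIndependent.iff_fractionRing (𝓞 k) k).1 hv
  have hspan : Submodule.span k (Set.range v) = ⊤ :=
    hvQ.span_eq_top_of_card_eq_finrank' (by simp)
  have hmem : (fun j : Fin (N + 1) => ((D.coeff j : 𝓞 k) : k)) ∈
      Submodule.span k (Set.range v) := by
    rw [hspan]; trivial
  rw [Submodule.mem_span_range_iff_exists_fun] at hmem
  obtain ⟨c, hc⟩ := hmem
  refine ⟨c, fun j hj => ?_⟩
  have h1 := congrFun hc ⟨j, Nat.lt_succ_of_le hj⟩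
  rw [Finset.sum_apply] at h1
  simp only [Pi.smul_apply, smul_eq_mul, v] at h1
  exact h1.symm

/-- the sum of the exponents -/
private theorem t3_3_expsum (d b ρ : ℕ) :
    ∑ i : Fin (d + 1), (ρ + b * (d - (i : ℕ))) = ρ * (d + 1) + b * (d * (d + 1) / 2) := by
  rw [Finset.sum_add_distrib, Finset.sum_const, Finset.card_univ, Fintype.card_fin, smul_eq_mul,
    ← Finset.mul_sum, Fin.sum_univ_eq_sum_range (fun i => d - i)]
  have h1 : ∑ i ∈ Finset.range (d + 1), (d - i) = ∑ i ∈ Finset.range (d + 1), i := by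
    rw [← Finset.sum_range_reflect (fun i => i)]
    refine Finset.sum_congr rfl fun i hi => ?_
    omega
  rw [h1, Finset.sum_range_id, Nat.add_sub_cancel, mul_comm (d + 1) ρ, mul_comm (d + 1) d]

/-- the number of polynomials in a box -/
private theorem t3_3_box (d : ℕ) (C0 : ℝ) (hC0 : 0 ≤ C0) (h : ℕ) (hh : 1 ≤ h)
    (e : Fin (d + 1) → ℕ) (T : Finset (𝓞 k)[X]) (hdeg : ∀ g ∈ T, g.natDegree ≤ d)
    (hT : ∀ g ∈ T, ∀ (j : Fin (d + 1)) (φ : k →+* ℂ),
      ‖φ ((g.coeff (j : ℕ) : 𝓞 k) : k)‖ ≤ C0 * (h : ℝ) ^ e j) :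
    (T.card : ℝ) ≤ (1 + 2 * C0) ^ (Module.finrank ℚ k * (d + 1)) *
      (h : ℝ) ^ (Module.finrank ℚ k * ∑ j, e j) := by
  classical
  set m := Module.finrank ℚ k with hm
  have hh' : (1 : ℝ) ≤ (h : ℝ) := by exact_mod_cast hh
  let cf : (𝓞 k)[X] → (Fin (d + 1) → 𝓞 k) := fun g j => g.coeff (j : ℕ)
  have hinj : Set.InjOn cf (T : Set (𝓞 k)[X]) := by
    intro g1 hg1 g2 hg2 h12
    ext j
    by_cases hj : j < d + 1
    · exact congrArg _ (congrFun h12 ⟨j, hj⟩)
    · rw [Polynomial.coeff_eq_zero_of_natDegree_lt (lt_of_le_of_lt (hdeg g1 hg1) (by omega)),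
        Polynomial.coeff_eq_zero_of_natDegree_lt (lt_of_le_of_lt (hdeg g2 hg2) (by omega))]
  have h1 : T.card ≤ ∏ j : Fin (d + 1), (T.image fun g => g.coeff (j : ℕ)).card := by
    rw [← Finset.card_image_of_injOn hinj, ← Fintype.card_piFinset]
    refine Finset.card_le_card ?_
    intro u hu
    obtain ⟨g, hg, rfl⟩ := Finset.mem_image.1 hu
    exact Fintype.mem_piFinset.2 fun j => Finset.mem_image.2 ⟨g, hg, rfl⟩
  have h2 : ∀ j : Fin (d + 1), ((T.image fun g => g.coeff (j : ℕ)).card : ℝ) ≤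
      ((1 + 2 * C0) * (h : ℝ) ^ e j) ^ m := by
    intro j
    have h3 : (1 : ℝ) ≤ (h : ℝ) ^ e j := one_le_pow₀ hh'
    have h4 : ((T.image fun g => g.coeff (j : ℕ)).card : ℝ) ≤
        (1 + 2 * (C0 * (h : ℝ) ^ e j)) ^ m := by
      refine Pool.Agent.H41.RG.card_le_of_house k (by positivity) _ ?_
      intro a ha φ
      obtain ⟨g, hg, rfl⟩ := Finset.mem_image.1 ha
      exact hT g hg j φ
    refine h4.trans (pow_le_pow_left₀ (by positivity) ?_ _)
    nlinarith
  calc (T.card : ℝ) ≤ ∏ j : Fin (d + 1), ((T.image fun g => g.coeff (j : ℕ)).card : ℝ) := by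
        exact_mod_cast h1
    _ ≤ ∏ j : Fin (d + 1), ((1 + 2 * C0) * (h : ℝ) ^ e j) ^ m :=
        Finset.prod_le_prod (fun j _ => by positivity) fun j _ => h2 j
    _ = (1 + 2 * C0) ^ (m * (d + 1)) * (h : ℝ) ^ (m * ∑ j, e j) := by
        rw [Finset.prod_pow, Finset.prod_mul_distrib, Finset.prod_const, Finset.card_univ,
          Fintype.card_fin, Finset.prod_pow_eq_pow_sum, mul_pow, ← pow_mul, ← pow_mul]
        congr 2 <;> ring

theorem count_upper (d b : ℕ) : ∃ C : ℝ, 1 ≤ C ∧ ∀ h : ℕ, 1 ≤ h → ∀ (ρ D : ℕ)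
    (L : Submodule (𝓞 k) (𝓞 k)[X]) (y : Fin (d + 1) → (𝓞 k)[X]) (z : Fin D → (𝓞 k)[X]),
    LinearIndependent (𝓞 k) y → (∀ i, InBox h b d ρ (y i) ∧ y i ∈ L) →
    (∀ i, (z i).natDegree ≤ d) → (∀ i j, z i - z j ∈ L → i = j) →
    ∀ S : Finset (𝓞 k)[X], (∀ g ∈ S, InBox h b d ρ g ∧ g ∈ L) →
      (S.card : ℝ) * D ≤ C * (h : ℝ) ^ (Module.finrank ℚ k * (ρ * (d + 1) + b * (d * (d + 1) / 2))) := by
  classical
  obtain ⟨Cr, hCr0, hCr⟩ := t3_3_round k
  set m := Module.finrank ℚ k with hm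
  set C0 : ℝ := 1 + (d + 1) * Cr with hC0
  have hC0p : 0 ≤ C0 := by positivity
  refine ⟨(1 + 2 * C0) ^ (m * (d + 1)), one_le_pow₀ (by linarith), ?_⟩
  intro h hh ρ D L y z hy hyb hzd hz S hS
  have hh' : (1 : ℝ) ≤ (h : ℝ) := by exact_mod_cast hh
  choose fl hfl using hCr
  choose c hc using fun i => t3_3_repr k y hy (fun i => (hyb i).1.1) (z i)
  let z' : Fin D → (𝓞 k)[X] := fun i => z i - ∑ t, C (fl (c i t)) * y t
  have hz'L : ∀ i, z i - z' i ∈ L := by
    intro i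
    have h1 : z i - z' i = ∑ t, fl (c i t) • y t := by
      simp only [z', sub_sub_cancel]
      refine Finset.sum_congr rfl fun t _ => ?_
      rw [smul_eq_C_mul]
    rw [h1]
    exact L.sum_mem fun t _ => L.smul_mem _ (hyb t).2
  have hz'd : ∀ i, (z' i).natDegree ≤ d := by
    intro i
    refine (natDegree_sub_le _ _).trans (max_le (hzd i) ?_)
    refine natDegree_sum_le_of_forall_le _ _ fun t _ => ?_
    exact (natDegree_C_mul_le _ _).trans (hyb t).1.1
  have hz'c : ∀ i, ∀ j ≤ d, ∀ φ : k →+* ℂ, ‖φ (((z' i).coeff j : 𝓞 k) : k)‖ ≤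
      (d + 1) * Cr * (h : ℝ) ^ (ρ + b * (d - j)) := by
    intro i j hj φ
    have h1 : (((z' i).coeff j : 𝓞 k) : k) =
        ∑ t, (c i t - (fl (c i t) : k)) * (((y t).coeff j : 𝓞 k) : k) := by
      have h2 : (((z' i).coeff j : 𝓞 k) : k) = (((z i).coeff j : 𝓞 k) : k) -
          ∑ t, (fl (c i t) : k) * (((y t).coeff j : 𝓞 k) : k) := by
        show algebraMap (𝓞 k) k _ = _
        simp only [z']
        rw [coeff_sub, finsetSum_coeff, map_sub, map_sum]
        congr 1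
        refine Finset.sum_congr rfl fun t _ => ?_
        rw [coeff_C_mul, map_mul]
      rw [h2, hc i j hj, ← Finset.sum_sub_distrib]
      refine Finset.sum_congr rfl fun t _ => ?_
      ring
    rw [h1, map_sum]
    refine (norm_sum_le _ _).trans ?_
    have h2 : ∀ t ∈ (Finset.univ : Finset (Fin (d + 1))),
        ‖φ ((c i t - (fl (c i t) : k)) * (((y t).coeff j : 𝓞 k) : k))‖ ≤
          Cr * (h : ℝ) ^ (ρ + b * (d - j)) := by
      intro t _
      rw [map_mul, norm_mul]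
      exact mul_le_mul (hfl (c i t) φ) ((hyb t).1.2 j hj φ) (norm_nonneg _) hCr0.le
    refine (Finset.sum_le_sum h2).trans (le_of_eq ?_)
    rw [Finset.sum_const, Finset.card_univ, Fintype.card_fin, nsmul_eq_mul]
    push_cast
    ring
  set T : Finset (𝓞 k)[X] := (S ×ˢ (Finset.univ : Finset (Fin D))).image
    (fun p => p.1 + z' p.2) with hTdef
  have hcard : T.card = S.card * D := by
    rw [hTdef, Finset.card_image_of_injOn, Finset.card_product, Finset.card_univ,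
      Fintype.card_fin]
    rintro ⟨g1, i1⟩ h1 ⟨g2, i2⟩ h2 h12
    have hg1 : g1 ∈ S := (Finset.mem_product.1 h1).1
    have hg2 : g2 ∈ S := (Finset.mem_product.1 h2).1
    have h12' : g1 + z' i1 = g2 + z' i2 := h12
    have h3 : z i1 - z i2 ∈ L := by
      have h4 : z i1 - z i2 = (z i1 - z' i1) - (z i2 - z' i2) + (g2 - g1) := by
        linear_combination h12'
      rw [h4]
      exact L.add_mem (L.sub_mem (hz'L i1) (hz'L i2)) (L.sub_mem (hS g2 hg2).2 (hS g1 hg1).2)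
    have h5 : i1 = i2 := hz _ _ h3
    subst h5
    have h6 : g1 = g2 := add_right_cancel h12'
    rw [h6]
  have hTd : ∀ g ∈ T, g.natDegree ≤ d := by
    intro g hg
    obtain ⟨⟨g1, i1⟩, h1, rfl⟩ := Finset.mem_image.1 hg
    exact (natDegree_add_le _ _).trans
      (max_le (hS g1 (Finset.mem_product.1 h1).1).1.1 (hz'd i1))
  have hTc : ∀ g ∈ T, ∀ (j : Fin (d + 1)) (φ : k →+* ℂ),
      ‖φ ((g.coeff (j : ℕ) : 𝓞 k) : k)‖ ≤ C0 * (h : ℝ) ^ (ρ + b * (d - (j : ℕ))) := by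
    intro g hg j φ
    obtain ⟨⟨g1, i1⟩, h1, rfl⟩ := Finset.mem_image.1 hg
    have hj : (j : ℕ) ≤ d := Nat.lt_succ_iff.1 j.2
    have h2 := (hS g1 (Finset.mem_product.1 h1).1).1.2 j hj φ
    have h3 := hz'c i1 j hj φ
    have h4 : (((g1 + z' i1).coeff (j : ℕ) : 𝓞 k) : k) =
        ((g1.coeff (j : ℕ) : 𝓞 k) : k) + (((z' i1).coeff (j : ℕ) : 𝓞 k) : k) := by
      rw [coeff_add]; rfl
    show ‖φ (((g1 + z' i1).coeff (j : ℕ) : 𝓞 k) : k)‖ ≤ _
    rw [h4, map_add]
    refine (norm_add_le _ _).trans ?_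
    rw [hC0]
    linarith
  have hfin := t3_3_box k d C0 hC0p h hh (fun j => ρ + b * (d - (j : ℕ))) T hTd hTc
  rw [t3_3_expsum, hcard] at hfin
  push_cast at hfin
  exact hfin

variable {k} in
/-- `Dbl q x` has `N(q)³` classes, already in degree at most `1` -/
theorem classes_dbl (q : Ideal (𝓞 k)) (hq : q ≠ ⊥) (x : 𝓞 k) :
    ∃ z : Fin (Ideal.absNorm q ^ 3) → (𝓞 k)[X],
      (∀ i, (z i).natDegree ≤ 1) ∧ ∀ i j, Dbl q x (z i - z j) → i = j := by
  classical
  have hq2 : q ^ 2 ≠ ⊥ := pow_ne_zero 2 hq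
  haveI : Finite (𝓞 k ⧸ q ^ 2) := Ideal.finiteQuotientOfFreeOfNeBot _ hq2
  haveI : Finite (𝓞 k ⧸ q) := Ideal.finiteQuotientOfFreeOfNeBot _ hq
  haveI : Fintype (𝓞 k ⧸ q ^ 2) := Fintype.ofFinite _
  haveI : Fintype (𝓞 k ⧸ q) := Fintype.ofFinite _
  have hcardI : ∀ I : Ideal (𝓞 k), ∀ _ : Fintype (𝓞 k ⧸ I),
      Fintype.card (𝓞 k ⧸ I) = Ideal.absNorm I := by
    intro I _
    rw [Ideal.absNorm_apply, Submodule.cardQuot_apply, Nat.card_eq_fintype_card]
  have hcard : Fintype.card ((𝓞 k ⧸ q ^ 2) × (𝓞 k ⧸ q)) = Ideal.absNorm q ^ 3 := by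
    rw [Fintype.card_prod, hcardI, hcardI, map_pow]
    ring
  let e : Fin (Ideal.absNorm q ^ 3) ≃ ((𝓞 k ⧸ q ^ 2) × (𝓞 k ⧸ q)) :=
    (Fintype.equivFinOfCardEq hcard).symm
  let A : (𝓞 k ⧸ q ^ 2) → 𝓞 k := Function.surjInv Ideal.Quotient.mk_surjective
  let B : (𝓞 k ⧸ q) → 𝓞 k := Function.surjInv Ideal.Quotient.mk_surjective
  have hA : ∀ a, Ideal.Quotient.mk (q ^ 2) (A a) = a :=
    Function.surjInv_eq Ideal.Quotient.mk_surjective
  have hB : ∀ a, Ideal.Quotient.mk q (B a) = a :=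
    Function.surjInv_eq Ideal.Quotient.mk_surjective
  let z : Fin (Ideal.absNorm q ^ 3) → (𝓞 k)[X] :=
    fun i => C (A (e i).1) + C (B (e i).2) * (X - C x)
  have hze : ∀ i, (z i).eval x = A (e i).1 := by
    intro i
    simp [z]
  have hzd : ∀ i, (z i).derivative.eval x = B (e i).2 := by
    intro i
    simp [z]
  refine ⟨z, ?_, ?_⟩
  · intro i
    refine (natDegree_add_le _ _).trans (max_le ?_ ?_)
    · rw [natDegree_C]
      exact zero_le_one
    · refine (natDegree_C_mul_le _ _).trans ?_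
      rw [natDegree_X_sub_C]
  · intro i j hij
    obtain ⟨h1, h2⟩ := hij
    rw [eval_sub, hze, hze] at h1
    rw [derivative_sub, eval_sub, hzd, hzd] at h2
    have h3 : (e i).1 = (e j).1 := by
      rw [← hA (e i).1, ← hA (e j).1]
      exact Ideal.Quotient.eq.2 h1
    have h4 : (e i).2 = (e j).2 := by
      rw [← hB (e i).2, ← hB (e j).2]
      exact Ideal.Quotient.eq.2 h2
    exact e.injective (Prod.ext h3 h4)

end

end Pool.Agent.H96.T3
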