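import Pool.Agent.H96.T3.Defs
import Pool.Agent.H35.AN.Defs
import Pool.Agent.H67.MU.Bdd

/-!
# Project T3 (MP_a3214d), row T3-6

Boundedly many pairs of a prime ideal and a residue are double roots of a fixed squarefree
polynomial.
-/

set_option autoImplicit false

open Polynomial IsDedekindDomain NumberField Pool.Agent.H35.AN
open Pool.Agent.H67.MU (Bdd)
open Pool.Agent.H92.SQ2 (gg WW)
open Pool.Agent.H98.TQ

namespace Pool.Agent.H96.T3

section

variable (k : Type) [Field k] [NumberField k]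

variable {k} in
/-- few large primes contain a fixed nonzero integer -/
private theorem t3_6_few_dvd {h j K : ℕ} (hh : 2 ≤ h) (hj : 2 ≤ j) {a : 𝓞 k} (ha : a ≠ 0)
    (hK : Bdd ((h : ℝ) ^ K) a) {S : Finset (HeightOneSpectrum (𝓞 k))} (hS : PS h j S)
    (T : Finset (HeightOneSpectrum (𝓞 k))) (hTS : T ⊆ S) (hT : ∀ p ∈ T, a ∈ p.asIdeal) :
    T.card ≤ Module.finrank ℚ k * K := by
  classical
  set N : HeightOneSpectrum (𝓞 k) → ℕ := fun p => Ideal.absNorm p.asIdeal with hN
  have hinj : Set.InjOn N (T : Set (HeightOneSpectrum (𝓞 k))) := fun p hp q hq h =>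
    hS.inj p (hTS hp) q (hTS hq) h
  have h1 : (∏ p ∈ T.image N, p) ∣ Ideal.absNorm (Ideal.span {a}) := by
    refine Finset.prod_primes_dvd _ (fun p hp => ?_) fun p hp => ?_
    · obtain ⟨q, hq, rfl⟩ := Finset.mem_image.1 hp
      exact (hS.prime q (hTS hq)).prime
    · obtain ⟨q, hq, rfl⟩ := Finset.mem_image.1 hp
      refine Ideal.absNorm_dvd_absNorm_of_le ?_
      rw [Ideal.span_singleton_le_iff_mem]
      exact hT q hq
  have h0 : Ideal.absNorm (Ideal.span {a}) ≠ 0 := by
    intro h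
    rw [Ideal.absNorm_eq_zero_iff, Ideal.span_singleton_eq_bot] at h
    exact ha h
  have h2 : (∏ p ∈ T.image N, p) ≤ Ideal.absNorm (Ideal.span {a}) :=
    Nat.le_of_dvd (Nat.pos_of_ne_zero h0) h1
  have h3 : h ^ (T.image N).card ≤ ∏ p ∈ T.image N, p := by
    refine Finset.pow_card_le_prod _ _ _ fun p hp => ?_
    obtain ⟨q, hq, rfl⟩ := Finset.mem_image.1 hp
    have h4 := hS.lo q (hTS hq)
    have h5 : h ^ 1 ≤ h ^ (j - 1) := Nat.pow_le_pow_right (by omega) (by omega)
    rw [pow_one] at h5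
    exact (h5.trans h4.le)
  rw [Finset.card_image_of_injOn hinj] at h3
  have h4 : (Ideal.absNorm (Ideal.span {a}) : ℝ) ≤ ((h : ℝ) ^ K) ^ Module.finrank ℚ k :=
    Pool.Agent.H67.MU.mu8_norm _ a (Ideal.mem_span_singleton_self a) ha _ hK
  have h5 : Ideal.absNorm (Ideal.span {a}) ≤ h ^ (Module.finrank ℚ k * K) := by
    have h6 : ((h : ℝ) ^ K) ^ Module.finrank ℚ k = ((h ^ (Module.finrank ℚ k * K) : ℕ) : ℝ) := by
      push_cast
      rw [← pow_mul, mul_comm]
    rw [h6] at h4
    exact_mod_cast h4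
  exact (Nat.pow_le_pow_iff_right (by omega)).mp (h3.trans (h2.trans h5))

variable {k} in
/-- residues modulo an ideal of prime norm -/
private theorem t3_6_inj {m : Ideal (𝓞 k)} (hp : (Ideal.absNorm m).Prime) {x y : ℕ}
    (hx : x < Ideal.absNorm m) (hy : y < Ideal.absNorm m)
    (h : Ideal.Quotient.mk m (x : 𝓞 k) = Ideal.Quotient.mk m (y : 𝓞 k)) : x = y := by
  have hne : m ≠ ⊤ := by
    intro h0
    rw [h0, Ideal.absNorm_top] at hp
    exact Nat.not_prime_one hp
  have : Nontrivial (𝓞 k ⧸ m) := Ideal.Quotient.nontrivial_iff.2 hne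
  have hchar : CharP (𝓞 k ⧸ m) (Ideal.absNorm m) := by
    rw [CharP.charP_iff_prime_eq_zero hp]
    have h1 := Ideal.absNorm_mem m
    have h2 := Ideal.Quotient.eq_zero_iff_mem.2 h1
    rwa [map_natCast] at h2
  rw [map_natCast, map_natCast, CharP.natCast_eq_natCast (𝓞 k ⧸ m) (Ideal.absNorm m)] at h
  have h3 : x % Ideal.absNorm m = y % Ideal.absNorm m := h
  rwa [Nat.mod_eq_of_lt hx, Nat.mod_eq_of_lt hy] at h3

variable {k} in
open scoped Classical in
/-- a polynomial which is not zero modulo `m` has few roots modulo `m` -/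
private theorem t3_6_few_roots {m : HeightOneSpectrum (𝓞 k)} {d : ℕ}
    (hp : (Ideal.absNorm m.asIdeal).Prime) {g : (𝓞 k)[X]} (hd : g.natDegree ≤ d) {i : ℕ}
    (hi : g.coeff i ∉ m.asIdeal) :
    ((Finset.range (Ideal.absNorm m.asIdeal)).filter
      fun x : ℕ => g.eval (x : 𝓞 k) ∈ m.asIdeal).card ≤ d := by
  have hprime : m.asIdeal.IsPrime := m.isPrime
  have hdom : IsDomain (𝓞 k ⧸ m.asIdeal) := Ideal.Quotient.isDomain m.asIdeal
  set G : (𝓞 k ⧸ m.asIdeal)[X] := g.map (Ideal.Quotient.mk m.asIdeal) with hG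
  have hG0 : G ≠ 0 := by
    intro h0
    apply hi
    have h1 : G.coeff i = 0 := by rw [h0, coeff_zero]
    rw [hG, coeff_map] at h1
    exact Ideal.Quotient.eq_zero_iff_mem.1 h1
  have h1 : ((Finset.range (Ideal.absNorm m.asIdeal)).filter
      fun x : ℕ => g.eval (x : 𝓞 k) ∈ m.asIdeal).card ≤ G.roots.toFinset.card := by
    refine Finset.card_le_card_of_injOn
      (fun x : ℕ => Ideal.Quotient.mk m.asIdeal (x : 𝓞 k)) ?_ ?_
    · intro x hx
      rw [Finset.mem_coe, Finset.mem_filter] at hx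
      rw [Finset.mem_coe, Multiset.mem_toFinset, mem_roots hG0, IsRoot.def, hG, eval_map,
        eval₂_hom]
      exact Ideal.Quotient.eq_zero_iff_mem.2 hx.2
    · intro x hx y hy hxy
      rw [Finset.mem_coe, Finset.mem_filter, Finset.mem_range] at hx hy
      exact t3_6_inj hp hx.1 hy.1 hxy
  have h2 : G.roots.toFinset.card ≤ G.natDegree :=
    (Multiset.toFinset_card_le _).trans (card_roots' G)
  have h3 : G.natDegree ≤ g.natDegree := natDegree_map_le
  omega

variable {k} in
/-- the resultant of `q` and its derivative is not zero -/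
private theorem t3_6_res_ne {q : (𝓞 k)[X]} (hq : q ≠ 0) (hsq : Squarefree (FK q)) :
    q.resultant q.derivative ≠ 0 := by
  have hinj : Function.Injective (algebraMap (𝓞 k) k) := RingOfIntegers.coe_injective
  have hsep : (FK q).Separable := PerfectField.separable_iff_squarefree.mpr hsq
  have hcop : IsCoprime (FK q) (FK q).derivative := hsep
  have hq0 : FK q ≠ 0 := (Polynomial.map_ne_zero_iff hinj).2 hq
  have h1 : (FK q).resultant (FK q).derivative ≠ 0 := by
    intro h0
    rw [resultant_eq_zero_iff] at h0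
    exact h0.2 hcop
  intro h0
  apply h1
  have hder : (FK q).derivative = FK q.derivative := derivative_map q _
  have hd1 : (FK q).natDegree = q.natDegree := natDegree_map_eq_of_injective hinj q
  have hd2 : (FK q.derivative).natDegree = q.derivative.natDegree :=
    natDegree_map_eq_of_injective hinj q.derivative
  have h3 := resultant_map_map q q.derivative q.natDegree q.derivative.natDegree
    (algebraMap (𝓞 k) k)
  rw [h0, map_zero] at h3
  rw [hder, hd1, hd2]
  exact h3

variable {k} in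
/-- the resultant lies in every ideal which contains `q (x)` and `q' (x)` -/
private theorem t3_6_res_mem {q : (𝓞 k)[X]} (hq1 : q.natDegree ≠ 0) (l : Ideal (𝓞 k)) (x : 𝓞 k)
    (hx : D1 l x q) : q.resultant q.derivative ∈ l := by
  obtain ⟨a, b, -, -, hab⟩ := exists_mul_add_mul_eq_C_resultant (m := q.natDegree)
    (n := q.derivative.natDegree) q q.derivative le_rfl le_rfl (Or.inl hq1)
  have h1 := congrArg (Polynomial.eval x) hab
  rw [eval_add, eval_mul, eval_mul, eval_C] at h1
  rw [← h1]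
  exact l.add_mem (l.mul_mem_right _ hx.1) (l.mul_mem_right _ hx.2)

/-- the size of the resultant -/
private theorem t3_6_res_bdd {n : ℕ} {q : (𝓞 k)[X]} (hn : q.natDegree ≤ n) (B : ℝ) (hB : 1 ≤ B)
    (hb : ∀ (σ : k →+* ℂ) (i : ℕ), ‖σ (q.coeff i : k)‖ ≤ B)
    (hb' : ∀ (σ : k →+* ℂ) (i : ℕ), ‖σ (q.derivative.coeff i : k)‖ ≤ B) :
    Bdd ((Nat.factorial (2 * n) : ℝ) * B ^ (2 * n)) (q.resultant q.derivative) := by
  intro σ
  set τ : 𝓞 k →+* ℂ := σ.comp (algebraMap (𝓞 k) k) with hτ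
  set M := sylvester q q.derivative q.natDegree q.derivative.natDegree with hM
  have h1 : σ ((q.resultant q.derivative : 𝓞 k) : k) = (τ.mapMatrix M).det := by
    rw [← RingHom.map_det]
    rfl
  rw [h1]
  have hent : ∀ i j, ‖τ.mapMatrix M i j‖ ≤ B := by
    intro i j
    have h0 : ‖τ 0‖ ≤ B := by
      rw [map_zero, norm_zero]
      linarith
    rw [RingHom.mapMatrix_apply, Matrix.map_apply, hM]
    unfold sylvester
    rw [Matrix.of_apply]
    refine Fin.addCases (fun j₁ => ?_) (fun j₁ => ?_) j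
    · rw [Fin.addCases_left]
      split_ifs
      · exact hb' σ _
      · exact h0
    · rw [Fin.addCases_right]
      split_ifs
      · exact hb σ _
      · exact h0
  have h2 := Matrix.det_le (A := τ.mapMatrix M)
    (abv := IsAbsoluteValue.toAbsoluteValue (norm : ℂ → ℝ)) (x := B) hent
  have h3 : ‖(τ.mapMatrix M).det‖ ≤
      (Nat.factorial (Fintype.card (Fin (q.natDegree + q.derivative.natDegree)))) •
        B ^ Fintype.card (Fin (q.natDegree + q.derivative.natDegree)) := h2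
  rw [Fintype.card_fin, nsmul_eq_mul] at h3
  have hder : q.derivative.natDegree ≤ n := (natDegree_derivative_le q).trans (by omega)
  have hle : q.natDegree + q.derivative.natDegree ≤ 2 * n := by omega
  refine h3.trans ?_
  refine mul_le_mul ?_ (pow_le_pow_right₀ hB hle) (by positivity) (by positivity)
  exact_mod_cast Nat.factorial_le hle

open scoped Classical in
theorem few_dbl (n b v : ℕ) (hv : Module.finrank ℚ k * (b * n) + 2 ≤ v) (A : ℝ) :
    ∃ K h0 : ℕ, ∀ h ≥ h0, ∀ T : Finset (HeightOneSpectrum (𝓞 k)), PS h v T →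
      ∀ q : (𝓞 k)[X], q ≠ 0 → Squarefree (FK q) → q.natDegree ≤ n →
      (∀ (σ : k →+* ℂ) (i : ℕ), ‖σ (q.coeff i : k)‖ ≤ A * (h : ℝ) ^ (b * n)) →
      (∑ l ∈ T, ((Finset.range (Ideal.absNorm l.asIdeal)).filter fun x : ℕ =>
        D1 l.asIdeal (x : 𝓞 k) q).card) ≤ K := by
  set D := Module.finrank ℚ k with hD
  set A1 : ℝ := max A 1 with hA1
  refine ⟨n * (D * ((b * n + 2) * (2 * n) + 1)),
    max (max 2 (n + 1)) (max (Nat.factorial (2 * n)) (max (⌈A1⌉₊) (⌈A1 ^ D⌉₊ + 1))), ?_⟩
  intro h hh T hT q hq hsq hqn hqA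
  have hh2 : 2 ≤ h := ((le_max_left _ _).trans (le_max_left _ _)).trans hh
  have hhn : n + 1 ≤ h := ((le_max_right _ _).trans (le_max_left _ _)).trans hh
  have hhf : Nat.factorial (2 * n) ≤ h :=
    ((le_max_left _ _).trans (le_max_right _ _)).trans hh
  have hhA : ⌈A1⌉₊ ≤ h :=
    ((le_max_left _ _).trans ((le_max_right _ _).trans (le_max_right _ _))).trans hh
  have hhD : ⌈A1 ^ D⌉₊ + 1 ≤ h :=
    ((le_max_right _ _).trans ((le_max_right _ _).trans (le_max_right _ _))).trans hh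
  have hhR : (1 : ℝ) ≤ h := by exact_mod_cast (by omega : 1 ≤ h)
  have hA1h : A1 ≤ h := (Nat.le_ceil A1).trans (by exact_mod_cast hhA)
  have hA1D : A1 ^ D < h := by
    have h1 : A1 ^ D ≤ (⌈A1 ^ D⌉₊ : ℝ) := Nat.le_ceil _
    have h2 : ((⌈A1 ^ D⌉₊ + 1 : ℕ) : ℝ) ≤ h := by exact_mod_cast hhD
    push_cast at h2
    linarith
  have hA11 : (1 : ℝ) ≤ A1 := le_max_right _ _
  have hqA1 : ∀ (σ : k →+* ℂ) (i : ℕ), ‖σ (q.coeff i : k)‖ ≤ A1 * (h : ℝ) ^ (b * n) := by
    intro σ i
    refine (hqA σ i).trans ?_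
    exact mul_le_mul_of_nonneg_right (le_max_left _ _) (by positivity)
  -- the leading coefficient is not in `l`
  have hlc : ∀ l ∈ T, q.coeff q.natDegree ∉ l.asIdeal := by
    intro l hl hmem
    have h0 : q.coeff q.natDegree ≠ 0 := by
      rw [coeff_natDegree]
      exact leadingCoeff_ne_zero.mpr hq
    have h1 := Pool.Agent.H67.MU.mu8_norm l.asIdeal _ hmem h0 (A1 * (h : ℝ) ^ (b * n))
      (fun φ => hqA1 φ _)
    have h2 : ((h : ℝ) ^ (v - 1)) < (Ideal.absNorm l.asIdeal : ℝ) := by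
      exact_mod_cast hT.lo l hl
    have h3 : (A1 * (h : ℝ) ^ (b * n)) ^ Module.finrank ℚ k ≤ (h : ℝ) ^ (v - 1) := by
      rw [mul_pow, ← pow_mul, ← hD]
      calc A1 ^ D * (h : ℝ) ^ (b * n * D) ≤ (h : ℝ) * (h : ℝ) ^ (b * n * D) :=
            mul_le_mul_of_nonneg_right hA1D.le (by positivity)
        _ = (h : ℝ) ^ (b * n * D + 1) := by rw [pow_succ]; ring
        _ ≤ (h : ℝ) ^ (v - 1) := by
            refine pow_le_pow_right₀ hhR ?_
            have : b * n * D = D * (b * n) := by ring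
            omega
    linarith
  -- at most `n` residues for every `l`
  have hn : ∀ l ∈ T, ((Finset.range (Ideal.absNorm l.asIdeal)).filter fun x : ℕ =>
      D1 l.asIdeal (x : 𝓞 k) q).card ≤ q.natDegree := by
    intro l hl
    refine (Finset.card_le_card ?_).trans (t3_6_few_roots (hT.prime l hl) le_rfl (hlc l hl))
    intro x hx
    rw [Finset.mem_filter] at hx ⊢
    exact ⟨hx.1, hx.2.1⟩
  by_cases hq0 : q.natDegree = 0
  · rw [Finset.sum_eq_zero]
    · exact Nat.zero_le _
    · intro l hl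
      have := hn l hl
      omega
  -- the resultant
  set R := q.resultant q.derivative with hR
  have hR0 : R ≠ 0 := t3_6_res_ne hq hsq
  have hbig : (1 : ℝ) ≤ (h : ℝ) ^ (b * n + 2) := one_le_pow₀ hhR
  have hbdd : Bdd ((h : ℝ) ^ ((b * n + 2) * (2 * n) + 1)) R := by
    have h1 : ∀ (σ : k →+* ℂ) (i : ℕ), ‖σ (q.coeff i : k)‖ ≤ (h : ℝ) ^ (b * n + 1) := by
      intro σ i
      refine (hqA1 σ i).trans ?_
      rw [pow_succ, mul_comm]
      exact mul_le_mul_of_nonneg_left hA1h (by positivity)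
    have h2 := t3_6_res_bdd k hqn ((h : ℝ) ^ (b * n + 2)) hbig
      (fun σ i => (h1 σ i).trans (pow_le_pow_right₀ hhR (by omega)))
      (by
        intro σ i
        rw [coeff_derivative]
        by_cases hi : i + 1 ≤ n
        · have h3 : ((q.coeff (i + 1) * ((i : 𝓞 k) + 1) : 𝓞 k) : k) =
              (q.coeff (i + 1) : k) * ((i + 1 : ℕ) : k) := by
            push_cast
            rfl
          rw [h3, map_mul, map_natCast, norm_mul, Complex.norm_natCast]
          have h4 : ((i + 1 : ℕ) : ℝ) ≤ h := by exact_mod_cast (by omega : i + 1 ≤ h)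
          calc ‖σ (q.coeff (i + 1) : k)‖ * ((i + 1 : ℕ) : ℝ) ≤ (h : ℝ) ^ (b * n + 1) * h :=
                mul_le_mul (h1 σ _) h4 (by positivity) (by positivity)
            _ = (h : ℝ) ^ (b * n + 2) := by rw [← pow_succ]
        · have h5 : q.coeff (i + 1) = 0 := coeff_eq_zero_of_natDegree_lt (by omega)
          have h6 : σ ((0 : 𝓞 k) : k) = 0 := by
            rw [show ((0 : 𝓞 k) : k) = 0 from rfl, map_zero]
          rw [h5, zero_mul, h6, norm_zero]
          positivity)
    intro φ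
    refine (h2 φ).trans ?_
    have h3 : (Nat.factorial (2 * n) : ℝ) ≤ h := by exact_mod_cast hhf
    calc (Nat.factorial (2 * n) : ℝ) * ((h : ℝ) ^ (b * n + 2)) ^ (2 * n)
        ≤ h * ((h : ℝ) ^ (b * n + 2)) ^ (2 * n) := mul_le_mul_of_nonneg_right h3 (by positivity)
      _ = (h : ℝ) ^ ((b * n + 2) * (2 * n) + 1) := by rw [← pow_mul, pow_succ]; ring
  have hcard := t3_6_few_dvd hh2 (by omega : 2 ≤ v) hR0 hbdd hT
    (T.filter fun l => R ∈ l.asIdeal) (Finset.filter_subset _ _)
    (fun p hp => (Finset.mem_filter.mp hp).2)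
  rw [← Finset.sum_filter_add_sum_filter_not T (fun l => R ∈ l.asIdeal)]
  have hz : ∑ l ∈ T.filter (fun l => ¬ R ∈ l.asIdeal),
      ((Finset.range (Ideal.absNorm l.asIdeal)).filter fun x : ℕ =>
        D1 l.asIdeal (x : 𝓞 k) q).card = 0 := by
    apply Finset.sum_eq_zero
    intro l hl
    rw [Finset.mem_filter] at hl
    rw [Finset.card_eq_zero, Finset.filter_eq_empty_iff]
    intro x _ hx
    exact hl.2 (t3_6_res_mem hq0 _ _ hx)
  rw [hz, add_zero]
  refine (Finset.sum_le_card_nsmul _ _ n ?_).trans ?_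
  · intro l hl
    exact (hn l (Finset.mem_filter.mp hl).1).trans hqn
  · rw [smul_eq_mul, mul_comm]
    exact Nat.mul_le_mul_left _ hcard

end

end Pool.Agent.H96.T3
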