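import Pool.Agent.H96.T3.Defs
import Pool.Agent.H67.MU.Bdd
import Pool.Agent.H41.RG.Boxes

/-! Project T3, row T3-5: the number of small square factors. -/

set_option autoImplicit false

open Polynomial IsDedekindDomain NumberField Pool.Agent.H35.AN
open Pool.Agent.H67.MU (Bdd)
open Pool.Agent.H92.SQ2 (gg WW)
open Pool.Agent.H98.TQ

namespace Pool.Agent.H96.T3

/-- the sum of the exponents -/
private theorem t3_5_sum (n : ℕ) (hn : 4 ≤ n) :
    ∑ i : Fin ((n - 2) / 2 + 1), (n - 2 * (i : ℕ)) = (n ^ 2 + 2 * n) / 4 := by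
  rw [Fin.sum_univ_eq_sum_range (fun i => n - 2 * i)]
  have key : ∀ e m : ℕ, 2 * e ≤ m →
      ∑ i ∈ Finset.range (e + 1), (m - 2 * i) = (e + 1) * (m - e) := by
    intro e
    induction e with
    | zero => intro m _; simp
    | succ e ih =>
      intro m hm
      rw [Finset.sum_range_succ, ih m (by omega)]
      obtain ⟨r, rfl⟩ : ∃ r, m = 2 * (e + 1) + r := ⟨m - 2 * (e + 1), by omega⟩
      have h1 : 2 * (e + 1) + r - e = e + 2 + r := by omega
      have h2 : 2 * (e + 1) + r - 2 * (e + 1) = r := by omega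
      have h3 : 2 * (e + 1) + r - (e + 1) = e + 1 + r := by omega
      rw [h1, h2, h3]
      ring
  rw [key _ n (by omega)]
  rcases Nat.even_or_odd' n with ⟨m, rfl | rfl⟩
  · have h1 : (2 * m - 2) / 2 + 1 = m := by omega
    have h2 : 2 * m - (2 * m - 2) / 2 = m + 1 := by omega
    rw [h1, h2]
    have h3 : (2 * m) ^ 2 + 2 * (2 * m) = 4 * (m * (m + 1)) := by ring
    rw [h3, Nat.mul_div_cancel_left _ (by norm_num)]
  · have h1 : (2 * m + 1 - 2) / 2 + 1 = m := by omega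
    have h2 : 2 * m + 1 - (2 * m + 1 - 2) / 2 = m + 2 := by omega
    rw [h1, h2]
    have h3 : (2 * m + 1) ^ 2 + 2 * (2 * m + 1) = 4 * (m * (m + 2)) + 3 := by ring
    rw [h3]
    omega

section

variable (k : Type) [Field k] [NumberField k]

theorem small_p (n b : ℕ) (hn : 4 ≤ n) (A : ℝ) (hA : 1 ≤ A) : ∃ A' : ℝ, 1 ≤ A' ∧
    ∀ h : ℕ, 1 ≤ h → {p : (𝓞 k)[X] | 2 * p.natDegree ≤ n - 2 ∧
      ∀ (σ : k →+* ℂ) (i : ℕ), ‖σ (p.coeff i : k)‖ ^ 2 ≤ A * (h : ℝ) ^ (b * (n - 2 * i))}.Finite ∧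
    ({p : (𝓞 k)[X] | 2 * p.natDegree ≤ n - 2 ∧
      ∀ (σ : k →+* ℂ) (i : ℕ), ‖σ (p.coeff i : k)‖ ^ 2 ≤
        A * (h : ℝ) ^ (b * (n - 2 * i))}.ncard : ℝ) ^ 2 ≤
      A' * (h : ℝ) ^ (Module.finrank ℚ k * (b * ((n ^ 2 + 2 * n) / 4))) := by
  classical
  set e : ℕ := (n - 2) / 2 with he
  set D := Module.finrank ℚ k with hD
  refine ⟨(9 * A) ^ (D * (e + 1)), one_le_pow₀ (by linarith), ?_⟩
  intro h hh
  have hh1 : (1 : ℝ) ≤ h := by exact_mod_cast hh
  set P : Set (𝓞 k)[X] := {p : (𝓞 k)[X] | 2 * p.natDegree ≤ n - 2 ∧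
      ∀ (σ : k →+* ℂ) (i : ℕ), ‖σ (p.coeff i : k)‖ ^ 2 ≤
        A * (h : ℝ) ^ (b * (n - 2 * i))} with hP
  -- the bounds
  let Y : ℕ → ℝ := fun i => Real.sqrt (A * (h : ℝ) ^ (b * (n - 2 * i)))
  have hY1 : ∀ i, 1 ≤ Y i := by
    intro i
    refine Real.one_le_sqrt.2 ?_
    have h1 : (1 : ℝ) ≤ (h : ℝ) ^ (b * (n - 2 * i)) := one_le_pow₀ hh1
    nlinarith
  have hY2 : ∀ i, Y i ^ 2 = A * (h : ℝ) ^ (b * (n - 2 * i)) := fun i =>
    Real.sq_sqrt (by positivity)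
  have hfin : ∀ i, {x : 𝓞 k | Bdd (Y i) x}.Finite := by
    intro i
    obtain ⟨c0, -, hc⟩ := Pool.Agent.H67.MU.bdd_mem_count k
    refine ((hc (Y i) (by linarith [hY1 i]) ⊤ top_ne_bot).1).subset ?_
    intro x hx
    exact ⟨hx, Submodule.mem_top⟩
  set Z : Finset (Fin (e + 1) → 𝓞 k) := Fintype.piFinset fun i => (hfin (i : ℕ)).toFinset with hZ
  have hmaps : Set.MapsTo (fun (p : (𝓞 k)[X]) (i : Fin (e + 1)) => p.coeff i) P
      (Z : Set (Fin (e + 1) → 𝓞 k)) := by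
    intro p hp
    rw [Finset.mem_coe, hZ, Fintype.mem_piFinset]
    intro i
    rw [Set.Finite.mem_toFinset]
    intro σ
    exact Real.le_sqrt_of_sq_le (hp.2 σ i)
  have hinj : Set.InjOn (fun (p : (𝓞 k)[X]) (i : Fin (e + 1)) => p.coeff i) P := by
    intro p hp q hq hpq
    ext i
    by_cases hi : i < e + 1
    · exact congrArg _ (congrFun hpq ⟨i, hi⟩)
    · have h1 := hp.1
      have h2 := hq.1
      rw [coeff_eq_zero_of_natDegree_lt (by omega), coeff_eq_zero_of_natDegree_lt (by omega)]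
  refine ⟨Set.Finite.of_injOn hmaps hinj Z.finite_toSet, ?_⟩
  have hcard : (P.ncard : ℝ) ≤ ∏ i : Fin (e + 1), (3 * Y i) ^ D := by
    have h1 : P.ncard ≤ Z.card := by
      have := Set.ncard_le_ncard_of_injOn _ hmaps hinj Z.finite_toSet
      rwa [Set.ncard_coe_finset] at this
    have h2 : (P.ncard : ℝ) ≤ (Z.card : ℝ) := by exact_mod_cast h1
    refine h2.trans ?_
    rw [hZ, Fintype.card_piFinset]
    push_cast
    refine Finset.prod_le_prod (fun i _ => Nat.cast_nonneg _) fun i _ => ?_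
    have h3 := Pool.Agent.H41.RG.card_le_of_house k (Y := Y i) (by linarith [hY1 i])
      (hfin (i : ℕ)).toFinset (fun x hx φ => ((hfin (i : ℕ)).mem_toFinset.1 hx) φ)
    refine h3.trans (pow_le_pow_left₀ (by linarith [hY1 i]) ?_ _)
    linarith [hY1 i]
  calc (P.ncard : ℝ) ^ 2 ≤ (∏ i : Fin (e + 1), (3 * Y i) ^ D) ^ 2 :=
        pow_le_pow_left₀ (Nat.cast_nonneg _) hcard 2
    _ = ∏ i : Fin (e + 1), ((9 * A) ^ D * (h : ℝ) ^ (D * (b * (n - 2 * (i : ℕ))))) := by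
        rw [← Finset.prod_pow]
        refine Finset.prod_congr rfl fun i _ => ?_
        have h1 : ((3 * Y i) ^ D) ^ 2 = (9 * (Y i) ^ 2) ^ D := by
          rw [← pow_mul, mul_comm D 2, pow_mul, mul_pow]
          norm_num
        rw [h1, hY2, ← mul_assoc, mul_pow, ← pow_mul, mul_comm _ D]
    _ = (9 * A) ^ (D * (e + 1)) * (h : ℝ) ^ (D * (b * ((n ^ 2 + 2 * n) / 4))) := by
        rw [Finset.prod_mul_distrib, Finset.prod_const, Finset.card_univ, Fintype.card_fin,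
          ← pow_mul, Finset.prod_pow_eq_pow_sum, ← Finset.mul_sum, ← Finset.mul_sum,
          t3_5_sum n hn]

end

end Pool.Agent.H96.T3
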