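import Pool.Agent.H96.T3.Defs
import Pool.Agent.H35.AN.Defs

/-!
# Project T3 (MP_a3214d), row T3-4: the square part of a polynomial over a number field
-/

set_option autoImplicit false

open Polynomial IsDedekindDomain NumberField Pool.Agent.H35.AN
open Pool.Agent.H67.MU (Bdd)
open Pool.Agent.H92.SQ2 (gg WW)
open Pool.Agent.H98.TQ

namespace Pool.Agent.H96.T3

/-- the maximal square part of a polynomial over a field -/
private theorem sqfree_part {F : Type*} [Field F] (n : ℕ) : ∀ g : F[X], g ≠ 0 →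
    g.natDegree ≤ n → ∃ P Q : F[X], P ^ 2 * Q = g ∧ Squarefree Q ∧ P ≠ 0 := by
  induction n with
  | zero =>
    intro g hg hn
    refine ⟨1, g, by ring, ?_, one_ne_zero⟩
    apply IsUnit.squarefree
    rw [isUnit_iff_degree_eq_zero, degree_eq_natDegree hg]
    have : g.natDegree = 0 := by omega
    rw [this]
    rfl
  | succ n ih =>
    intro g hg hn
    by_cases hs : Squarefree g
    · exact ⟨1, g, by ring, hs, one_ne_zero⟩
    · unfold Squarefree at hs
      push Not at hs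
      obtain ⟨x, ⟨y, hy⟩, hx⟩ := hs
      have hx0 : x ≠ 0 := by
        rintro rfl
        exact hg (by rw [hy]; ring)
      have hy0 : y ≠ 0 := by
        rintro rfl
        exact hg (by rw [hy]; ring)
      have hxd : 1 ≤ x.natDegree := by
        by_contra h0
        apply hx
        rw [isUnit_iff_degree_eq_zero, degree_eq_natDegree hx0]
        have : x.natDegree = 0 := by omega
        rw [this]
        rfl
      have hd : g.natDegree = x.natDegree + x.natDegree + y.natDegree := by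
        rw [hy, natDegree_mul (mul_ne_zero hx0 hx0) hy0, natDegree_mul hx0 hx0]
      obtain ⟨P, Q, h1, h2, h3⟩ := ih y hy0 (by omega)
      exact ⟨x * P, Q, by rw [hy, ← h1]; ring, h2, mul_ne_zero hx0 h3⟩

section

variable (k : Type) [Field k] [NumberField k]

/-- Gauss's lemma -/
private theorem gauss_int (P Q : k[X])
    (h : ∀ i, ∃ s : 𝓞 k, algebraMap (𝓞 k) k s = (P ^ 2 * Q).coeff i) (i j l : ℕ) :
    ∃ s : 𝓞 k, algebraMap (𝓞 k) k s = P.coeff i * P.coeff j * Q.coeff l := by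
  have h1 : ∀ v : HeightOneSpectrum (𝓞 k),
      v.valuation k (P.coeff i * P.coeff j * Q.coeff l) ≤ 1 := by
    intro v
    have hb : (1 : NNReal) < 2 := by norm_num
    have hna := v.isNonarchimedean_adicAbv (K := k) hb
    have h2 : gaussNorm (v.adicAbv (K := k) hb) 1 (P ^ 2 * Q) ≤ 1 := by
      obtain ⟨m, hm⟩ := exists_eq_gaussNorm (v.adicAbv (K := k) hb) 1 (P ^ 2 * Q)
      rw [hm, one_pow, mul_one]
      obtain ⟨s, hs⟩ := h m
      rw [← hs]
      exact v.adicAbv_coe_le_one hb s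
    rw [sq, gaussNorm_mul hna one_pos, gaussNorm_mul hna one_pos] at h2
    have h3 : ∀ (F : k[X]) (m : ℕ), v.adicAbv (K := k) hb (F.coeff m) ≤
        gaussNorm (v.adicAbv (K := k) hb) 1 F := by
      intro F m
      have := le_gaussNorm (v.adicAbv (K := k) hb) F zero_le_one m
      rwa [one_pow, mul_one] at this
    have h4 : v.adicAbv (K := k) hb (P.coeff i * P.coeff j * Q.coeff l) ≤ 1 := by
      rw [map_mul, map_mul]
      refine le_trans ?_ h2
      have h5 := fun (F : k[X]) => gaussNorm_nonneg (v.adicAbv (K := k) hb) F zero_le_one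
      refine mul_le_mul (mul_le_mul (h3 P i) (h3 P j) (apply_nonneg _ _) (h5 P)) (h3 Q l)
        (apply_nonneg _ _) (mul_nonneg (h5 P) (h5 P))
    by_contra h5
    rw [not_le] at h5
    have h6 := WithZeroMulInt.toNNReal_strictMono hb h5
    rw [map_one] at h6
    have h7 : v.adicAbv (K := k) hb (P.coeff i * P.coeff j * Q.coeff l) =
      (WithZeroMulInt.toNNReal (ne_zero_of_lt hb)
        (v.valuation k (P.coeff i * P.coeff j * Q.coeff l)) : ℝ) := rfl
    rw [h7] at h4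
    have h8 : (1 : ℝ) < (WithZeroMulInt.toNNReal (ne_zero_of_lt hb)
        (v.valuation k (P.coeff i * P.coeff j * Q.coeff l)) : ℝ) := by exact_mod_cast h6
    linarith
  obtain ⟨s, hs⟩ := HeightOneSpectrum.mem_integers_of_valuation_le_one k _ h1
  exact ⟨s, hs⟩

/-- the same for the content ideal -/
private theorem gauss_int2 (P0 : (𝓞 k)[X]) (Q : k[X])
    (h : ∀ i, ∃ s : 𝓞 k, algebraMap (𝓞 k) k s = (FK P0 ^ 2 * Q).coeff i) (l : ℕ) (t : 𝓞 k)
    (ht : t ∈ Ideal.span (Set.range P0.coeff) * Ideal.span (Set.range P0.coeff)) :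
    ∃ s : 𝓞 k, algebraMap (𝓞 k) k s = algebraMap (𝓞 k) k t * Q.coeff l := by
  refine Submodule.mul_induction_on ht ?_ ?_
  · intro m hm m' hm'
    refine Submodule.span_induction ?_ ?_ ?_ ?_ hm
    · rintro _ ⟨i, rfl⟩
      refine Submodule.span_induction ?_ ?_ ?_ ?_ hm'
      · rintro _ ⟨j, rfl⟩
        obtain ⟨s, hs⟩ := gauss_int k _ Q h i j l
        refine ⟨s, ?_⟩
        rw [hs, map_mul]
        simp only [FK, coeff_map]
      · exact ⟨0, by simp⟩
      · rintro x y _ _ ⟨s, hs⟩ ⟨s', hs'⟩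
        refine ⟨s + s', ?_⟩
        rw [map_add, hs, hs']
        simp only [map_mul, map_add]
        ring
      · rintro a x _ ⟨s, hs⟩
        refine ⟨a * s, ?_⟩
        rw [map_mul, hs]
        simp only [smul_eq_mul, map_mul]
        ring
    · exact ⟨0, by simp⟩
    · rintro x y _ _ ⟨s, hs⟩ ⟨s', hs'⟩
      refine ⟨s + s', ?_⟩
      rw [map_add, hs, hs']
      simp only [map_mul, map_add]
      ring
    · rintro a x _ ⟨s, hs⟩
      refine ⟨a * s, ?_⟩
      rw [map_mul, hs]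
      simp only [smul_eq_mul, map_mul]
      ring
  · rintro x y ⟨s, hs⟩ ⟨s', hs'⟩
    refine ⟨s + s', ?_⟩
    rw [map_add, hs, hs']
    simp only [map_add]
    ring

open NumberField.mixedEmbedding NumberField.InfinitePlace MeasureTheory in
open scoped nonZeroDivisors ENNReal NNReal Classical in
/-- Minkowski's theorem for the inverse of an ideal -/
private theorem mink : ∃ Ck : ℝ, 1 ≤ Ck ∧ ∀ (I : Ideal (𝓞 k)), I ≠ ⊥ →
    ∀ M : InfinitePlace k → ℝ, (∀ w, 0 < M w) → ∀ B : ℝ, 0 < B →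
    Ck * ∏ w, M w ^ mult w ≤ B ^ Module.finrank ℚ k * (Ideal.absNorm I : ℝ) →
    ∃ α : k, α ≠ 0 ∧ (∀ t ∈ I, ∃ s : 𝓞 k, algebraMap (𝓞 k) k s = α * algebraMap (𝓞 k) k t) ∧
      ∀ w : InfinitePlace k, w α * M w ≤ B := by
  set V : ℝ≥0∞ := volume (ZSpan.fundamentalDomain (latticeBasis k)) *
    (2 : ℝ≥0∞) ^ (Module.finrank ℝ (mixedSpace k)) with hV
  have hVt : V < ⊤ := by
    rw [hV]
    exact ENNReal.mul_lt_top (ZSpan.fundamentalDomain_isBounded _).measure_lt_top <|
      ENNReal.pow_lt_top ENNReal.ofNat_lt_top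
  have hF : (0 : ℝ) < (convexBodyLTFactor k : ℝ) := by
    have := convexBodyLTFactor_ne_zero k
    positivity
  have hV0 : 0 ≤ V.toReal := ENNReal.toReal_nonneg
  refine ⟨V.toReal / (convexBodyLTFactor k : ℝ) + 1, ?_, ?_⟩
  · have : 0 ≤ V.toReal / (convexBodyLTFactor k : ℝ) := by positivity
    linarith
  intro I hI M hM B hB hle
  have hI0 : (I : FractionalIdeal (𝓞 k)⁰ k) ≠ 0 := FractionalIdeal.coeIdeal_ne_zero.mpr hI
  set u : (FractionalIdeal (𝓞 k)⁰ k)ˣ := Units.mk0 (I : FractionalIdeal (𝓞 k)⁰ k) hI0 with hu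
  have hN : (0 : ℝ) < (Ideal.absNorm I : ℝ) := by
    have : Ideal.absNorm I ≠ 0 := by
      rw [Ne, Ideal.absNorm_eq_zero_iff]
      exact hI
    positivity
  set f : InfinitePlace k → ℝ≥0 := fun w => (B / M w).toNNReal with hf
  have hfw : ∀ w, ((f w : ℝ≥0) : ℝ) = B / M w := by
    intro w
    rw [hf]
    exact Real.coe_toNNReal _ (div_pos hB (hM w)).le
  have hvol : volume (convexBodyLT k f) = ENNReal.ofReal ((convexBodyLTFactor k : ℝ) *
      ∏ w : InfinitePlace k, (B / M w) ^ mult w) := by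
    rw [convexBodyLT_volume, ENNReal.ofReal_mul hF.le, ENNReal.ofReal_prod_of_nonneg
      (fun w _ => pow_nonneg (div_pos hB (hM w)).le _)]
    congr 1
    · rw [ENNReal.ofReal_coe_nnreal]
    · push_cast
      refine Finset.prod_congr rfl fun w _ => ?_
      rw [ENNReal.ofReal_pow (div_pos hB (hM w)).le, ← hfw w, ENNReal.ofReal_coe_nnreal]
  have hmin : minkowskiBound k u⁻¹ = ENNReal.ofReal (V.toReal / (Ideal.absNorm I : ℝ)) := by
    rw [minkowskiBound, volume_fundamentalDomain_fractionalIdealLatticeBasis, mul_assoc, ← hV,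
      div_eq_inv_mul, ENNReal.ofReal_mul (by positivity), ENNReal.ofReal_toReal hVt.ne]
    congr 2
    rw [Units.val_inv_eq_inv_val, map_inv₀, hu, Units.val_mk0, FractionalIdeal.coeIdeal_absNorm]
    push_cast
    rfl
  have hprod : ∏ w : InfinitePlace k, (B / M w) ^ mult w =
      B ^ Module.finrank ℚ k / ∏ w, M w ^ mult w := by
    rw [← sum_mult_eq (K := k), ← Finset.prod_pow_eq_pow_sum Finset.univ (fun w => mult w) B,
      ← Finset.prod_div_distrib]
    exact Finset.prod_congr rfl fun w _ => div_pow _ _ _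
  have hMp : 0 < ∏ w, M w ^ mult w := Finset.prod_pos fun w _ => pow_pos (hM w) _
  have hlt : minkowskiBound k u⁻¹ < volume (convexBodyLT k f) := by
    rw [hvol, hmin, hprod]
    have h1 : V.toReal / (Ideal.absNorm I : ℝ) <
        (convexBodyLTFactor k : ℝ) * (B ^ Module.finrank ℚ k / ∏ w, M w ^ mult w) := by
      have h2 : (V.toReal / (convexBodyLTFactor k : ℝ) + 1) / (Ideal.absNorm I : ℝ) ≤
          B ^ Module.finrank ℚ k / ∏ w, M w ^ mult w := by
        rw [div_le_div_iff₀ hN hMp]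
        exact hle
      calc V.toReal / (Ideal.absNorm I : ℝ) <
          (V.toReal + (convexBodyLTFactor k : ℝ)) / (Ideal.absNorm I : ℝ) :=
            div_lt_div_of_pos_right (by linarith) hN
        _ = (convexBodyLTFactor k : ℝ) *
            ((V.toReal / (convexBodyLTFactor k : ℝ) + 1) / (Ideal.absNorm I : ℝ)) := by
            field_simp
        _ ≤ _ := mul_le_mul_of_nonneg_left h2 hF.le
    exact (ENNReal.ofReal_lt_ofReal_iff (lt_of_le_of_lt (by positivity) h1)).mpr h1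
  obtain ⟨α, h1, h2, h3⟩ := exists_ne_zero_mem_ideal_lt k u⁻¹ hlt
  refine ⟨α, h2, ?_, ?_⟩
  · intro t ht
    rw [Units.val_inv_eq_inv_val, hu, Units.val_mk0, FractionalIdeal.mem_inv_iff hI0] at h1
    have h4 := h1 (algebraMap (𝓞 k) k t) (FractionalIdeal.mem_coeIdeal_of_mem _ ht)
    exact (FractionalIdeal.mem_one_iff _).mp h4
  · intro w
    have h4 : w α < B / M w := by
      rw [← hfw w]
      exact h3 w
    rw [lt_div_iff₀ (hM w)] at h4
    exact h4.le

open NumberField.InfinitePlace in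
open scoped nonZeroDivisors in
/-- the norm of `α I` -/
private theorem nrm (α : k) (hα : α ≠ 0) (I : Ideal (𝓞 k)) (hI : I ≠ ⊥)
    (h : ∀ t ∈ I, ∃ s : 𝓞 k, algebraMap (𝓞 k) k s = α * algebraMap (𝓞 k) k t) :
    ∃ c : ℕ, 1 ≤ c ∧ (c : ℝ) = (∏ w : InfinitePlace k, w α ^ mult w) * (Ideal.absNorm I : ℝ) ∧
      ∃ t ∈ I, α * algebraMap (𝓞 k) k t = c := by
  have hI0 : (I : FractionalIdeal (𝓞 k)⁰ k) ≠ 0 := FractionalIdeal.coeIdeal_ne_zero.mpr hI
  have hJ : FractionalIdeal.spanSingleton (𝓞 k)⁰ α * (I : FractionalIdeal (𝓞 k)⁰ k) ≤ 1 := by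
    rw [FractionalIdeal.spanSingleton_mul_le_iff]
    intro z hz
    obtain ⟨t, ht, rfl⟩ := (FractionalIdeal.mem_coeIdeal _).mp hz
    obtain ⟨s, hs⟩ := h t ht
    rw [← hs]
    exact (FractionalIdeal.mem_one_iff _).mpr ⟨s, rfl⟩
  obtain ⟨b, hb⟩ := FractionalIdeal.le_one_iff_exists_coeIdeal.mp hJ
  have hb0 : b ≠ ⊥ := by
    rintro rfl
    rw [FractionalIdeal.coeIdeal_bot] at hb
    exact mul_ne_zero (FractionalIdeal.spanSingleton_ne_zero_iff.mpr hα) hI0 hb.symm
  refine ⟨Ideal.absNorm b, ?_, ?_, ?_⟩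
  · rw [Nat.one_le_iff_ne_zero, Ne, Ideal.absNorm_eq_zero_iff]
    exact hb0
  · have h1 := congrArg FractionalIdeal.absNorm hb
    rw [FractionalIdeal.coeIdeal_absNorm, map_mul, FractionalIdeal.absNorm_span_singleton,
      FractionalIdeal.coeIdeal_absNorm] at h1
    rw [prod_eq_abs_norm]
    exact_mod_cast congrArg (fun x : ℚ => (x : ℝ)) h1
  · have h1 : algebraMap (𝓞 k) k (Ideal.absNorm b : 𝓞 k) ∈
        FractionalIdeal.spanSingleton (𝓞 k)⁰ α * (I : FractionalIdeal (𝓞 k)⁰ k) := by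
      rw [← hb]
      exact FractionalIdeal.mem_coeIdeal_of_mem _ (Ideal.absNorm_mem b)
    obtain ⟨z, hz, hz2⟩ := FractionalIdeal.mem_singleton_mul.mp h1
    obtain ⟨t, ht, rfl⟩ := (FractionalIdeal.mem_coeIdeal _).mp hz
    refine ⟨t, ht, ?_⟩
    rw [← hz2, map_natCast]

section

/-- the Mahler measure of `F (H X)` at the place `w` -/
private noncomputable def Mw (w : InfinitePlace k) (H : ℝ) (F : k[X]) : ℝ :=
  ((F.map w.embedding).comp (C (H : ℂ) * X)).mahlerMeasure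

variable (w : InfinitePlace k) (H : ℝ) (F G : k[X])

private theorem Mw_coeff (i : ℕ) : ((F.map w.embedding).comp (C (H : ℂ) * X)).coeff i =
    w.embedding (F.coeff i) * (H : ℂ) ^ i := by
  rw [comp_C_mul_X_coeff, coeff_map]

private theorem Mw_norm_coeff (hH : 0 ≤ H) (i : ℕ) :
    ‖((F.map w.embedding).comp (C (H : ℂ) * X)).coeff i‖ = w (F.coeff i) * H ^ i := by
  rw [Mw_coeff, norm_mul, InfinitePlace.norm_embedding_eq, norm_pow, Complex.norm_real,
    Real.norm_of_nonneg hH]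

private theorem Mw_natDegree_le :
    ((F.map w.embedding).comp (C (H : ℂ) * X)).natDegree ≤ F.natDegree := by
  rw [natDegree_le_iff_coeff_eq_zero]
  intro i hi
  rw [Mw_coeff, coeff_eq_zero_of_natDegree_lt hi, map_zero, zero_mul]

private theorem Mw_mul : Mw k w H (F * G) = Mw k w H F * Mw k w H G := by
  unfold Mw
  rw [Polynomial.map_mul, mul_comp, mahlerMeasure_mul]

private theorem Mw_C (a : k) : Mw k w H (C a) = w a := by
  unfold Mw
  rw [map_C, C_comp, mahlerMeasure_const, InfinitePlace.norm_embedding_eq]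

private theorem Mw_nonneg : 0 ≤ Mw k w H F := mahlerMeasure_nonneg _

private theorem Mw_coeff_le (hH : 0 ≤ H) (n : ℕ) (hn : F.natDegree ≤ n) (i : ℕ) :
    w (F.coeff i) * H ^ i ≤ 2 ^ n * Mw k w H F := by
  have h1 := norm_coeff_le_choose_mul_mahlerMeasure i ((F.map w.embedding).comp (C (H : ℂ) * X))
  rw [Mw_norm_coeff k w H F hH] at h1
  refine h1.trans (mul_le_mul_of_nonneg_right ?_ (mahlerMeasure_nonneg _))
  have h2 := (Mw_natDegree_le k w H F).trans hn
  have h3 := Nat.choose_le_two_pow ((F.map w.embedding).comp (C (H : ℂ) * X)).natDegree i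
  have h4 : (2 : ℕ) ^ ((F.map w.embedding).comp (C (H : ℂ) * X)).natDegree ≤ 2 ^ n :=
    Nat.pow_le_pow_right (by norm_num) h2
  exact_mod_cast h3.trans h4

private theorem Mw_lead (hH : 1 ≤ H) : w F.leadingCoeff ≤ Mw k w H F := by
  by_cases hF : F = 0
  · rw [hF, leadingCoeff_zero, map_zero]
    exact Mw_nonneg k w H 0
  have hH0 : (0 : ℝ) < H := by linarith
  have h1 := leadingCoeff_le_mahlerMeasure ((F.map w.embedding).comp (C (H : ℂ) * X))
  have h2 : ((F.map w.embedding).comp (C (H : ℂ) * X)).natDegree = F.natDegree := by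
    refine le_antisymm (Mw_natDegree_le k w H F) (le_natDegree_of_ne_zero ?_)
    rw [Mw_coeff]
    refine mul_ne_zero ?_ (pow_ne_zero _ ?_)
    · rw [Ne, map_eq_zero]
      exact leadingCoeff_ne_zero.mpr hF
    · exact_mod_cast hH0.ne'
  rw [leadingCoeff, h2, Mw_norm_coeff k w H F hH0.le] at h1
  refine le_trans ?_ h1
  exact le_mul_of_one_le_right (apply_nonneg _ _) (one_le_pow₀ hH)

private theorem Mw_pos (hH : 1 ≤ H) (hF : F ≠ 0) : 0 < Mw k w H F :=
  lt_of_lt_of_le ((AbsoluteValue.pos_iff w.1).mpr (leadingCoeff_ne_zero.mpr hF))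
    (Mw_lead k w H F hH)

private theorem Mw_le (hH : 0 ≤ H) (n : ℕ) (hn : F.natDegree < n) (T : ℝ)
    (hT : ∀ i < n, w (F.coeff i) * H ^ i ≤ T) : Mw k w H F ≤ n * T := by
  refine (mahlerMeasure_le_sum_norm_coeff _).trans ?_
  rw [Polynomial.sum_over_range' _ (fun n => norm_zero) n
    (lt_of_le_of_lt (Mw_natDegree_le k w H F) hn)]
  refine (Finset.sum_le_card_nsmul _ _ T fun i hi => ?_).trans ?_
  · rw [Mw_norm_coeff k w H F hH]
    exact hT i (Finset.mem_range.mp hi)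
  · simp

end

private theorem lift_coeff (F : k[X])
    (h : ∀ i, ∃ s : 𝓞 k, algebraMap (𝓞 k) k s = F.coeff i) : ∃ p : (𝓞 k)[X], FK p = F := by
  have h1 : F ∈ Polynomial.lifts (algebraMap (𝓞 k) k) := by
    rw [Polynomial.lifts_iff_coeff_lifts]
    intro i
    exact h i
  obtain ⟨p, hp⟩ := (Polynomial.mem_lifts F).1 h1
  exact ⟨p, hp⟩

private theorem norm_ge (I : Ideal (𝓞 k)) (a : 𝓞 k) (ha : a ∈ I) (ha0 : a ≠ 0) :
    (Ideal.absNorm I : ℝ) ≤
      ∏ w : InfinitePlace k, w (algebraMap (𝓞 k) k a) ^ InfinitePlace.mult w := by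
  have h0 : Ideal.absNorm I ≤ Ideal.absNorm (Ideal.span {a}) := by
    refine Nat.le_of_dvd ?_ (Ideal.absNorm_dvd_absNorm_of_le ?_)
    · refine Nat.pos_of_ne_zero fun h => ha0 ?_
      rw [Ideal.absNorm_eq_zero_iff, Ideal.span_singleton_eq_bot] at h
      exact h
    · rw [Ideal.span_singleton_le_iff_mem]
      exact ha
  rw [Ideal.absNorm_span_singleton] at h0
  have h1 : (Ideal.absNorm I : ℝ) ≤ ((Algebra.norm ℤ a).natAbs : ℝ) := by exact_mod_cast h0
  refine h1.trans (le_of_eq ?_)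
  rw [InfinitePlace.prod_eq_abs_norm]
  have h2 : Algebra.norm ℚ (algebraMap (𝓞 k) k a) = ((Algebra.norm ℤ a : ℤ) : ℚ) :=
    (Algebra.coe_norm_int a).symm
  rw [h2, Nat.cast_natAbs]
  simp

private theorem low_bound (x : InfinitePlace k → ℝ) (B Ck : ℝ) (hx : ∀ w, 0 ≤ x w)
    (hxB : ∀ w, x w ≤ B) (hB : 1 ≤ B) (hCk : 1 ≤ Ck)
    (h : B ^ Module.finrank ℚ k ≤ Ck * ∏ w, x w ^ InfinitePlace.mult w) (w0 : InfinitePlace k) :
    1 ≤ Ck * x w0 := by
  classical
  rw [← InfinitePlace.sum_mult_eq (K := k),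
    ← Finset.prod_pow_eq_pow_sum Finset.univ (fun w => InfinitePlace.mult w) B,
    ← Finset.mul_prod_erase _ _ (Finset.mem_univ w0),
    ← Finset.mul_prod_erase _ _ (Finset.mem_univ w0)] at h
  have hB0 : 0 < B := by linarith
  have hR : 0 < ∏ w ∈ Finset.univ.erase w0, B ^ InfinitePlace.mult w :=
    Finset.prod_pos fun w _ => pow_pos hB0 _
  have h1 : ∏ w ∈ Finset.univ.erase w0, x w ^ InfinitePlace.mult w ≤
      ∏ w ∈ Finset.univ.erase w0, B ^ InfinitePlace.mult w :=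
    Finset.prod_le_prod (fun w _ => pow_nonneg (hx w) _)
      (fun w _ => pow_le_pow_left₀ (hx w) (hxB w) _)
  have h2 : B ^ InfinitePlace.mult w0 * ∏ w ∈ Finset.univ.erase w0, B ^ InfinitePlace.mult w ≤
      (Ck * x w0 ^ InfinitePlace.mult w0) *
        ∏ w ∈ Finset.univ.erase w0, B ^ InfinitePlace.mult w := by
    refine h.trans ?_
    rw [mul_assoc]
    exact mul_le_mul_of_nonneg_left (mul_le_mul_of_nonneg_left h1 (pow_nonneg (hx w0) _))
      (by linarith)
  have h3 := le_of_mul_le_mul_right h2 hR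
  have h4 : 1 ≤ Ck * x w0 ^ InfinitePlace.mult w0 := (one_le_pow₀ hB).trans h3
  by_cases h5 : x w0 ≤ 1
  · refine h4.trans (mul_le_mul_of_nonneg_left ?_ (by linarith))
    exact pow_le_of_le_one (hx w0) h5 (InfinitePlace.mult_ne_zero)
  · push Not at h5
    nlinarith

/-! ## the theorem -/

theorem sq_decomp (n b : ℕ) (hn : 4 ≤ n) : ∃ (A : ℝ) (c0 : ℕ), 1 ≤ A ∧ ∀ h : ℕ, 1 ≤ h →
    ∀ g : (𝓞 k)[X], g ≠ 0 → InBox h b (n - 2) (2 * b) g → ∃ (c : ℕ) (p q : (𝓞 k)[X]),
      1 ≤ c ∧ c ≤ c0 ∧ C (c : 𝓞 k) * g = p ^ 2 * q ∧ p ≠ 0 ∧ q ≠ 0 ∧ Squarefree (FK q) ∧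
      2 * p.natDegree ≤ n - 2 ∧ q.natDegree ≤ n - 2 ∧
      (∀ (σ : k →+* ℂ) (i : ℕ), ‖σ (p.coeff i : k)‖ ^ 2 ≤ A * (h : ℝ) ^ (b * (n - 2 * i))) ∧
      (∀ (σ : k →+* ℂ) (i : ℕ), ‖σ (q.coeff i : k)‖ ≤ A * (h : ℝ) ^ (b * n)) := by
  classical
  obtain ⟨Ck, hCk, hmink⟩ := mink k
  have hn1 : (1 : ℝ) ≤ n := by exact_mod_cast (by omega : 1 ≤ n)
  refine ⟨4 ^ n * (Ck ^ 4 * n), ⌊Ck ^ 2⌋₊, ?_, ?_⟩
  · have h1 : (1 : ℝ) ≤ 4 ^ n := one_le_pow₀ (by norm_num)
    have h2 : (1 : ℝ) ≤ Ck ^ 4 := one_le_pow₀ hCk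
    exact one_le_mul_of_one_le_of_one_le h1 (one_le_mul_of_one_le_of_one_le h2 hn1)
  intro h hh g hg hbox
  obtain ⟨H, hH⟩ : ∃ H : ℝ, H = (h : ℝ) ^ b := ⟨_, rfl⟩
  have hH1 : 1 ≤ H := by
    rw [hH]
    exact one_le_pow₀ (by exact_mod_cast hh)
  have hH0 : 0 < H := by linarith
  have hinj : Function.Injective (algebraMap (𝓞 k) k) := FaithfulSMul.algebraMap_injective _ _
  have hFKinj : Function.Injective (FK (k := k)) := Polynomial.map_injective _ hinj
  have hFK0 : ∀ F : (𝓞 k)[X], F ≠ 0 → FK F ≠ 0 := by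
    intro F hF h0
    exact hF (hFKinj (by rw [h0, FK, Polynomial.map_zero]))
  have hFKd : ∀ F : (𝓞 k)[X], (FK F).natDegree = F.natDegree := fun F =>
    natDegree_map_eq_of_injective hinj F
  -- the decomposition over `k`
  obtain ⟨P1, Q1, hPQ1, hsq1, hP1⟩ := sqfree_part (FK g).natDegree (FK g) (hFK0 g hg) le_rfl
  obtain ⟨P0, hP0, Q, hPQ, hsq⟩ : ∃ P0 : (𝓞 k)[X], P0 ≠ 0 ∧ ∃ Q : k[X],
      FK P0 ^ 2 * Q = FK g ∧ Squarefree Q := by
    obtain ⟨d, hdm, hd⟩ := IsLocalization.integerNormalization_spec (nonZeroDivisors (𝓞 k)) P1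
    have hδ0 : algebraMap (𝓞 k) k d ≠ 0 := by
      rw [Ne, map_eq_zero_iff _ hinj]
      exact nonZeroDivisors.ne_zero hdm
    have hFP : FK (IsLocalization.integerNormalization (nonZeroDivisors (𝓞 k)) P1) =
        C (algebraMap (𝓞 k) k d) * P1 := by
      rw [FK, hd, ← IsScalarTower.algebraMap_smul k, smul_eq_C_mul]
    refine ⟨IsLocalization.integerNormalization (nonZeroDivisors (𝓞 k)) P1, ?_,
      C ((algebraMap (𝓞 k) k d)⁻¹ ^ 2) * Q1, ?_, ?_⟩
    · intro h0
      rw [h0, FK, Polynomial.map_zero, zero_eq_mul, C_eq_zero] at hFP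
      exact hFP.elim hδ0 hP1
    · rw [hFP, ← hPQ1, mul_pow, ← C_pow, mul_mul_mul_comm, ← C_mul, ← mul_pow,
        mul_inv_cancel₀ hδ0, one_pow, C_1, one_mul]
    · refine hsq1.squarefree_of_dvd ⟨C ((algebraMap (𝓞 k) k d) ^ 2), ?_⟩
      rw [mul_right_comm, ← C_mul, ← mul_pow, inv_mul_cancel₀ hδ0, one_pow, C_1, one_mul]
  have hQ0 : Q ≠ 0 := by
    rintro rfl
    rw [mul_zero] at hPQ
    exact hFK0 g hg hPQ.symm
  have hFP0 := hFK0 P0 hP0
  have hgint : ∀ i, ∃ s : 𝓞 k, algebraMap (𝓞 k) k s = (FK P0 ^ 2 * Q).coeff i := by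
    intro i
    rw [hPQ]
    exact ⟨g.coeff i, by rw [FK, coeff_map]⟩
  -- the content ideal
  obtain ⟨I, hI⟩ : ∃ I : Ideal (𝓞 k), I = Ideal.span (Set.range P0.coeff) := ⟨_, rfl⟩
  have hcI : ∀ i, P0.coeff i ∈ I := by
    intro i
    rw [hI]
    exact Ideal.subset_span ⟨i, rfl⟩
  have hlc0 : P0.leadingCoeff ≠ 0 := leadingCoeff_ne_zero.mpr hP0
  have hI0 : I ≠ ⊥ := by
    intro h0
    apply hlc0
    have h1 := hcI P0.natDegree
    rw [h0, Ideal.mem_bot] at h1
    exact h1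
  obtain ⟨N, hN⟩ : ∃ N : ℝ, N = (Ideal.absNorm I : ℝ) := ⟨_, rfl⟩
  have hN1 : 0 < N := by
    rw [hN]
    have : Ideal.absNorm I ≠ 0 := by
      rw [Ne, Ideal.absNorm_eq_zero_iff]
      exact hI0
    positivity
  have hM : ∀ w, 0 < Mw k w H (FK P0) := fun w => Mw_pos k w H _ hH1 hFP0
  obtain ⟨S, hS⟩ : ∃ S : ℝ, S = ∏ w : InfinitePlace k,
      Mw k w H (FK P0) ^ InfinitePlace.mult w := ⟨_, rfl⟩
  have hS0 : 0 < S := by
    rw [hS]
    exact Finset.prod_pos fun w _ => pow_pos (hM w) _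
  have hNS : N ≤ S := by
    rw [hN, hS]
    refine (norm_ge k I P0.leadingCoeff (hcI _) hlc0).trans ?_
    refine Finset.prod_le_prod (fun w _ => pow_nonneg (apply_nonneg _ _) _) fun w _ => ?_
    refine pow_le_pow_left₀ (apply_nonneg _ _) ?_ _
    have h1 := Mw_lead k w H (FK P0) hH1
    rwa [FK, leadingCoeff_map_of_injective hinj] at h1
  have hD : Module.finrank ℚ k ≠ 0 := Module.finrank_pos.ne'
  obtain ⟨B, hB0, hBD⟩ : ∃ B : ℝ, 0 < B ∧ B ^ Module.finrank ℚ k = Ck * S / N :=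
    ⟨(Ck * S / N) ^ ((Module.finrank ℚ k : ℝ)⁻¹), by positivity,
      Real.rpow_inv_natCast_pow (by positivity) hD⟩
  have hB1 : 1 ≤ B := by
    have h1 : 1 ≤ B ^ Module.finrank ℚ k := by
      rw [hBD, le_div_iff₀ hN1, one_mul]
      nlinarith
    exact (one_le_pow_iff_of_nonneg hB0.le hD).mp h1
  obtain ⟨α, hα0, hαI, hαw⟩ := hmink I hI0 (fun w => Mw k w H (FK P0)) hM B hB0 (by
    rw [← hS, ← hN, hBD, div_mul_cancel₀ _ hN1.ne'])
  obtain ⟨c1, hc1, hc1N, t, ht, hαt⟩ := nrm k α hα0 I hI0 hαI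
  have ht0 : algebraMap (𝓞 k) k t ≠ 0 := by
    intro h0
    rw [h0, mul_zero] at hαt
    have : c1 = 0 := by exact_mod_cast hαt.symm
    omega
  have htI : t ^ 2 ∈ I * I := by
    rw [sq]
    exact Ideal.mul_mem_mul ht ht
  -- `p` and `q`
  obtain ⟨p, hp⟩ := lift_coeff k (C α * FK P0) (fun i => by
    rw [coeff_C_mul, FK, coeff_map]
    exact hαI _ (hcI i))
  obtain ⟨q, hq⟩ := lift_coeff k (C (algebraMap (𝓞 k) k (t ^ 2)) * Q) (fun i => by
    rw [coeff_C_mul]
    exact gauss_int2 k P0 Q hgint i (t ^ 2) (by rw [← hI]; exact htI))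
  have heq : C ((c1 ^ 2 : ℕ) : 𝓞 k) * g = p ^ 2 * q := by
    apply hFKinj
    have h1 : FK (C ((c1 ^ 2 : ℕ) : 𝓞 k) * g) = C ((c1 : k) ^ 2) * FK g := by
      rw [FK, Polynomial.map_mul, map_C]
      congr 2
      simp
    have h2 : FK (p ^ 2 * q) = FK p ^ 2 * FK q := by
      rw [FK, Polynomial.map_mul, Polynomial.map_pow]
      rfl
    rw [h1, h2, hp, hq, ← hPQ, ← hαt]
    simp only [map_pow, map_mul]
    ring
  have hp0 : p ≠ 0 := by
    rintro rfl
    rw [FK, Polynomial.map_zero, zero_eq_mul, C_eq_zero] at hp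
    exact hp.elim hα0 hFP0
  have hq0 : q ≠ 0 := by
    rintro rfl
    rw [FK, Polynomial.map_zero, zero_eq_mul, C_eq_zero, map_pow] at hq
    exact hq.elim (pow_ne_zero 2 ht0) hQ0
  have hgd : g.natDegree ≤ n - 2 := hbox.1
  have hdeg : 2 * p.natDegree + q.natDegree = g.natDegree := by
    have h1 := congrArg Polynomial.natDegree heq
    rw [natDegree_mul (pow_ne_zero 2 hp0) hq0, natDegree_pow, natDegree_C_mul] at h1
    · omega
    · have : (c1 ^ 2 : ℕ) ≠ 0 := by positivity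
      exact_mod_cast this
  -- the sizes of `P`, `Q`, `g`
  have hMg : ∀ w : InfinitePlace k, Mw k w H (FK g) ≤ n * H ^ n := by
    intro w
    refine Mw_le k w H (FK g) hH0.le n (by rw [hFKd]; omega) _ fun i hi => ?_
    by_cases hi2 : i ≤ n - 2
    · have h1 := hbox.2 i hi2 w.embedding
      have h2 : w ((FK g).coeff i) ≤ H ^ (n - i) := by
        rw [FK, coeff_map, ← InfinitePlace.norm_embedding_eq, hH, ← pow_mul]
        refine h1.trans (le_of_eq ?_)
        congr 1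
        have h3 : n - i = 2 + (n - 2 - i) := by omega
        rw [h3]
        ring
      calc w ((FK g).coeff i) * H ^ i ≤ H ^ (n - i) * H ^ i :=
            mul_le_mul_of_nonneg_right h2 (by positivity)
        _ = H ^ n := by rw [← pow_add, Nat.sub_add_cancel hi.le]
    · have h1 : (FK g).coeff i = 0 := coeff_eq_zero_of_natDegree_lt (by rw [hFKd]; omega)
      rw [h1, map_zero, zero_mul]
      positivity
  have hMPQ : ∀ w : InfinitePlace k, Mw k w H (FK P0) ^ 2 * Mw k w H Q ≤ n * H ^ n := by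
    intro w
    have h1 := hMg w
    rwa [← hPQ, Mw_mul, sq, Mw_mul, ← sq] at h1
  obtain ⟨c2, hc2, hc2N, _⟩ := nrm k Q.leadingCoeff (leadingCoeff_ne_zero.mpr hQ0) (I * I)
    (mul_ne_zero hI0 hI0) (fun s hs => by
      rw [mul_comm]
      exact gauss_int2 k P0 Q hgint _ s (by rw [← hI]; exact hs))
  have hS2 : 1 ≤ (∏ w : InfinitePlace k, Mw k w H Q ^ InfinitePlace.mult w) * N ^ 2 := by
    have h1 : (1 : ℝ) ≤ c2 := by exact_mod_cast hc2
    refine h1.trans ?_
    rw [hc2N, map_mul, Nat.cast_mul, ← hN, ← sq]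
    refine mul_le_mul_of_nonneg_right ?_ (by positivity)
    refine Finset.prod_le_prod (fun w _ => pow_nonneg (apply_nonneg _ _) _) fun w _ => ?_
    exact pow_le_pow_left₀ (apply_nonneg _ _) (Mw_lead k w H Q hH1) _
  have hT0 : (0 : ℝ) < n * H ^ n := by positivity
  have hpr : S ^ 2 * ∏ w : InfinitePlace k, Mw k w H Q ^ InfinitePlace.mult w ≤
      (n * H ^ n) ^ Module.finrank ℚ k := by
    rw [hS, ← Finset.prod_pow, ← Finset.prod_mul_distrib, ← InfinitePlace.sum_mult_eq (K := k),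
      ← Finset.prod_pow_eq_pow_sum Finset.univ (fun w => InfinitePlace.mult w)]
    refine Finset.prod_le_prod (fun w _ => ?_) fun w _ => ?_
    · have := Mw_nonneg k w H Q
      have := hM w
      positivity
    · rw [pow_right_comm, ← mul_pow]
      refine pow_le_pow_left₀ ?_ (hMPQ w) _
      have := Mw_nonneg k w H Q
      have := hM w
      positivity
  have hB2 : B ^ 2 ≤ Ck ^ 2 * (n * H ^ n) := by
    have h1 : (B ^ 2) ^ Module.finrank ℚ k ≤ (Ck ^ 2 * (n * H ^ n)) ^ Module.finrank ℚ k := by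
      rw [← pow_mul, mul_comm 2, pow_mul, hBD, mul_pow]
      have h2 : (Ck * S / N) ^ 2 ≤ Ck ^ 2 * (n * H ^ n) ^ Module.finrank ℚ k := by
        rw [div_pow, div_le_iff₀ (by positivity), mul_pow, mul_assoc]
        refine mul_le_mul_of_nonneg_left ?_ (by positivity)
        calc S ^ 2 = S ^ 2 * 1 := (mul_one _).symm
          _ ≤ S ^ 2 * ((∏ w : InfinitePlace k, Mw k w H Q ^ InfinitePlace.mult w) * N ^ 2) :=
            mul_le_mul_of_nonneg_left hS2 (by positivity)
          _ = (S ^ 2 * ∏ w : InfinitePlace k, Mw k w H Q ^ InfinitePlace.mult w) * N ^ 2 := by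
            ring
          _ ≤ _ := mul_le_mul_of_nonneg_right hpr (by positivity)
      refine h2.trans (mul_le_mul_of_nonneg_right ?_ (by positivity))
      exact le_self_pow₀ (one_le_pow₀ hCk) hD
    exact (pow_le_pow_iff_left₀ (by positivity) (by positivity) hD).mp h1
  -- the number `c`
  have hprod : (∏ w : InfinitePlace k, (w α * Mw k w H (FK P0)) ^ InfinitePlace.mult w) =
      (∏ w : InfinitePlace k, w α ^ InfinitePlace.mult w) * S := by
    rw [hS, ← Finset.prod_mul_distrib]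
    exact Finset.prod_congr rfl fun w _ => mul_pow _ _ _
  rw [← hN] at hc1N
  have hc1C : (c1 : ℝ) ≤ Ck := by
    have h1 : (∏ w : InfinitePlace k, w α ^ InfinitePlace.mult w) * S ≤ Ck * S / N := by
      rw [← hprod, ← hBD, ← InfinitePlace.sum_mult_eq (K := k),
        ← Finset.prod_pow_eq_pow_sum Finset.univ (fun w => InfinitePlace.mult w)]
      refine Finset.prod_le_prod (fun w _ => ?_) fun w _ => ?_
      · exact pow_nonneg (mul_nonneg (apply_nonneg _ _) (hM w).le) _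
      · exact pow_le_pow_left₀ (mul_nonneg (apply_nonneg _ _) (hM w).le) (hαw w) _
    rw [le_div_iff₀ hN1] at h1
    rw [hc1N]
    refine le_of_mul_le_mul_right ?_ hS0
    calc _ = (∏ w : InfinitePlace k, w α ^ InfinitePlace.mult w) * S * N := by ring
      _ ≤ _ := h1
  have hMp : ∀ w : InfinitePlace k, Mw k w H (FK p) = w α * Mw k w H (FK P0) := by
    intro w
    rw [hp, Mw_mul, Mw_C]
  have hlow : ∀ w : InfinitePlace k, 1 ≤ Ck * Mw k w H (FK p) := by
    intro w
    rw [hMp]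
    refine low_bound k (fun w => w α * Mw k w H (FK P0)) B Ck
      (fun w => mul_nonneg (apply_nonneg _ _) (hM w).le) hαw hB1 hCk ?_ w
    rw [hprod, hBD, div_le_iff₀ hN1, mul_assoc, mul_right_comm, ← hc1N]
    refine mul_le_mul_of_nonneg_left ?_ (by linarith)
    refine le_mul_of_one_le_left hS0.le ?_
    exact_mod_cast hc1
  have hc1R : (1 : ℝ) ≤ c1 := by exact_mod_cast hc1
  have hMq : ∀ w : InfinitePlace k, Mw k w H (FK q) ≤ Ck ^ 4 * (n * H ^ n) := by
    intro w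
    have h1 : Mw k w H (FK p) ^ 2 * Mw k w H (FK q) = (c1 : ℝ) ^ 2 * Mw k w H (FK g) := by
      have h2 : FK p ^ 2 * FK q = C ((c1 : k) ^ 2) * FK g := by
        have h3 := congrArg (FK (k := k)) heq
        rw [FK, FK, Polynomial.map_mul, Polynomial.map_mul, Polynomial.map_pow, map_C] at h3
        rw [show FK p = p.map (algebraMap (𝓞 k) k) from rfl,
          show FK q = q.map (algebraMap (𝓞 k) k) from rfl, ← h3]
        simp [FK]
      have h3 := congrArg (Mw k w H) h2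
      rw [Mw_mul, Mw_mul, Mw_C, sq, Mw_mul, ← sq, map_pow] at h3
      rw [h3]
      congr 2
      rw [← InfinitePlace.norm_embedding_eq, map_natCast, Complex.norm_natCast]
    have h4 := hlow w
    have h5 : 0 ≤ Mw k w H (FK q) := Mw_nonneg k w H _
    have h6 : 0 ≤ Mw k w H (FK p) := Mw_nonneg k w H _
    have h7 : 1 ≤ (Ck * Mw k w H (FK p)) ^ 2 := one_le_pow₀ h4
    calc Mw k w H (FK q) = 1 * Mw k w H (FK q) := (one_mul _).symm
      _ ≤ (Ck * Mw k w H (FK p)) ^ 2 * Mw k w H (FK q) := mul_le_mul_of_nonneg_right h7 h5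
      _ = Ck ^ 2 * (Mw k w H (FK p) ^ 2 * Mw k w H (FK q)) := by ring
      _ = Ck ^ 2 * ((c1 : ℝ) ^ 2 * Mw k w H (FK g)) := by rw [h1]
      _ ≤ Ck ^ 2 * (Ck ^ 2 * (n * H ^ n)) := by
          refine mul_le_mul_of_nonneg_left ?_ (by positivity)
          exact mul_le_mul (pow_le_pow_left₀ (by positivity) hc1C 2) (hMg w)
            (Mw_nonneg k w H _) (by positivity)
      _ = _ := by ring
  refine ⟨c1 ^ 2, p, q, Nat.one_le_pow _ _ hc1, ?_, heq, hp0, hq0, ?_, by omega, by omega, ?_, ?_⟩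
  · refine Nat.le_floor ?_
    push_cast
    exact pow_le_pow_left₀ (by positivity) hc1C 2
  · rw [hq]
    refine hsq.squarefree_of_dvd ⟨C ((algebraMap (𝓞 k) k (t ^ 2))⁻¹), ?_⟩
    rw [mul_right_comm, ← C_mul, mul_inv_cancel₀ (by rw [map_pow]; exact pow_ne_zero 2 ht0), C_1,
      one_mul]
  · intro σ i
    by_cases hi : 2 * i ≤ n
    · have h1 := Mw_coeff_le k (InfinitePlace.mk σ) H (FK p) hH0.le n
        (by rw [hFKd]; omega) i
      have h2 : InfinitePlace.mk σ ((FK p).coeff i) = ‖σ (p.coeff i : k)‖ := by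
        rw [FK, coeff_map, InfinitePlace.apply]
      rw [h2] at h1
      have h3 : Mw k (InfinitePlace.mk σ) H (FK p) ≤ B := by
        rw [hMp]
        exact hαw _
      have h4 : ‖σ (p.coeff i : k)‖ * H ^ i ≤ 2 ^ n * B :=
        h1.trans (mul_le_mul_of_nonneg_left h3 (by positivity))
      have h5 : (‖σ (p.coeff i : k)‖ * H ^ i) ^ 2 ≤ (2 ^ n * B) ^ 2 :=
        pow_le_pow_left₀ (by positivity) h4 2
      have h6 : H ^ n = H ^ (n - 2 * i) * H ^ (2 * i) := by
        rw [← pow_add, Nat.sub_add_cancel hi]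
      rw [pow_mul, ← hH]
      refine le_of_mul_le_mul_right ?_ (by positivity : 0 < H ^ (2 * i))
      calc ‖σ (p.coeff i : k)‖ ^ 2 * H ^ (2 * i) = (‖σ (p.coeff i : k)‖ * H ^ i) ^ 2 := by
            rw [mul_pow, ← pow_mul, mul_comm i 2]
        _ ≤ (2 ^ n * B) ^ 2 := h5
        _ = 4 ^ n * B ^ 2 := by
            rw [mul_pow, ← pow_mul, mul_comm n 2, pow_mul]
            norm_num
        _ ≤ 4 ^ n * (Ck ^ 2 * (n * H ^ n)) := mul_le_mul_of_nonneg_left hB2 (by positivity)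
        _ ≤ 4 ^ n * (Ck ^ 4 * (n * H ^ n)) := by
            refine mul_le_mul_of_nonneg_left ?_ (by positivity)
            refine mul_le_mul_of_nonneg_right ?_ (by positivity)
            exact pow_le_pow_right₀ hCk (by norm_num)
        _ = 4 ^ n * (Ck ^ 4 * n) * H ^ (n - 2 * i) * H ^ (2 * i) := by
            rw [h6]
            ring
    · have h1 : p.coeff i = 0 := coeff_eq_zero_of_natDegree_lt (by omega)
      have h2 : σ (p.coeff i : k) = 0 := by
        rw [h1]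
        simp
      rw [h2, norm_zero, zero_pow two_ne_zero]
      positivity
  · intro σ i
    have h1 := Mw_coeff_le k (InfinitePlace.mk σ) H (FK q) hH0.le n
      (by rw [hFKd]; omega) i
    have h2 : InfinitePlace.mk σ ((FK q).coeff i) = ‖σ (q.coeff i : k)‖ := by
      rw [FK, coeff_map, InfinitePlace.apply]
    rw [h2] at h1
    rw [pow_mul, ← hH]
    calc ‖σ (q.coeff i : k)‖ ≤ ‖σ (q.coeff i : k)‖ * H ^ i :=
          le_mul_of_one_le_right (norm_nonneg _) (one_le_pow₀ hH1)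
      _ ≤ 2 ^ n * Mw k (InfinitePlace.mk σ) H (FK q) := h1
      _ ≤ 4 ^ n * (Ck ^ 4 * (n * H ^ n)) := by
          refine mul_le_mul ?_ (hMq _) (Mw_nonneg k _ H _) (by positivity)
          exact pow_le_pow_left₀ (by norm_num) (by norm_num) n
      _ = _ := by ring

end

end Pool.Agent.H96.T3
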