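import Pool.Agent.H96.T3.Defs
import Pool.Agent.H35.AN.Defs
import Pool.Agent.H67.MU.Bdd
import Pool.Agent.H96.T3.SqDec
import Pool.Agent.H96.T3.SmallP
import Pool.Agent.H96.T3.FewD

/-! # Project T3, row T3-7: the bad pairs `(l, x)` -/

set_option autoImplicit false

open Polynomial IsDedekindDomain NumberField Pool.Agent.H35.AN
open Pool.Agent.H67.MU (Bdd)
open Pool.Agent.H92.SQ2 (gg WW)
open Pool.Agent.H98.TQ

namespace Pool.Agent.H96.T3

section

variable {k : Type} [Field k] [NumberField k]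

/-- an integer in a prime ideal of prime norm is divisible by the norm -/
theorem t3_7_dvd {l : HeightOneSpectrum (𝓞 k)} (hl : (Ideal.absNorm l.asIdeal).Prime) {a : ℤ}
    (ha : (a : 𝓞 k) ∈ l.asIdeal) : ((Ideal.absNorm l.asIdeal : ℕ) : ℤ) ∣ a := by
  have h1 := Ideal.absNorm_dvd_norm_of_mem ha
  have h2 : Algebra.norm ℤ ((a : ℤ) : 𝓞 k) = a ^ (Module.finrank ℤ (𝓞 k)) := by
    have h3 := Algebra.norm_algebraMap (S := 𝓞 k) a
    simpa using h3
  rw [h2] at h1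
  exact Int.Prime.dvd_pow' hl h1

/-- the residues modulo `l` of the roots of a polynomial -/
theorem t3_7_roots {l : HeightOneSpectrum (𝓞 k)} (hl : (Ideal.absNorm l.asIdeal).Prime)
    {p : (𝓞 k)[X]} {i : ℕ} (hi : p.coeff i ∉ l.asIdeal) {F : ℕ → Prop} [DecidablePred F]
    (hF : ∀ x : ℕ, F x → p.eval (x : 𝓞 k) ∈ l.asIdeal) :
    ((Finset.range (Ideal.absNorm l.asIdeal)).filter F).card ≤ p.natDegree := by
  classical
  have hmax : l.asIdeal.IsMaximal := l.isMaximal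
  let _ := Ideal.Quotient.field l.asIdeal
  set G : (𝓞 k ⧸ l.asIdeal)[X] := p.map (Ideal.Quotient.mk l.asIdeal) with hG
  have hG0 : G ≠ 0 := by
    intro h0
    apply hi
    have h1 : G.coeff i = 0 := by rw [h0, coeff_zero]
    rw [hG, coeff_map] at h1
    exact Ideal.Quotient.eq_zero_iff_mem.mp h1
  have h1 : ((Finset.range (Ideal.absNorm l.asIdeal)).filter F).card ≤
      G.roots.toFinset.card := by
    refine Finset.card_le_card_of_injOn
      (fun x : ℕ => Ideal.Quotient.mk l.asIdeal (x : 𝓞 k)) ?_ ?_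
    · intro x hx
      rw [Finset.mem_coe, Finset.mem_filter] at hx
      rw [Finset.mem_coe, Multiset.mem_toFinset, mem_roots hG0, IsRoot.def, hG,
        eval_map_apply]
      exact Ideal.Quotient.eq_zero_iff_mem.mpr (hF x hx.2)
    · intro x hx y hy hxy
      rw [Finset.mem_coe, Finset.mem_filter, Finset.mem_range] at hx hy
      have h2 : ((x : 𝓞 k) - (y : 𝓞 k)) ∈ l.asIdeal := Ideal.Quotient.eq.mp hxy
      have h3 : (((x : ℤ) - (y : ℤ) : ℤ) : 𝓞 k) ∈ l.asIdeal := by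
        push_cast
        exact h2
      have h4 := t3_7_dvd hl h3
      have h5 : (x : ℤ) - (y : ℤ) = 0 := by
        apply Int.eq_zero_of_abs_lt_dvd h4
        rw [abs_lt]
        constructor <;> omega
      omega
  have h2 : G.roots.toFinset.card ≤ G.natDegree :=
    (Multiset.toFinset_card_le _).trans (card_roots' G)
  have h3 : G.natDegree ≤ p.natDegree := natDegree_map_le
  omega

/-- at most `h ^ v` primes -/
theorem t3_7_card {h v : ℕ} {T : Finset (HeightOneSpectrum (𝓞 k))} (hT : PS h v T) :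
    T.card ≤ h ^ v := by
  classical
  have h1 : T.card ≤ (Finset.Icc 1 (h ^ v)).card := by
    refine Finset.card_le_card_of_injOn (fun l => Ideal.absNorm l.asIdeal) ?_ ?_
    · intro l hl
      rw [Finset.mem_coe, Finset.mem_Icc]
      exact ⟨(hT.prime l hl).one_lt.le, hT.hi l hl⟩
    · intro l hl l' hl' hll
      exact hT.inj l hl l' hl' hll
  simpa using h1

/-- a small nonzero integer is in no prime of a set `PS h v T` -/
theorem t3_7_not_mem {n b v h : ℕ} (hv : Module.finrank ℚ k * (b * n) + 2 ≤ v) {A : ℝ}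
    (hA : 1 ≤ A) (hh : A ^ Module.finrank ℚ k < (h : ℝ)) {l : HeightOneSpectrum (𝓞 k)}
    (hlo : h ^ (v - 1) < Ideal.absNorm l.asIdeal) {a : 𝓞 k} (ha : a ≠ 0)
    (hs : ∀ σ : k →+* ℂ, ‖σ (a : k)‖ ^ 2 ≤ A * (h : ℝ) ^ (b * n)) : a ∉ l.asIdeal := by
  intro hal
  have hAd : 1 ≤ A ^ Module.finrank ℚ k := one_le_pow₀ hA
  have hh1 : (1 : ℝ) < h := lt_of_le_of_lt hAd hh
  have hU : Bdd (Real.sqrt (A * (h : ℝ) ^ (b * n))) a := by
    intro σ
    exact Real.le_sqrt_of_sq_le (hs σ)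
  have h1 := Pool.Agent.H67.MU.mu8_norm l.asIdeal a hal ha _ hU
  have h2 : ((Ideal.absNorm l.asIdeal : ℕ) : ℝ) ^ 2 ≤
      (A * (h : ℝ) ^ (b * n)) ^ Module.finrank ℚ k := by
    calc ((Ideal.absNorm l.asIdeal : ℕ) : ℝ) ^ 2
        ≤ (Real.sqrt (A * (h : ℝ) ^ (b * n)) ^ Module.finrank ℚ k) ^ 2 :=
          pow_le_pow_left₀ (Nat.cast_nonneg _) h1 2
      _ = (Real.sqrt (A * (h : ℝ) ^ (b * n)) ^ 2) ^ Module.finrank ℚ k := by
          rw [← pow_mul, ← pow_mul, mul_comm (Module.finrank ℚ k) 2]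
      _ = _ := by rw [Real.sq_sqrt (by positivity)]
  have h3 : ((h : ℝ) ^ (v - 1)) ^ 2 < ((Ideal.absNorm l.asIdeal : ℕ) : ℝ) ^ 2 := by
    apply pow_lt_pow_left₀ _ (by positivity) two_ne_zero
    exact_mod_cast hlo
  have h4 : (A * (h : ℝ) ^ (b * n)) ^ Module.finrank ℚ k ≤ ((h : ℝ) ^ (v - 1)) ^ 2 := by
    rw [mul_pow, ← pow_mul, ← pow_mul]
    calc A ^ Module.finrank ℚ k * (h : ℝ) ^ (b * n * Module.finrank ℚ k)
        ≤ (h : ℝ) ^ 1 * (h : ℝ) ^ (b * n * Module.finrank ℚ k) := by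
          rw [pow_one]
          gcongr
      _ = (h : ℝ) ^ (1 + b * n * Module.finrank ℚ k) := (pow_add _ _ _).symm
      _ ≤ (h : ℝ) ^ ((v - 1) * 2) := by
          apply pow_le_pow_right₀ hh1.le
          have : b * n * Module.finrank ℚ k = Module.finrank ℚ k * (b * n) := mul_comm _ _
          omega
  linarith

variable (k)

open scoped Classical in
theorem bad_l (n b v : ℕ) (hn : 4 ≤ n) (hb : 1 ≤ b)
    (hv : Module.finrank ℚ k * (b * n) + 2 ≤ v)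
    (hF : Module.finrank ℚ k * (b * ((n ^ 2 + 2 * n) / 4)) + 12 ≤ 2 * v) :
    ∃ K h0 : ℕ, ∀ h ≥ h0, ∀ T : Finset (HeightOneSpectrum (𝓞 k)), PS h v T →
      ∀ S : Finset (𝓞 k)[X], (∀ g ∈ S, g ≠ 0 ∧ InBox h b (n - 2) (2 * b) g) →
      (∑ l ∈ T, ((Finset.range (Ideal.absNorm l.asIdeal)).filter fun x : ℕ =>
        ∃ g ∈ S, D1 l.asIdeal (x : 𝓞 k) g).card) ≤ K * S.card + h ^ (2 * v - 5) := by
  obtain ⟨A, c0, hA, hdec⟩ := sq_decomp k n b hn
  obtain ⟨A', hA', hsm⟩ := small_p k n b hn A hA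
  obtain ⟨K, h1, hfew⟩ := few_dbl k n b v hv A
  set H0 : ℕ := max (max h1 (c0 + 1)) (max (⌈A ^ Module.finrank ℚ k⌉₊ + 1) (⌈(n : ℝ) ^ 2 * A'⌉₊ + 1))
    with hH0
  refine ⟨K, H0, fun h hh T hT S hS => ?_⟩
  have hh1 : h1 ≤ h := le_trans (le_trans (le_max_left _ _) (le_max_left _ _)) hh
  have hh2 : c0 + 1 ≤ h := le_trans (le_trans (le_max_right _ _) (le_max_left _ _)) hh
  have hh3 : A ^ Module.finrank ℚ k < (h : ℝ) := by
    have h3 : ⌈A ^ Module.finrank ℚ k⌉₊ + 1 ≤ h :=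
      le_trans (le_trans (le_max_left _ _) (le_max_right _ _)) hh
    have h4 : A ^ Module.finrank ℚ k ≤ (⌈A ^ Module.finrank ℚ k⌉₊ : ℝ) := Nat.le_ceil _
    have h5 : ((⌈A ^ Module.finrank ℚ k⌉₊ + 1 : ℕ) : ℝ) ≤ h := by exact_mod_cast h3
    push_cast at h5
    linarith
  have hh4 : (n : ℝ) ^ 2 * A' ≤ (h : ℝ) := by
    have h3 : ⌈(n : ℝ) ^ 2 * A'⌉₊ + 1 ≤ h :=
      le_trans (le_trans (le_max_right _ _) (le_max_right _ _)) hh
    have h4 : (n : ℝ) ^ 2 * A' ≤ (⌈(n : ℝ) ^ 2 * A'⌉₊ : ℝ) := Nat.le_ceil _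
    have h5 : ((⌈(n : ℝ) ^ 2 * A'⌉₊ + 1 : ℕ) : ℝ) ≤ h := by exact_mod_cast h3
    push_cast at h5
    linarith
  have hh0 : 1 ≤ h := by omega
  have hhR : (1 : ℝ) ≤ h := by exact_mod_cast hh0
  -- the decomposition of the members of `S`
  have hex : ∀ g : (𝓞 k)[X], ∃ pq : (𝓞 k)[X] × (𝓞 k)[X], g ∈ S → ∃ c : ℕ, 1 ≤ c ∧ c ≤ c0 ∧
      C (c : 𝓞 k) * g = pq.1 ^ 2 * pq.2 ∧ pq.1 ≠ 0 ∧ pq.2 ≠ 0 ∧ Squarefree (FK pq.2) ∧
      2 * pq.1.natDegree ≤ n - 2 ∧ pq.2.natDegree ≤ n - 2 ∧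
      (∀ (σ : k →+* ℂ) (i : ℕ),
        ‖σ (pq.1.coeff i : k)‖ ^ 2 ≤ A * (h : ℝ) ^ (b * (n - 2 * i))) ∧
      (∀ (σ : k →+* ℂ) (i : ℕ), ‖σ (pq.2.coeff i : k)‖ ≤ A * (h : ℝ) ^ (b * n)) := by
    intro g
    by_cases hg : g ∈ S
    · obtain ⟨c, p, q, hh⟩ := hdec h hh0 g (hS g hg).1 (hS g hg).2
      exact ⟨(p, q), fun _ => ⟨c, hh⟩⟩
    · exact ⟨0, fun h => absurd h hg⟩
  choose pq hpq using hex
  -- the set of the small `p`
  set P : Set (𝓞 k)[X] := {p : (𝓞 k)[X] | 2 * p.natDegree ≤ n - 2 ∧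
      ∀ (σ : k →+* ℂ) (i : ℕ), ‖σ (p.coeff i : k)‖ ^ 2 ≤ A * (h : ℝ) ^ (b * (n - 2 * i))}
    with hP
  obtain ⟨hPfin, hPcard⟩ := hsm h hh0
  set P' : Finset (𝓞 k)[X] := hPfin.toFinset.filter fun p => p ≠ 0 with hP'
  have hP'card : (P'.card : ℝ) ^ 2 ≤
      A' * (h : ℝ) ^ (Module.finrank ℚ k * (b * ((n ^ 2 + 2 * n) / 4))) := by
    refine le_trans ?_ hPcard
    have h2 : P'.card ≤ P.ncard := by
      rw [Set.ncard_eq_toFinset_card P hPfin]
      exact Finset.card_filter_le _ _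
    have h3 : (P'.card : ℝ) ≤ (P.ncard : ℝ) := by exact_mod_cast h2
    exact pow_le_pow_left₀ (Nat.cast_nonneg _) h3 2
  -- the inclusion
  have hsub : ∀ l ∈ T, ((Finset.range (Ideal.absNorm l.asIdeal)).filter fun x : ℕ =>
        ∃ g ∈ S, D1 l.asIdeal (x : 𝓞 k) g).card ≤
      (∑ g ∈ S, ((Finset.range (Ideal.absNorm l.asIdeal)).filter fun x : ℕ =>
        D1 l.asIdeal (x : 𝓞 k) (pq g).2).card) + P'.card * n := by
    intro l hl
    have hlp := hT.prime l hl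
    have hlI : l.asIdeal.IsPrime := l.isPrime
    have h2 : ((Finset.range (Ideal.absNorm l.asIdeal)).filter fun x : ℕ =>
        ∃ g ∈ S, D1 l.asIdeal (x : 𝓞 k) g) ⊆
        (S.biUnion fun g => (Finset.range (Ideal.absNorm l.asIdeal)).filter fun x : ℕ =>
          D1 l.asIdeal (x : 𝓞 k) (pq g).2) ∪
        (P'.biUnion fun p => (Finset.range (Ideal.absNorm l.asIdeal)).filter fun x : ℕ =>
          p.eval (x : 𝓞 k) ∈ l.asIdeal) := by
      intro x hx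
      rw [Finset.mem_filter] at hx
      obtain ⟨hxr, g, hg, hg1, hg2⟩ := hx
      obtain ⟨c, hc1, hc0, heq, hp0, hq0, hsf, hpd, hqd, hps, hqs⟩ := hpq g hg
      have e0 := congrArg (fun f : (𝓞 k)[X] => f.eval (x : 𝓞 k)) heq
      have e1 := congrArg (fun f : (𝓞 k)[X] => f.derivative.eval (x : 𝓞 k)) heq
      simp only [derivative_mul, derivative_C, derivative_pow, eval_mul, eval_add, eval_C,
        eval_pow, zero_mul, zero_add] at e0 e1
      rw [Finset.mem_union]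
      by_cases hpx : (pq g).1.eval (x : 𝓞 k) ∈ l.asIdeal
      · right
        rw [Finset.mem_biUnion]
        refine ⟨(pq g).1, ?_, Finset.mem_filter.2 ⟨hxr, hpx⟩⟩
        rw [hP', Finset.mem_filter, Set.Finite.mem_toFinset]
        exact ⟨⟨hpd, hps⟩, hp0⟩
      · left
        rw [Finset.mem_biUnion]
        refine ⟨g, hg, Finset.mem_filter.2 ⟨hxr, ?_⟩⟩
        have hsq : (pq g).1.eval (x : 𝓞 k) ^ 2 ∉ l.asIdeal := fun h3 =>
          hpx (hlI.mem_of_pow_mem 2 h3)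
        have hq1 : (pq g).2.eval (x : 𝓞 k) ∈ l.asIdeal := by
          have h3 : (pq g).1.eval (x : 𝓞 k) ^ 2 * (pq g).2.eval (x : 𝓞 k) ∈ l.asIdeal := by
            rw [← e0]
            exact l.asIdeal.mul_mem_left _ hg1
          exact (hlI.mem_or_mem h3).resolve_left hsq
        refine ⟨hq1, ?_⟩
        have h4 : (pq g).1.eval (x : 𝓞 k) ^ 2 * (pq g).2.derivative.eval (x : 𝓞 k) ∈
            l.asIdeal := by
          have h5 := l.asIdeal.mul_mem_left ((c : ℕ) : 𝓞 k) hg2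
          rw [e1] at h5
          have h6 := (Submodule.add_mem_iff_right l.asIdeal
            (l.asIdeal.mul_mem_left _ hq1)).1 h5
          exact h6
        exact (hlI.mem_or_mem h4).resolve_left hsq
    refine (Finset.card_le_card h2).trans ((Finset.card_union_le _ _).trans ?_)
    refine Nat.add_le_add Finset.card_biUnion_le ?_
    refine Finset.card_biUnion_le_card_mul _ _ _ fun p hp => ?_
    rw [hP', Finset.mem_filter, Set.Finite.mem_toFinset] at hp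
    obtain ⟨⟨hpd, hps⟩, hp0⟩ := hp
    obtain ⟨i, hi⟩ : ∃ i, p.coeff i ≠ 0 := by
      by_contra hcon
      push Not at hcon
      exact hp0 (Polynomial.ext fun i => by rw [hcon i, coeff_zero])
    have hni : p.coeff i ∉ l.asIdeal := by
      refine t3_7_not_mem hv hA hh3 (hT.lo l hl) hi fun σ => (hps σ i).trans ?_
      have h6 : b * (n - 2 * i) ≤ b * n := Nat.mul_le_mul_left _ (by omega)
      have h7 : (h : ℝ) ^ (b * (n - 2 * i)) ≤ (h : ℝ) ^ (b * n) := pow_le_pow_right₀ hhR h6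
      have hA0 : 0 ≤ A := by linarith
      exact mul_le_mul_of_nonneg_left h7 hA0
    have h5 := t3_7_roots hlp hni (F := fun x : ℕ => p.eval (x : 𝓞 k) ∈ l.asIdeal)
      fun x hx => hx
    omega
  -- the first sum
  have hfst : ∑ l ∈ T, ∑ g ∈ S, ((Finset.range (Ideal.absNorm l.asIdeal)).filter fun x : ℕ =>
        D1 l.asIdeal (x : 𝓞 k) (pq g).2).card ≤ K * S.card := by
    rw [Finset.sum_comm]
    rw [mul_comm, ← smul_eq_mul]
    refine Finset.sum_le_card_nsmul _ _ _ fun g hg => ?_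
    obtain ⟨c, hc1, hc0, heq, hp0, hq0, hsf, hpd, hqd, hps, hqs⟩ := hpq g hg
    exact hfew h hh1 T hT (pq g).2 hq0 hsf (by omega) hqs
  -- the second sum
  have hsnd : T.card * (P'.card * n) ≤ h ^ (2 * v - 5) := by
    have hTc := t3_7_card hT
    have h5 : ((T.card * (P'.card * n) : ℕ) : ℝ) ^ 2 ≤ ((h ^ (2 * v - 5) : ℕ) : ℝ) ^ 2 := by
      push_cast
      have hTR : (T.card : ℝ) ≤ (h : ℝ) ^ v := by exact_mod_cast hTc
      calc ((T.card : ℝ) * ((P'.card : ℝ) * n)) ^ 2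
          = (T.card : ℝ) ^ 2 * ((P'.card : ℝ) ^ 2 * (n : ℝ) ^ 2) := by ring
        _ ≤ ((h : ℝ) ^ v) ^ 2 * ((A' * (h : ℝ) ^ (Module.finrank ℚ k *
              (b * ((n ^ 2 + 2 * n) / 4)))) * (n : ℝ) ^ 2) := by gcongr
        _ ≤ ((h : ℝ) ^ v) ^ 2 * ((A' * (h : ℝ) ^ (2 * v - 12)) * (n : ℝ) ^ 2) := by
            have h6 : (h : ℝ) ^ (Module.finrank ℚ k * (b * ((n ^ 2 + 2 * n) / 4))) ≤
                (h : ℝ) ^ (2 * v - 12) := pow_le_pow_right₀ hhR (by omega)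
            gcongr
        _ = ((n : ℝ) ^ 2 * A') * (h : ℝ) ^ (v * 2 + (2 * v - 12)) := by
            rw [pow_add, pow_mul]
            ring
        _ ≤ (h : ℝ) * (h : ℝ) ^ (v * 2 + (2 * v - 12)) := by gcongr
        _ = (h : ℝ) ^ (v * 2 + (2 * v - 12) + 1) := by rw [pow_succ]; ring
        _ ≤ (h : ℝ) ^ ((2 * v - 5) * 2) := pow_le_pow_right₀ hhR (by omega)
        _ = ((h : ℝ) ^ (2 * v - 5)) ^ 2 := pow_mul _ _ _
    have h6 := pow_le_pow_iff_left₀ (Nat.cast_nonneg (α := ℝ) (T.card * (P'.card * n)))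
      (Nat.cast_nonneg (α := ℝ) (h ^ (2 * v - 5))) two_ne_zero
    exact_mod_cast h6.1 h5
  calc (∑ l ∈ T, ((Finset.range (Ideal.absNorm l.asIdeal)).filter fun x : ℕ =>
        ∃ g ∈ S, D1 l.asIdeal (x : 𝓞 k) g).card)
      ≤ ∑ l ∈ T, ((∑ g ∈ S, ((Finset.range (Ideal.absNorm l.asIdeal)).filter fun x : ℕ =>
        D1 l.asIdeal (x : 𝓞 k) (pq g).2).card) + P'.card * n) := Finset.sum_le_sum hsub
    _ = (∑ l ∈ T, ∑ g ∈ S, ((Finset.range (Ideal.absNorm l.asIdeal)).filter fun x : ℕ =>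
        D1 l.asIdeal (x : 𝓞 k) (pq g).2).card) + T.card * (P'.card * n) := by
        rw [Finset.sum_add_distrib, Finset.sum_const, smul_eq_mul]
    _ ≤ K * S.card + h ^ (2 * v - 5) := Nat.add_le_add hfst hsnd

end

end Pool.Agent.H96.T3
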