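import Pool.Agent.H96.T3.Defs
import Pool.Agent.H35.AN.Defs
import Pool.Agent.H35.AN.Box

/-! Project T3, row T3-9: every residue class (two primes, two residues) has its share of the
family, and half of the share has a value outside the square of the second prime. -/

set_option autoImplicit false

open Polynomial IsDedekindDomain NumberField Pool.Agent.H35.AN
open Pool.Agent.H67.MU (Bdd)
open Pool.Agent.H92.SQ2 (gg WW)
open Pool.Agent.H98.TQ

namespace Pool.Agent.H96.T3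

section

variable (k : Type) [Field k] [NumberField k]

/-- rounding: every element of `k` is an integer plus an element with bounded conjugates -/
private theorem t9_round : ∃ C : ℝ, 0 < C ∧ ∀ c : k, ∃ a : 𝓞 k,
    ∀ φ : k →+* ℂ, ‖φ (c - (a : k))‖ ≤ C := by
  classical
  set Bd : ℝ := ∑ ψ : k →+* ℂ, ∑ i : Idx k, ‖ψ ((RingOfIntegers.basis k i : 𝓞 k) : k)‖ with hBd
  have hBd0 : 0 ≤ Bd := Finset.sum_nonneg (fun ψ _ => Finset.sum_nonneg (fun i _ => norm_nonneg _))
  have hBφ : ∀ φ : k →+* ℂ, ∑ i : Idx k, ‖φ ((RingOfIntegers.basis k i : 𝓞 k) : k)‖ ≤ Bd :=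
    fun φ => an27_sum_le φ (fun ψ => ∑ i : Idx k, ‖ψ ((RingOfIntegers.basis k i : 𝓞 k) : k)‖)
      (fun ψ => Finset.sum_nonneg (fun i _ => norm_nonneg _))
  refine ⟨Bd + 1, by linarith, fun c => ?_⟩
  have hc : c = ∑ i : Idx k, ((integralBasis k).repr c i : k) *
      ((RingOfIntegers.basis k i : 𝓞 k) : k) := by
    conv_lhs => rw [← (integralBasis k).sum_repr c]
    refine Finset.sum_congr rfl fun i _ => ?_
    rw [integralBasis_apply, Algebra.smul_def]
    rfl
  refine ⟨∑ i : Idx k, (⌊(integralBasis k).repr c i⌋ : 𝓞 k) * RingOfIntegers.basis k i, ?_⟩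
  intro φ
  have h1 : c - ((∑ i : Idx k, (⌊(integralBasis k).repr c i⌋ : 𝓞 k) *
      RingOfIntegers.basis k i : 𝓞 k) : k) = ∑ i : Idx k,
        ((Int.fract ((integralBasis k).repr c i) : ℚ) : k) *
          ((RingOfIntegers.basis k i : 𝓞 k) : k) := by
    have h2 : ((∑ i : Idx k, (⌊(integralBasis k).repr c i⌋ : 𝓞 k) *
      RingOfIntegers.basis k i : 𝓞 k) : k) = ∑ i : Idx k,
        ((⌊(integralBasis k).repr c i⌋ : ℤ) : k) * ((RingOfIntegers.basis k i : 𝓞 k) : k) := by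
      show algebraMap (𝓞 k) k _ = _
      rw [map_sum]
      refine Finset.sum_congr rfl fun i _ => ?_
      rw [map_mul, map_intCast]
    rw [h2]
    nth_rewrite 1 [hc]
    rw [← Finset.sum_sub_distrib]
    refine Finset.sum_congr rfl fun i _ => ?_
    rw [← sub_mul, Int.fract]
    push_cast
    rfl
  rw [h1, map_sum]
  refine (norm_sum_le _ _).trans ?_
  refine le_trans ?_ (le_trans (hBφ φ) (by linarith))
  refine Finset.sum_le_sum fun i _ => ?_
  rw [map_mul, norm_mul, map_ratCast]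
  refine mul_le_of_le_one_left (norm_nonneg _) ?_
  rw [Complex.norm_ratCast, abs_of_nonneg (by exact_mod_cast Int.fract_nonneg _)]
  exact_mod_cast (Int.fract_lt_one _).le

/-- the integer with given coordinates -/
private noncomputable def t9_e (y : Idx k → ℕ) : 𝓞 k := boxElt k 1 0 0 y

private theorem t9_e_inj : Function.Injective (t9_e k) := boxElt_inj k one_pos 0 0

/-- the conjugates of an element with small coordinates -/
private theorem t9_e_bdd : ∃ D1 : ℕ, 0 < D1 ∧ ∀ (Z : ℕ) (y : Idx k → ℕ),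
    (∀ i, y i ≤ Z / D1) → Bdd ((Z : ℝ) / 2) (t9_e k y) := by
  classical
  set Bd : ℝ := ∑ ψ : k →+* ℂ, ∑ i : Idx k, ‖ψ ((RingOfIntegers.basis k i : 𝓞 k) : k)‖ with hBd
  have hBd0 : 0 ≤ Bd := Finset.sum_nonneg (fun ψ _ => Finset.sum_nonneg (fun i _ => norm_nonneg _))
  have hBφ : ∀ φ : k →+* ℂ, ∑ i : Idx k, ‖φ ((RingOfIntegers.basis k i : 𝓞 k) : k)‖ ≤ Bd :=
    fun φ => an27_sum_le φ (fun ψ => ∑ i : Idx k, ‖ψ ((RingOfIntegers.basis k i : 𝓞 k) : k)‖)
      (fun ψ => Finset.sum_nonneg (fun i _ => norm_nonneg _))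
  refine ⟨⌈2 * Bd⌉₊ + 1, Nat.succ_pos _, ?_⟩
  intro Z y hy φ
  set D1 : ℕ := ⌈2 * Bd⌉₊ + 1 with hD1
  have hD1B : 2 * Bd ≤ (D1 : ℝ) := by
    rw [hD1]
    push_cast
    linarith [Nat.le_ceil (2 * Bd)]
  have hD1pos : (0 : ℝ) < (D1 : ℝ) := by rw [hD1]; positivity
  have hyR : ∀ i, (y i : ℝ) ≤ (Z : ℝ) / (D1 : ℝ) := by
    intro i
    have h1 : ((y i : ℕ) : ℝ) ≤ ((Z / D1 : ℕ) : ℝ) := by exact_mod_cast hy i
    exact h1.trans Nat.cast_div_le
  have hval : φ ((t9_e k y : 𝓞 k) : k) =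
      ∑ i : Idx k, (y i : ℂ) * φ ((RingOfIntegers.basis k i : 𝓞 k) : k) := by
    unfold t9_e boxElt
    simp only [map_mul, map_natCast, map_sum, Nat.cast_zero, zero_add, Nat.cast_one,
      one_mul, add_zero]
  rw [hval]
  calc ‖∑ i : Idx k, (y i : ℂ) * φ ((RingOfIntegers.basis k i : 𝓞 k) : k)‖
      ≤ ∑ i : Idx k, ‖(y i : ℂ) * φ ((RingOfIntegers.basis k i : 𝓞 k) : k)‖ :=
        norm_sum_le _ _
    _ ≤ ∑ i : Idx k, ((Z : ℝ) / (D1 : ℝ)) *
          ‖φ ((RingOfIntegers.basis k i : 𝓞 k) : k)‖ := by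
        apply Finset.sum_le_sum
        intro i _
        rw [norm_mul, Complex.norm_natCast]
        exact mul_le_mul_of_nonneg_right (hyR i) (norm_nonneg _)
    _ = ((Z : ℝ) / (D1 : ℝ)) * ∑ i : Idx k,
          ‖φ ((RingOfIntegers.basis k i : 𝓞 k) : k)‖ := by rw [Finset.mul_sum]
    _ ≤ ((Z : ℝ) / (D1 : ℝ)) * Bd := mul_le_mul_of_nonneg_left (hBφ φ) (by positivity)
    _ ≤ (Z : ℝ) / 2 := by
        rw [div_mul_eq_mul_div, div_le_iff₀ hD1pos]
        have : (0 : ℝ) ≤ Z := Nat.cast_nonneg _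
        nlinarith

/-- representation of a polynomial by multiples of `N0 • y i` over the field -/
private theorem t9_repr {N : ℕ} (y : Fin (N + 1) → (𝓞 k)[X]) (hy : LinearIndependent (𝓞 k) y)
    (hd : ∀ i, (y i).natDegree ≤ N) (D : (𝓞 k)[X]) (N0 : ℕ) (hN0 : 0 < N0) :
    ∃ c : Fin (N + 1) → k, ∀ j ≤ N,
      ((D.coeff j : 𝓞 k) : k) = ∑ i, c i * (N0 * (((y i).coeff j : 𝓞 k) : k)) := by
  classical
  let v : Fin (N + 1) → (Fin (N + 1) → k) := fun i j => (((y i).coeff j : 𝓞 k) : k)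
  have hv : LinearIndependent (𝓞 k) v := by
    rw [Fintype.linearIndependent_iff] at hy ⊢
    intro g hg
    apply hy g
    ext j
    rw [Polynomial.finsetSum_coeff, Polynomial.coeff_zero]
    by_cases hj : j < N + 1
    · have h1 := congrFun hg ⟨j, hj⟩
      rw [Finset.sum_apply] at h1
      have h2 : ((∑ i, g i * (y i).coeff j : 𝓞 k) : k) = 0 := by
        show algebraMap (𝓞 k) k _ = _
        rw [map_sum, ← h1.trans (Pi.zero_apply _)]
        refine Finset.sum_congr rfl fun i _ => ?_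
        rw [map_mul, Pi.smul_apply, Algebra.smul_def]
      have h3 : (∑ i, g i * (y i).coeff j : 𝓞 k) = 0 :=
        RingOfIntegers.coe_eq_zero_iff.1 h2
      have h4 : ∑ i, (g i • y i).coeff j = ∑ i, g i * (y i).coeff j :=
        Finset.sum_congr rfl fun i _ => by rw [coeff_smul, smul_eq_mul]
      rw [h4, h3]
    · refine congrArg _ (Finset.sum_eq_zero fun i _ => ?_)
      rw [Polynomial.coeff_smul, Polynomial.coeff_eq_zero_of_natDegree_lt
        (lt_of_le_of_lt (hd i) (by omega)), smul_zero]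
  have hvQ : LinearIndependent k v := (LinearIndependent.iff_fractionRing (𝓞 k) k).1 hv
  have hspan : Submodule.span k (Set.range v) = ⊤ :=
    hvQ.span_eq_top_of_card_eq_finrank' (by simp)
  have hmem : (fun j : Fin (N + 1) => (((D.coeff j : 𝓞 k) : k) / N0)) ∈
      Submodule.span k (Set.range v) := by
    rw [hspan]; trivial
  rw [Submodule.mem_span_range_iff_exists_fun] at hmem
  obtain ⟨c, hc⟩ := hmem
  refine ⟨c, fun j hj => ?_⟩
  have h1 := congrFun hc ⟨j, Nat.lt_succ_of_le hj⟩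
  rw [Finset.sum_apply] at h1
  have hN : (N0 : k) ≠ 0 := Nat.cast_ne_zero.2 hN0.ne'
  have h2 : ((D.coeff j : 𝓞 k) : k) = N0 * (((D.coeff j : 𝓞 k) : k) / N0) := by field_simp
  rw [h2, ← h1, Finset.mul_sum]
  refine Finset.sum_congr rfl fun i _ => ?_
  simp only [v, Pi.smul_apply, smul_eq_mul]
  ring

/-- the sum of the exponents -/
private theorem t9_expsum (N : ℕ) :
    ∑ i : Fin (N + 1), (N + 2 - (i : ℕ)) = (N + 2) * (N + 3) / 2 - 1 := by
  rw [Fin.sum_univ_eq_sum_range (fun i => N + 2 - i)]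
  have h1 : ∑ i ∈ Finset.range (N + 1), (N + 2 - i) = ∑ i ∈ Finset.range (N + 1), (i + 2) := by
    rw [← Finset.sum_range_reflect]
    refine Finset.sum_congr rfl fun i hi => ?_
    rw [Finset.mem_range] at hi
    omega
  rw [h1]
  have h2 : ∀ N : ℕ, 2 * (∑ i ∈ Finset.range (N + 1), (i + 2) + 1) = (N + 2) * (N + 3) := by
    intro N
    induction N with
    | zero => simp
    | succ k ih =>
      rw [Finset.sum_range_succ]
      calc 2 * (∑ i ∈ Finset.range (k + 1), (i + 2) + (k + 1 + 2) + 1)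
          = 2 * (∑ i ∈ Finset.range (k + 1), (i + 2) + 1) + 2 * (k + 3) := by ring
        _ = _ := by rw [ih]; ring
  have h3 := h2 N
  omega

variable {k} in
/-- the polynomial with given lower coefficients -/
private noncomputable def t9_f {N : ℕ} (a : 𝓞 k) (u : Fin (N + 1) → 𝓞 k) : (𝓞 k)[X] :=
  X ^ (N + 2) + C a * X ^ (N + 1) + ∑ i : Fin (N + 1), C (u i) * X ^ (i : ℕ)

omit [NumberField k] in
variable {k} in
private theorem t9_f_coeff {N : ℕ} (a : 𝓞 k) (u : Fin (N + 1) → 𝓞 k) (j : ℕ) :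
    (t9_f a u).coeff j = (if j = N + 2 then 1 else 0) + (if j = N + 1 then a else 0) +
      (if hj : j < N + 1 then u ⟨j, hj⟩ else 0) := by
  classical
  unfold t9_f
  rw [coeff_add, coeff_add, coeff_X_pow, coeff_C_mul, coeff_X_pow, finsetSum_coeff]
  congr 1
  · congr 1
    split_ifs <;> simp
  · by_cases hj : j < N + 1
    · rw [dif_pos hj, Finset.sum_eq_single ⟨j, hj⟩]
      · rw [coeff_C_mul, coeff_X_pow, if_pos rfl, mul_one]
      · intro i _ hi
        rw [coeff_C_mul, coeff_X_pow, if_neg, mul_zero]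
        intro h
        exact hi (Fin.ext h.symm)
      · intro h
        exact absurd (Finset.mem_univ _) h
    · rw [dif_neg hj]
      refine Finset.sum_eq_zero fun i _ => ?_
      rw [coeff_C_mul, coeff_X_pow, if_neg, mul_zero]
      have := i.2
      omega

omit [NumberField k] in
variable {k} in
/-- a multiple of `N0` in a given class -/
private theorem t9_crt (Q : Ideal (𝓞 k)) (N0 : 𝓞 k) (hc : IsCoprime Q (Ideal.span {N0}))
    (E : 𝓞 k) : ∃ α : 𝓞 k, N0 ∣ α ∧ α - E ∈ Q := by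
  obtain ⟨i, hi, j, hj, hij⟩ := Ideal.isCoprime_iff_exists.1 hc
  rw [Ideal.mem_span_singleton] at hj
  refine ⟨E * j, hj.mul_left _, ?_⟩
  have h1 : E * j - E = -(E * i) := by linear_combination E * hij
  rw [h1]
  exact Q.neg_mem (Q.mul_mem_left _ hi)

omit [NumberField k] in
variable {k} in
/-- a multiple of `N0` in two given classes -/
private theorem t9_crt2 (I J : Ideal (𝓞 k)) (N0 : 𝓞 k) (hI : IsCoprime I (Ideal.span {N0}))
    (hJ : IsCoprime J (Ideal.span {N0})) (hIJ : IsCoprime I J) (E E' : 𝓞 k) :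
    ∃ α : 𝓞 k, N0 ∣ α ∧ α - E ∈ I ∧ α - E' ∈ J := by
  obtain ⟨i, hi, j, hj, hij⟩ := Ideal.isCoprime_iff_exists.1 hIJ
  obtain ⟨α, hα0, hα⟩ := t9_crt (I * J) N0 (hI.mul_left hJ) (E * j + E' * i)
  refine ⟨α, hα0, ?_, ?_⟩
  · have h1 : α - E = (α - (E * j + E' * i)) + (E' - E) * i := by linear_combination E * hij
    rw [h1]
    exact I.add_mem (Ideal.mul_le_left hα) (I.mul_mem_left _ hi)
  · have h1 : α - E' = (α - (E * j + E' * i)) + (E - E') * j := by
      linear_combination E' * hij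
    rw [h1]
    exact J.add_mem (Ideal.mul_le_right hα) (J.mul_mem_left _ hj)

private theorem t9_main (N N0 b : ℕ) (s : (𝓞 k)[X]) (hN0 : 0 < N0) (hs : s.Monic)
    (hsn : s.natDegree = N + 2) (hN : 2 ≤ N) (hb : 1 ≤ b) (D1' : ℕ) (hD1 : 0 < D1')
    (hDb : ∀ (Z : ℕ) (y : Idx k → ℕ), (∀ i, y i ≤ Z / D1') → Bdd ((Z : ℝ) / 4) (t9_e k y))
    (Cr : ℝ) (hCr0 : 0 < Cr) (hCr : ∀ c : k, ∃ a : 𝓞 k, ∀ φ : k →+* ℂ, ‖φ (c - (a : k))‖ ≤ Cr)
    (h : ℕ) (hh : 2 * Cr * N0 * (N + 1) ≤ (h : ℝ)) (hh4 : 4 * (N0 : ℝ) ≤ h)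
    (m l : HeightOneSpectrum (𝓞 k)) (x x' : 𝓞 k) (hml : m ≠ l)
    (hc : IsCoprime (m.asIdeal * l.asIdeal) (Ideal.span {(N0 : 𝓞 k)}))
    (y : Fin (N + 1) → (𝓞 k)[X]) (hy : LinearIndependent (𝓞 k) y)
    (hyb : ∀ i, InBox h b N (2 * b - 1) (y i) ∧ Dbl m.asIdeal x (y i) ∧
      D1 l.asIdeal x' (y i)) (i0 : Fin (N + 1)) (hi0 : (y i0).eval x' ∉ l.asIdeal ^ 2) :
    ∃ T : Finset (𝓞 k)[X], (∀ f ∈ T, Fam (N + 2) N0 s b h f ∧ Dbl m.asIdeal x f ∧
        D1 l.asIdeal x' f ∧ f.eval x' ∉ l.asIdeal ^ 2) ∧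
        h ^ (Module.finrank ℚ k * (b * ((N + 2) * (N + 3) / 2 - 1))) ≤
          D1' ^ (Module.finrank ℚ k * (N + 1)) *
            ((N0 ^ Module.finrank ℚ k) ^ (N + 1) * (Ideal.absNorm m.asIdeal ^ 2 *
              (Ideal.absNorm m.asIdeal * (Ideal.absNorm l.asIdeal *
                Ideal.absNorm l.asIdeal)))) * (2 * T.card) := by
  classical
  set d := Module.finrank ℚ k with hd
  set a := s.coeff (N + 1) with ha
  have hN0' : (N0 : 𝓞 k) ≠ 0 := Nat.cast_ne_zero.2 hN0.ne'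
  have hI0 : Ideal.span {(N0 : 𝓞 k)} ≠ ⊥ := by
    rw [Ne, Ideal.span_singleton_eq_bot]; exact hN0'
  have hm2 : m.asIdeal ^ 2 ≠ ⊥ := pow_ne_zero 2 m.ne_bot
  have hcm : IsCoprime m.asIdeal (Ideal.span {(N0 : 𝓞 k)}) := hc.of_mul_left_left
  have hcl : IsCoprime l.asIdeal (Ideal.span {(N0 : 𝓞 k)}) := hc.of_mul_left_right
  have hcml : IsCoprime m.asIdeal l.asIdeal := by
    rw [Ideal.isCoprime_iff_sup_eq]
    exact m.isMaximal.coprime_of_ne l.isMaximal (fun h1 => hml (HeightOneSpectrum.ext h1))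
  have : Finite (𝓞 k ⧸ Ideal.span {(N0 : 𝓞 k)}) := Ideal.finiteQuotientOfFreeOfNeBot _ hI0
  have : Finite (𝓞 k ⧸ m.asIdeal ^ 2) := Ideal.finiteQuotientOfFreeOfNeBot _ hm2
  have : Finite (𝓞 k ⧸ m.asIdeal) := Ideal.finiteQuotientOfFreeOfNeBot _ m.ne_bot
  have : Finite (𝓞 k ⧸ l.asIdeal) := Ideal.finiteQuotientOfFreeOfNeBot _ l.ne_bot
  have : Fintype (𝓞 k ⧸ Ideal.span {(N0 : 𝓞 k)}) := Fintype.ofFinite _
  have : Fintype (𝓞 k ⧸ m.asIdeal ^ 2) := Fintype.ofFinite _
  have : Fintype (𝓞 k ⧸ m.asIdeal) := Fintype.ofFinite _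
  have : Fintype (𝓞 k ⧸ l.asIdeal) := Fintype.ofFinite _
  -- the box
  set U : Finset (Fin (N + 1) → (Idx k → ℕ)) := Fintype.piFinset
    (fun i : Fin (N + 1) => box k (h ^ (b * (N + 2 - (i : ℕ))) / D1' + 1)) with hU
  have hUcard : h ^ (d * (b * ((N + 2) * (N + 3) / 2 - 1))) ≤ D1' ^ (d * (N + 1)) * U.card := by
    rw [hU, Fintype.card_piFinset]
    have h1 : D1' ^ (d * (N + 1)) = ∏ _i : Fin (N + 1), D1' ^ d := by simp [pow_mul]
    rw [h1, ← Finset.prod_mul_distrib, ← t9_expsum N, Finset.mul_sum, Finset.mul_sum,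
      ← Finset.prod_pow_eq_pow_sum]
    refine Finset.prod_le_prod' fun i _ => ?_
    rw [card_box, ← hd, ← mul_pow, mul_comm d, pow_mul]
    refine Nat.pow_le_pow_left ?_ _
    exact (Nat.lt_mul_div_succ _ hD1).le
  -- the key
  let fu : (Fin (N + 1) → (Idx k → ℕ)) → (𝓞 k)[X] := fun u => t9_f a (fun i => t9_e k (u i))
  have hfu : ∀ u j, (fu u).coeff j = (if j = N + 2 then 1 else 0) + (if j = N + 1 then a else 0) +
      (if hj : j < N + 1 then t9_e k (u ⟨j, hj⟩) else 0) := fun u j => t9_f_coeff _ _ _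
  let key : (Fin (N + 1) → (Idx k → ℕ)) → (Fin (N + 1) → 𝓞 k ⧸ Ideal.span {(N0 : 𝓞 k)}) ×
      (𝓞 k ⧸ m.asIdeal ^ 2) × (𝓞 k ⧸ m.asIdeal) × (𝓞 k ⧸ l.asIdeal) × (𝓞 k ⧸ l.asIdeal) :=
    fun u => (fun i => Ideal.Quotient.mk _ (t9_e k (u i)), Ideal.Quotient.mk _ ((fu u).eval x),
      Ideal.Quotient.mk _ ((fu u).derivative.eval x), Ideal.Quotient.mk _ ((fu u).eval x'),
      Ideal.Quotient.mk _ ((fu u).derivative.eval x'))
  have hcardI : ∀ I : Ideal (𝓞 k), ∀ _ : Fintype (𝓞 k ⧸ I),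
      Fintype.card (𝓞 k ⧸ I) = Ideal.absNorm I := by
    intro I _
    rw [Ideal.absNorm_apply, Submodule.cardQuot_apply, Nat.card_eq_fintype_card]
  have hcardkey : Fintype.card ((Fin (N + 1) → 𝓞 k ⧸ Ideal.span {(N0 : 𝓞 k)}) ×
      (𝓞 k ⧸ m.asIdeal ^ 2) × (𝓞 k ⧸ m.asIdeal) × (𝓞 k ⧸ l.asIdeal) × (𝓞 k ⧸ l.asIdeal)) =
      (N0 ^ d) ^ (N + 1) * (Ideal.absNorm m.asIdeal ^ 2 * (Ideal.absNorm m.asIdeal *
        (Ideal.absNorm l.asIdeal * Ideal.absNorm l.asIdeal))) := by
    rw [Fintype.card_prod, Fintype.card_prod, Fintype.card_prod, Fintype.card_prod,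
      Fintype.card_fun, hcardI, hcardI, hcardI, hcardI,
      Fintype.card_fin, map_pow, Ideal.absNorm_span_natCast, RingOfIntegers.rank]
  have hpig : ∃ κ ∈ (Finset.univ : Finset ((Fin (N + 1) → 𝓞 k ⧸ Ideal.span {(N0 : 𝓞 k)}) ×
      (𝓞 k ⧸ m.asIdeal ^ 2) × (𝓞 k ⧸ m.asIdeal) × (𝓞 k ⧸ l.asIdeal) × (𝓞 k ⧸ l.asIdeal))),
      U.card ≤ (N0 ^ d) ^ (N + 1) * (Ideal.absNorm m.asIdeal ^ 2 * (Ideal.absNorm m.asIdeal *
        (Ideal.absNorm l.asIdeal * Ideal.absNorm l.asIdeal))) *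
        (U.filter fun u => key u = κ).card := by
    refine Finset.exists_le_of_sum_le Finset.univ_nonempty ?_
    rw [← Finset.mul_sum, ← Finset.card_eq_sum_card_fiberwise (fun u _ => Finset.mem_univ _),
      Finset.sum_const, smul_eq_mul, Finset.card_univ, hcardkey]
  obtain ⟨κ, -, hk⟩ := hpig
  set K := U.filter fun u => key u = κ with hK
  have hUpos : 0 < U.card := by
    rw [hU, Fintype.card_piFinset]
    refine Finset.prod_pos fun i _ => ?_
    rw [card_box]
    positivity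
  have hKne : K.Nonempty := by
    rw [← Finset.card_pos]
    rcases Nat.eq_zero_or_pos K.card with h0 | h0
    · rw [h0, mul_zero] at hk
      omega
    · exact h0
  obtain ⟨u0, hu0⟩ := hKne
  -- the target
  obtain ⟨β, hβ0, hβ, hβ'⟩ := t9_crt2 m.asIdeal l.asIdeal _ hcm hcl hcml
    (-s.derivative.eval x) (-s.derivative.eval x')
  obtain ⟨α, hα0, hα, hα'⟩ := t9_crt2 (m.asIdeal ^ 2) l.asIdeal _ hcm.pow_left hcl hcml.pow_left
    (-s.eval x - β * x) (-s.eval x' - β * x')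
  set g0 : (𝓞 k)[X] := C α + C β * X with hg0
  have hg0e : ∀ z, g0.eval z = α + β * z := fun z => by simp [hg0]
  have hg0d : ∀ z, g0.derivative.eval z = β := fun z => by simp [hg0]
  have hg0c : ∀ j, (N0 : 𝓞 k) ∣ g0.coeff j := by
    intro j
    rw [hg0, coeff_add, coeff_C_mul, coeff_C]
    refine dvd_add ?_ (hβ0.mul_right _)
    split_ifs
    · exact hα0
    · exact dvd_zero _
  have hg0h : ∀ j, 1 < j → g0.coeff j = 0 := by
    intro j hj
    rw [hg0, coeff_add, coeff_C_mul, coeff_C, coeff_X, if_neg (by omega), if_neg (by omega)]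
    simp
  set D : (𝓞 k)[X] := s + g0 - fu u0 with hD
  have hDe : ∀ z, D.eval z = s.eval z + (α + β * z) - (fu u0).eval z := by
    intro z
    rw [hD, eval_sub, eval_add, hg0e]
  have hDd : ∀ z, D.derivative.eval z =
      s.derivative.eval z + β - (fu u0).derivative.eval z := by
    intro z
    rw [hD, derivative_sub, derivative_add, eval_sub, eval_add, hg0d]
  have hDc : ∀ j, D.coeff j = s.coeff j + g0.coeff j - (fu u0).coeff j := by
    intro j
    rw [hD, coeff_sub, coeff_add]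
  have hDh : ∀ j, N < j → D.coeff j = 0 := by
    intro j hj
    rw [hDc, hg0h j (by omega), hfu, dif_neg (by omega)]
    rcases lt_trichotomy j (N + 2) with hj2 | hj2 | hj2
    · have hj3 : j = N + 1 := by omega
      subst hj3
      rw [if_neg (by omega), if_pos rfl, ha]
      ring
    · subst hj2
      rw [if_pos rfl, if_neg (by omega)]
      have : s.coeff (N + 2) = 1 := by
        rw [← hsn]; exact hs
      rw [this]; ring
    · rw [if_neg (by omega), if_neg (by omega),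
        Polynomial.coeff_eq_zero_of_natDegree_lt (by omega)]
      ring
  obtain ⟨c, hcD⟩ := t9_repr k y hy (fun i => (hyb i).1.1) D N0 hN0
  choose fl hfl using hCr
  set t : (𝓞 k)[X] := D - ∑ i, C (fl (c i) * (N0 : 𝓞 k)) * y i with ht
  have htc : ∀ j ≤ N, ((t.coeff j : 𝓞 k) : k) =
      ∑ i, (c i - (fl (c i) : k)) * (N0 * (((y i).coeff j : 𝓞 k) : k)) := by
    intro j hj
    have h1 : ((t.coeff j : 𝓞 k) : k) = ((D.coeff j : 𝓞 k) : k) -
        ∑ i, ((fl (c i) : k) * N0) * (((y i).coeff j : 𝓞 k) : k) := by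
      show algebraMap (𝓞 k) k _ = _
      rw [ht, coeff_sub, finsetSum_coeff, map_sub, map_sum]
      congr 1
      refine Finset.sum_congr rfl fun i _ => ?_
      rw [coeff_C_mul, map_mul, map_mul, map_natCast]
    rw [h1, hcD j hj, ← Finset.sum_sub_distrib]
    refine Finset.sum_congr rfl fun i _ => ?_
    ring
  have hth : ∀ j, N < j → t.coeff j = 0 := by
    intro j hj
    rw [ht, coeff_sub, hDh j hj, finsetSum_coeff, Finset.sum_eq_zero, sub_zero]
    intro i _
    rw [coeff_C_mul, Polynomial.coeff_eq_zero_of_natDegree_lt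
      (lt_of_le_of_lt (hyb i).1.1 hj), mul_zero]
  have hpow : ∀ j ≤ N, b * (N + 2 - j) = (2 * b - 1 + b * (N - j)) + 1 := by
    intro j hj
    have : N + 2 - j = (N - j) + 2 := by omega
    rw [this, mul_add]
    omega
  have htb : ∀ j ≤ N, Bdd ((h : ℝ) ^ (b * (N + 2 - j)) / 2) (t.coeff j) := by
    intro j hj φ
    have h1 : ‖φ ((t.coeff j : 𝓞 k) : k)‖ ≤
        (N + 1) * (Cr * (N0 * (h : ℝ) ^ (2 * b - 1 + b * (N - j)))) := by
      rw [htc j hj, map_sum]
      refine (norm_sum_le _ _).trans ?_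
      have h2 : ∀ i ∈ (Finset.univ : Finset (Fin (N + 1))),
          ‖φ ((c i - (fl (c i) : k)) * (N0 * (((y i).coeff j : 𝓞 k) : k)))‖ ≤
            Cr * (N0 * (h : ℝ) ^ (2 * b - 1 + b * (N - j))) := by
        intro i _
        rw [map_mul, map_mul, norm_mul, norm_mul, map_natCast, Complex.norm_natCast]
        have h3 := (hyb i).1.2 j hj φ
        have h4 := hfl (c i) φ
        exact mul_le_mul h4 (mul_le_mul_of_nonneg_left h3 (Nat.cast_nonneg _)) (by positivity)
          hCr0.le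
      refine (Finset.sum_le_sum h2).trans ?_
      simp
    refine h1.trans ?_
    rw [hpow j hj, pow_succ]
    have h9 : (0 : ℝ) ≤ (h : ℝ) ^ (2 * b - 1 + b * (N - j)) := by positivity
    nlinarith [mul_le_mul_of_nonneg_left hh h9]
  have htI : ∀ (I : Ideal (𝓞 k)) (z : 𝓞 k), (∀ i, (y i).eval z ∈ I) →
      t.eval z - D.eval z ∈ I := by
    intro I z hI
    rw [ht, eval_sub, eval_finsetSum]
    have : ∑ i, (C (fl (c i) * (N0 : 𝓞 k)) * y i).eval z ∈ I := by
      refine Ideal.sum_mem _ fun i _ => ?_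
      rw [eval_mul]
      exact Ideal.mul_mem_left _ _ (hI i)
    have h2 : D.eval z - ∑ i, (C (fl (c i) * (N0 : 𝓞 k)) * y i).eval z - D.eval z =
      -∑ i, (C (fl (c i) * (N0 : 𝓞 k)) * y i).eval z := by ring
    rw [h2]
    exact neg_mem this
  have htI' : ∀ (I : Ideal (𝓞 k)) (z : 𝓞 k), (∀ i, (y i).derivative.eval z ∈ I) →
      t.derivative.eval z - D.derivative.eval z ∈ I := by
    intro I z hI
    rw [ht, derivative_sub, derivative_sum, eval_sub, eval_finsetSum]
    have : ∑ i, (derivative (C (fl (c i) * (N0 : 𝓞 k)) * y i)).eval z ∈ I := by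
      refine Ideal.sum_mem _ fun i _ => ?_
      rw [derivative_C_mul, eval_mul]
      exact Ideal.mul_mem_left _ _ (hI i)
    have h2 : D.derivative.eval z - ∑ i, (derivative (C (fl (c i) * (N0 : 𝓞 k)) * y i)).eval z -
      D.derivative.eval z = -∑ i, (derivative (C (fl (c i) * (N0 : 𝓞 k)) * y i)).eval z := by
        ring
    rw [h2]
    exact neg_mem this
  have htN : ∀ j, (N0 : 𝓞 k) ∣ t.coeff j - D.coeff j := by
    intro j
    rw [ht, coeff_sub, finsetSum_coeff]
    have : (N0 : 𝓞 k) ∣ ∑ i, (C (fl (c i) * (N0 : 𝓞 k)) * y i).coeff j := by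
      refine Finset.dvd_sum fun i _ => ?_
      rw [coeff_C_mul]
      exact (dvd_mul_left _ _).mul_right _
    have h2 : D.coeff j - ∑ i, (C (fl (c i) * (N0 : 𝓞 k)) * y i).coeff j - D.coeff j =
      -∑ i, (C (fl (c i) * (N0 : 𝓞 k)) * y i).coeff j := by ring
    rw [h2]
    exact (dvd_neg).2 this
  -- the members
  have hmem : ∀ u ∈ K, ∀ w : (𝓞 k)[X], (∀ j, N < j → w.coeff j = 0) →
      (∀ j ≤ N, Bdd ((h : ℝ) ^ (b * (N + 2 - j)) / 4) (w.coeff j)) →
      (∀ j, (N0 : 𝓞 k) ∣ w.coeff j) → Dbl m.asIdeal x w → D1 l.asIdeal x' w →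
      Fam (N + 2) N0 s b h (fu u + t + w) ∧ Dbl m.asIdeal x (fu u + t + w) ∧
        D1 l.asIdeal x' (fu u + t + w) := by
    intro u huK w hw1 hw2 hw3 hw4 hw5
    have huU : u ∈ U := (Finset.mem_filter.1 huK).1
    have hukey : key u = key u0 := by
      rw [(Finset.mem_filter.1 huK).2, (Finset.mem_filter.1 hu0).2]
    have hk1 : ∀ i, t9_e k (u i) - t9_e k (u0 i) ∈ Ideal.span {(N0 : 𝓞 k)} := fun i =>
      Ideal.Quotient.eq.1 (congrFun (congrArg Prod.fst hukey) i)
    have hk2 : (fu u).eval x - (fu u0).eval x ∈ m.asIdeal ^ 2 :=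
      Ideal.Quotient.eq.1 (congrArg (fun z => z.2.1) hukey)
    have hk3 : (fu u).derivative.eval x - (fu u0).derivative.eval x ∈ m.asIdeal :=
      Ideal.Quotient.eq.1 (congrArg (fun z => z.2.2.1) hukey)
    have hk4 : (fu u).eval x' - (fu u0).eval x' ∈ l.asIdeal :=
      Ideal.Quotient.eq.1 (congrArg (fun z => z.2.2.2.1) hukey)
    have hk5 : (fu u).derivative.eval x' - (fu u0).derivative.eval x' ∈ l.asIdeal :=
      Ideal.Quotient.eq.1 (congrArg (fun z => z.2.2.2.2) hukey)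
    have hcoef : ∀ j, (fu u + t + w).coeff j = (fu u).coeff j + t.coeff j + w.coeff j := by
      intro j
      rw [coeff_add, coeff_add]
    have htop : (fu u + t + w).coeff (N + 2) = 1 := by
      rw [hcoef, hth _ (by omega), hw1 _ (by omega), hfu]
      simp
    have hdeg : (fu u + t + w).natDegree = N + 2 := by
      refine le_antisymm ?_ ?_
      · rw [Polynomial.natDegree_le_iff_coeff_eq_zero]
        intro j hj
        rw [hcoef, hth _ (by omega), hw1 _ (by omega), hfu, dif_neg (by omega),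
          if_neg (by omega), if_neg (by omega)]
        simp
      · refine Polynomial.le_natDegree_of_ne_zero ?_
        rw [htop]; exact one_ne_zero
    refine ⟨⟨hdeg, ?_, ?_, ?_, ?_⟩, ⟨?_, ?_⟩, ⟨?_, ?_⟩⟩
    · rw [Monic, leadingCoeff, hdeg, htop]
    · show (fu u + t + w).coeff (N + 1) = s.coeff (N + 1)
      rw [hcoef, hth _ (by omega), hw1 _ (by omega), hfu]
      simp [ha]
    · intro i hi φ
      have hi' : i ≤ N := hi
      have h0 : (fu u + t + w).coeff i =
          t9_e k (u ⟨i, Nat.lt_succ_of_le hi'⟩) + t.coeff i + w.coeff i := by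
        rw [hcoef, hfu, dif_pos (Nat.lt_succ_of_le hi'), if_neg (by omega),
          if_neg (by omega), zero_add, zero_add]
      rw [h0]
      have h1 := htb i hi' φ
      have h1' := hw2 i hi' φ
      have h2 := hDb (h ^ (b * (N + 2 - i))) (u ⟨i, Nat.lt_succ_of_le hi'⟩) (by
        intro j
        have h3 := (Fintype.mem_piFinset.1 huU) ⟨i, Nat.lt_succ_of_le hi'⟩
        unfold box at h3
        rw [Fintype.mem_piFinset] at h3
        have h4 := Finset.mem_range.1 (h3 j)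
        exact Nat.lt_succ_iff.1 h4) φ
      have h5 : ((t9_e k (u ⟨i, Nat.lt_succ_of_le hi'⟩) + t.coeff i + w.coeff i : 𝓞 k) : k) =
          ((t9_e k (u ⟨i, Nat.lt_succ_of_le hi'⟩) : 𝓞 k) : k) + ((t.coeff i : 𝓞 k) : k) +
            ((w.coeff i : 𝓞 k) : k) := rfl
      rw [h5, map_add, map_add]
      refine (norm_add_le _ _).trans ?_
      have h6 := norm_add_le (φ ((t9_e k (u ⟨i, Nat.lt_succ_of_le hi'⟩) : 𝓞 k) : k))
        (φ ((t.coeff i : 𝓞 k) : k))
      push_cast at h2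
      linarith
    · intro j
      have h1 := htN j
      have h2 : (N0 : 𝓞 k) ∣ (fu u).coeff j - (fu u0).coeff j := by
        rw [hfu, hfu]
        by_cases hj : j < N + 1
        · rw [dif_pos hj, dif_pos hj]
          have h3 := Ideal.mem_span_singleton.1 (hk1 ⟨j, hj⟩)
          have h4 : ((if j = N + 2 then (1 : 𝓞 k) else 0) + (if j = N + 1 then a else 0) +
              t9_e k (u ⟨j, hj⟩)) - ((if j = N + 2 then (1 : 𝓞 k) else 0) +
              (if j = N + 1 then a else 0) + t9_e k (u0 ⟨j, hj⟩)) =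
              t9_e k (u ⟨j, hj⟩) - t9_e k (u0 ⟨j, hj⟩) := by ring
          rw [h4]
          exact h3
        · rw [dif_neg hj, dif_neg hj, sub_self]
          exact dvd_zero _
      have h3 := hg0c j
      have h4 : (fu u + t + w).coeff j - s.coeff j =
          ((fu u).coeff j - (fu u0).coeff j) + (t.coeff j - D.coeff j) +
            g0.coeff j + w.coeff j := by
        rw [hcoef, hDc]
        ring
      rw [h4]
      exact dvd_add (dvd_add (dvd_add h2 h1) h3) (hw3 j)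
    · have h4 : (fu u + t + w).eval x =
          ((fu u).eval x - (fu u0).eval x) + (t.eval x - D.eval x) +
            (α - (-s.eval x - β * x)) + w.eval x := by
        rw [eval_add, eval_add, hDe]
        ring
      rw [h4]
      exact add_mem (add_mem (add_mem hk2 (htI _ x fun i => (hyb i).2.1.1)) hα) hw4.1
    · have h4 : (fu u + t + w).derivative.eval x =
          ((fu u).derivative.eval x - (fu u0).derivative.eval x) +
            (t.derivative.eval x - D.derivative.eval x) + (β - (-s.derivative.eval x)) +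
            w.derivative.eval x := by
        rw [derivative_add, derivative_add, eval_add, eval_add, hDd]
        ring
      rw [h4]
      exact add_mem (add_mem (add_mem hk3 (htI' _ x fun i => (hyb i).2.1.2)) hβ) hw4.2
    · have h4 : (fu u + t + w).eval x' =
          ((fu u).eval x' - (fu u0).eval x') + (t.eval x' - D.eval x') +
            (α - (-s.eval x' - β * x')) + w.eval x' := by
        rw [eval_add, eval_add, hDe]
        ring
      rw [h4]
      exact add_mem (add_mem (add_mem hk4 (htI _ x' fun i => (hyb i).2.2.1)) hα') hw5.1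
    · have h4 : (fu u + t + w).derivative.eval x' =
          ((fu u).derivative.eval x' - (fu u0).derivative.eval x') +
            (t.derivative.eval x' - D.derivative.eval x') + (β - (-s.derivative.eval x')) +
            w.derivative.eval x' := by
        rw [derivative_add, derivative_add, eval_add, eval_add, hDd]
        ring
      rw [h4]
      exact add_mem (add_mem (add_mem hk5 (htI' _ x' fun i => (hyb i).2.2.2)) hβ') hw5.2
  have hinj : ∀ w : (𝓞 k)[X], Function.Injective (fun u => fu u + t + w) := by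
    intro w u1 u2 h12
    have h3 : fu u1 = fu u2 := add_right_cancel (add_right_cancel h12)
    funext i
    have h4 := congrArg (fun p : (𝓞 k)[X] => p.coeff (i : ℕ)) h3
    simp only [hfu, dif_pos i.2] at h4
    exact t9_e_inj k (add_left_cancel h4)
  -- the two halves
  have hfin : ∀ T : Finset (𝓞 k)[X], K.card ≤ 2 * T.card →
      h ^ (d * (b * ((N + 2) * (N + 3) / 2 - 1))) ≤
          D1' ^ (d * (N + 1)) *
            ((N0 ^ d) ^ (N + 1) * (Ideal.absNorm m.asIdeal ^ 2 *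
              (Ideal.absNorm m.asIdeal * (Ideal.absNorm l.asIdeal *
                Ideal.absNorm l.asIdeal)))) * (2 * T.card) := by
    intro T hT
    calc h ^ (d * (b * ((N + 2) * (N + 3) / 2 - 1))) ≤ D1' ^ (d * (N + 1)) * U.card := hUcard
      _ ≤ D1' ^ (d * (N + 1)) * ((N0 ^ d) ^ (N + 1) * (Ideal.absNorm m.asIdeal ^ 2 *
          (Ideal.absNorm m.asIdeal * (Ideal.absNorm l.asIdeal *
            Ideal.absNorm l.asIdeal))) * K.card) := Nat.mul_le_mul_left _ hk
      _ ≤ D1' ^ (d * (N + 1)) * ((N0 ^ d) ^ (N + 1) * (Ideal.absNorm m.asIdeal ^ 2 *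
          (Ideal.absNorm m.asIdeal * (Ideal.absNorm l.asIdeal *
            Ideal.absNorm l.asIdeal))) * (2 * T.card)) :=
          Nat.mul_le_mul_left _ (Nat.mul_le_mul_left _ hT)
      _ = _ := by ring
  have hsplit : (K.filter fun u => (fu u + t + 0).eval x' ∉ l.asIdeal ^ 2).card +
      (K.filter fun u => ¬ (fu u + t + 0).eval x' ∉ l.asIdeal ^ 2).card = K.card :=
    Finset.card_filter_add_card_filter_not _
  by_cases hhalf : K.card ≤ 2 * (K.filter fun u => (fu u + t + 0).eval x' ∉ l.asIdeal ^ 2).card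
  · refine ⟨(K.filter fun u => (fu u + t + 0).eval x' ∉ l.asIdeal ^ 2).image
      fun u => fu u + t + 0, ?_, ?_⟩
    · intro f hf
      obtain ⟨u, hu, rfl⟩ := Finset.mem_image.mp hf
      obtain ⟨huK, hul⟩ := Finset.mem_filter.mp hu
      obtain ⟨h1, h2, h3⟩ := hmem u huK 0 (fun j _ => coeff_zero j)
        (fun j _ φ => by
          rw [coeff_zero]
          show ‖φ ((0 : 𝓞 k) : k)‖ ≤ _
          have h0 : ((0 : 𝓞 k) : k) = 0 := rfl
          rw [h0, map_zero, norm_zero]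
          positivity)
        (fun j => by rw [coeff_zero]; exact dvd_zero _)
        ⟨by rw [eval_zero]; exact zero_mem _, by rw [derivative_zero, eval_zero]; exact zero_mem _⟩
        ⟨by rw [eval_zero]; exact zero_mem _, by rw [derivative_zero, eval_zero]; exact zero_mem _⟩
      exact ⟨h1, h2, h3, hul⟩
    · refine hfin _ ?_
      rw [Finset.card_image_of_injective _ (hinj 0)]
      exact hhalf
  · set w : (𝓞 k)[X] := C (N0 : 𝓞 k) * y i0 with hw
    refine ⟨(K.filter fun u => ¬ (fu u + t + 0).eval x' ∉ l.asIdeal ^ 2).image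
      fun u => fu u + t + w, ?_, ?_⟩
    · intro f hf
      obtain ⟨u, hu, rfl⟩ := Finset.mem_image.mp hf
      obtain ⟨huK, hul⟩ := Finset.mem_filter.mp hu
      rw [not_not, add_zero] at hul
      obtain ⟨h1, h2, h3⟩ := hmem u huK w
        (fun j hj => by
          rw [hw, coeff_C_mul, Polynomial.coeff_eq_zero_of_natDegree_lt
            (lt_of_le_of_lt (hyb i0).1.1 hj), mul_zero])
        (fun j hj φ => by
          rw [hw, coeff_C_mul]
          have h4 := (hyb i0).1.2 j hj φ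
          have h5 : (((N0 : 𝓞 k) * (y i0).coeff j : 𝓞 k) : k) =
              (N0 : k) * (((y i0).coeff j : 𝓞 k) : k) := by
            show algebraMap (𝓞 k) k _ = _
            rw [map_mul, map_natCast]
          rw [h5, map_mul, norm_mul, map_natCast, Complex.norm_natCast, hpow j hj, pow_succ]
          have h9 : (0 : ℝ) ≤ (h : ℝ) ^ (2 * b - 1 + b * (N - j)) := by positivity
          have h10 : (N0 : ℝ) * ‖φ (((y i0).coeff j : 𝓞 k) : k)‖ ≤
              N0 * (h : ℝ) ^ (2 * b - 1 + b * (N - j)) :=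
            mul_le_mul_of_nonneg_left h4 (Nat.cast_nonneg _)
          nlinarith [mul_le_mul_of_nonneg_left hh4 h9])
        (fun j => by
          rw [hw, coeff_C_mul]
          exact dvd_mul_right _ _)
        ⟨by
          rw [hw, eval_mul]
          exact Ideal.mul_mem_left _ _ (hyb i0).2.1.1, by
          rw [hw, derivative_C_mul, eval_mul]
          exact Ideal.mul_mem_left _ _ (hyb i0).2.1.2⟩
        ⟨by
          rw [hw, eval_mul]
          exact Ideal.mul_mem_left _ _ (hyb i0).2.2.1, by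
          rw [hw, derivative_C_mul, eval_mul]
          exact Ideal.mul_mem_left _ _ (hyb i0).2.2.2⟩
      refine ⟨h1, h2, h3, ?_⟩
      intro hcon
      rw [eval_add] at hcon
      have h4 : w.eval x' ∈ l.asIdeal ^ 2 := by
        have h5 := sub_mem hcon hul
        rwa [add_sub_cancel_left] at h5
      rw [hw, eval_mul, eval_C] at h4
      apply hi0
      obtain ⟨i, hi, j, hj, hij⟩ := Ideal.isCoprime_iff_exists.1 (hcl.pow_left (m := 2))
      obtain ⟨r, rfl⟩ := Ideal.mem_span_singleton.1 hj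
      have h6 : (y i0).eval x' = i * (y i0).eval x' + r * ((N0 : 𝓞 k) * (y i0).eval x') := by
        linear_combination (-(y i0).eval x') * hij
      rw [h6]
      exact add_mem (Ideal.mul_mem_right _ _ hi) (Ideal.mul_mem_left _ _ h4)
    · refine hfin _ ?_
      rw [Finset.card_image_of_injective _ (hinj w)]
      omega

theorem class_count2 (n N0 b : ℕ) (s : (𝓞 k)[X]) (hn : 4 ≤ n) (hN0 : 0 < N0) (hs : s.Monic)
    (hsn : s.natDegree = n) (hb : 1 ≤ b) : ∃ c : ℝ, 0 < c ∧ ∃ h0 : ℕ, ∀ h ≥ h0,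
    ∀ (m l : HeightOneSpectrum (𝓞 k)) (x x' : 𝓞 k), m ≠ l →
    IsCoprime (m.asIdeal * l.asIdeal) (Ideal.span {(N0 : 𝓞 k)}) →
    ∀ y : Fin (n - 1) → (𝓞 k)[X], LinearIndependent (𝓞 k) y →
      (∀ i, InBox h b (n - 2) (2 * b - 1) (y i) ∧ Dbl m.asIdeal x (y i) ∧
        D1 l.asIdeal x' (y i)) →
      (∃ i, (y i).eval x' ∉ l.asIdeal ^ 2) →
      ∃ T : Finset (𝓞 k)[X], (∀ f ∈ T, Fam n N0 s b h f ∧ Dbl m.asIdeal x f ∧
          D1 l.asIdeal x' f ∧ f.eval x' ∉ l.asIdeal ^ 2) ∧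
        c * (h : ℝ) ^ (Module.finrank ℚ k * (b * (n * (n + 1) / 2 - 1))) ≤
          (Ideal.absNorm m.asIdeal : ℝ) ^ 3 * (Ideal.absNorm l.asIdeal : ℝ) ^ 2 * T.card := by
  obtain ⟨N, rfl⟩ : ∃ N, n = N + 2 := ⟨n - 2, by omega⟩
  obtain ⟨D0, hD0, hDb0⟩ := t9_e_bdd k
  obtain ⟨Cr, hCr0, hCr⟩ := t9_round k
  set d := Module.finrank ℚ k with hd
  have hDb : ∀ (Z : ℕ) (y : Idx k → ℕ), (∀ i, y i ≤ Z / (2 * D0)) →
      Bdd ((Z : ℝ) / 4) (t9_e k y) := by
    intro Z y hy φ
    have h1 := hDb0 (Z / 2) y (fun i => by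
      rw [Nat.div_div_eq_div_mul]
      exact hy i) φ
    have h2 : ((Z / 2 : ℕ) : ℝ) ≤ (Z : ℝ) / 2 := Nat.cast_div_le
    linarith
  have h2 : (0 : ℝ) < ((2 * D0 : ℕ) : ℝ) ^ (d * (N + 1)) * ((N0 : ℝ) ^ d) ^ (N + 1) * 2 := by
    have h3 : (0 : ℝ) < ((2 * D0 : ℕ) : ℝ) := by
      have : 0 < 2 * D0 := by omega
      exact_mod_cast this
    have h4 : (0 : ℝ) < N0 := by exact_mod_cast hN0
    positivity
  refine ⟨1 / (((2 * D0 : ℕ) : ℝ) ^ (d * (N + 1)) * ((N0 : ℝ) ^ d) ^ (N + 1) * 2),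
    by positivity, ⌈2 * Cr * N0 * (N + 1)⌉₊ + 4 * N0, ?_⟩
  intro h hh m l x x' hml hc y hy hyb hi
  obtain ⟨i0, hi0⟩ := hi
  have hh' : 2 * Cr * N0 * (N + 1) ≤ (h : ℝ) :=
    (Nat.le_ceil _).trans (by exact_mod_cast (le_trans (Nat.le_add_right _ _) hh))
  have hh4 : 4 * (N0 : ℝ) ≤ h := by
    exact_mod_cast (le_trans (Nat.le_add_left _ _) hh)
  obtain ⟨T, hT, hcard⟩ := t9_main k N N0 b s hN0 hs hsn (by omega) hb (2 * D0) (by omega) hDb
    Cr hCr0 hCr h hh' hh4 m l x x' hml hc y hy hyb i0 hi0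
  refine ⟨T, hT, ?_⟩
  have h1 : ((h : ℝ) ^ (d * (b * ((N + 2) * (N + 3) / 2 - 1)))) ≤
      ((2 * D0 : ℕ) : ℝ) ^ (d * (N + 1)) * (((N0 : ℝ) ^ d) ^ (N + 1) *
        ((Ideal.absNorm m.asIdeal : ℝ) ^ 2 * ((Ideal.absNorm m.asIdeal : ℝ) *
          ((Ideal.absNorm l.asIdeal : ℝ) * Ideal.absNorm l.asIdeal)))) * (2 * T.card) := by
    exact_mod_cast hcard
  show 1 / (((2 * D0 : ℕ) : ℝ) ^ (d * (N + 1)) * ((N0 : ℝ) ^ d) ^ (N + 1) * 2) *
    (h : ℝ) ^ (d * (b * ((N + 2) * (N + 3) / 2 - 1))) ≤ _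
  rw [div_mul_eq_mul_div, one_mul, div_le_iff₀ h2]
  refine h1.trans (le_of_eq ?_)
  ring

end

end Pool.Agent.H96.T3
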