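import Pool.Agent.H96.T3.Defs
import Pool.Agent.H35.AN.Defs

/-! # Project T3 (MP_a3214d), row T3-2: extension of an independent family to higher degrees -/

set_option autoImplicit false

open Polynomial IsDedekindDomain NumberField Pool.Agent.H35.AN
open Pool.Agent.H67.MU (Bdd)
open Pool.Agent.H92.SQ2 (gg WW)
open Pool.Agent.H98.TQ

namespace Pool.Agent.H96.T3

section

variable (k : Type) [Field k] [NumberField k]

/-- an independent family of `d + 1` polynomials of degree at most `d` contains one of degree
`d` -/
theorem t32_top {R : Type} [CommRing R] [IsDomain R] {d : ℕ} (w : Fin (d + 1) → R[X])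
    (hw : LinearIndependent R w) (hd : ∀ i, (w i).natDegree ≤ d) : ∃ i, (w i).natDegree = d := by
  by_contra hcon
  push Not at hcon
  have hmem : ∀ i, w i ∈ degreeLT R d := fun i => by
    rw [mem_degreeLT]
    have : (w i).natDegree < d := lt_of_le_of_ne (hd i) (hcon i)
    exact degree_le_natDegree.trans_lt (by exact_mod_cast this)
  let w' : Fin (d + 1) → degreeLT R d := fun i => ⟨w i, hmem i⟩
  have h1 : LinearIndependent R w' := by
    apply LinearIndependent.of_comp (degreeLT R d).subtype
    exact hw
  have h2 := h1.map' (degreeLTEquiv R d).toLinearMap (LinearEquiv.ker _)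
  have h3 := h2.fintype_card_le_finrank
  simp at h3

theorem t32_bdd_mono {h : ℕ} (hh : 1 ≤ h) {a b : ℕ} (hab : a ≤ b) {z : 𝓞 k}
    (hz : Bdd ((h : ℝ) ^ a) z) : Bdd ((h : ℝ) ^ b) z := by
  intro σ
  exact (hz σ).trans (pow_le_pow_right₀ (by exact_mod_cast hh) hab)

theorem extend_rank (h b d0 d R : ℕ) (hh : 1 ≤ h) (hd : d0 ≤ d) (q : Ideal (𝓞 k)) (x : 𝓞 k)
    (v : Fin (d0 + 1) → (𝓞 k)[X]) (hv : LinearIndependent (𝓞 k) v)
    (hb : ∀ i, InBox h b d0 R (v i) ∧ (v i).eval x ∈ q) :
    ∃ w : Fin (d + 1) → (𝓞 k)[X], LinearIndependent (𝓞 k) w ∧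
      ∀ i, InBox h b d R (w i) ∧ (w i).eval x ∈ q := by
  induction d, hd using Nat.le_induction with
  | base => exact ⟨v, hv, hb⟩
  | succ d hd ih =>
    obtain ⟨w, hw, hwb⟩ := ih
    obtain ⟨t, ht⟩ := t32_top w hw fun i => (hwb i).1.1
    have hc0 : ∀ g : (𝓞 k)[X], g.natDegree ≤ d → g.coeff (d + 1) = 0 := fun g hg =>
      coeff_eq_zero_of_natDegree_lt (by omega)
    have hzero : ∀ m : ℕ, Bdd ((h : ℝ) ^ m) (0 : 𝓞 k) := by
      intro m σ
      simp
    refine ⟨Fin.cons (X * w t) w, ?_, ?_⟩
    · apply LinearIndependent.finCons' (X * w t) w hw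
      intro c y hys hy
      have hdeg : ∀ y ∈ Submodule.span (𝓞 k) (Set.range w), y.natDegree ≤ d := by
        intro y hy
        have hle : Submodule.span (𝓞 k) (Set.range w) ≤ degreeLT (𝓞 k) (d + 1) := by
          rw [Submodule.span_le]
          rintro _ ⟨i, rfl⟩
          simp only [SetLike.mem_coe, mem_degreeLT]
          have := (hwb i).1.1
          exact degree_le_natDegree.trans_lt (by exact_mod_cast Nat.lt_succ_of_le this)
        have := hle hy
        rw [mem_degreeLT] at this
        by_cases h0 : y = 0
        · simp [h0]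
        · rw [degree_eq_natDegree h0] at this
          have : y.natDegree < d + 1 := by exact_mod_cast this
          omega
      have h1 : (c • (X * w t) + y).coeff (d + 1) = 0 := by rw [hy]; simp
      rw [coeff_add, hc0 _ (hdeg _ hys), coeff_smul, coeff_X_mul, add_zero, smul_eq_mul] at h1
      rcases mul_eq_zero.1 h1 with h2 | h2
      · exact h2
      · exfalso
        have h3 : w t = 0 := by
          rw [← leadingCoeff_eq_zero, leadingCoeff, ht]
          exact h2
        exact hw.ne_zero t h3
    · intro i
      refine Fin.cases ?_ (fun i => ?_) i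
      · rw [Fin.cons_zero]
        refine ⟨⟨?_, ?_⟩, ?_⟩
        · refine natDegree_mul_le.trans ?_
          have := natDegree_X_le (R := 𝓞 k)
          omega
        · intro j hj
          rcases j with _ | j
          · rw [coeff_X_mul_zero]
            exact hzero _
          · rw [coeff_X_mul]
            have := (hwb t).1.2 j (by omega)
            have e : d + 1 - (j + 1) = d - j := by omega
            rw [e]
            exact this
        · rw [eval_mul, eval_X]
          exact q.mul_mem_left _ (hwb t).2
      · rw [Fin.cons_succ]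
        refine ⟨⟨(hwb i).1.1.trans (Nat.le_succ _), ?_⟩, (hwb i).2⟩
        intro j hj
        rcases Nat.lt_or_ge d j with h1 | h1
        · have : j = d + 1 := by omega
          rw [this, hc0 _ (hwb i).1.1]
          exact hzero _
        · refine t32_bdd_mono k hh ?_ ((hwb i).1.2 j h1)
          have : d - j ≤ d + 1 - j := by omega
          exact Nat.add_le_add_left (Nat.mul_le_mul_left _ this) _

end

end Pool.Agent.H96.T3
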