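import Pool.Agent.H96.T3.Defs
import Pool.Agent.H96.T3.Extend
import Pool.Agent.H96.T3.CountU
import Pool.Agent.H96.T3.BadL
import Pool.Agent.H96.T3.RankG
import Pool.Agent.H96.T3.ClassD
import Pool.Agent.H98.TQ.Rank
import Pool.Agent.H98.TQ.Prod

/-! Project T3, row T3-10: the family for one good pair `(m, x)`. -/

set_option autoImplicit false

open Polynomial IsDedekindDomain NumberField Pool.Agent.H35.AN
open Pool.Agent.H67.MU (Bdd)
open Pool.Agent.H92.SQ2 (gg WW)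
open Pool.Agent.H98.TQ

namespace Pool.Agent.H96.T3

section

variable (k : Type) [Field k] [NumberField k]

variable {k} in
/-- a larger radius gives a larger box -/
private theorem t3_10_mono {h b d ρ ρ' : ℕ} (hh : 1 ≤ h) (hρ : ρ ≤ ρ') {g : (𝓞 k)[X]}
    (hg : InBox h b d ρ g) : InBox h b d ρ' g := by
  refine ⟨hg.1, fun j hj φ => (hg.2 j hj φ).trans ?_⟩
  have h1 : (1 : ℝ) ≤ h := by exact_mod_cast hh
  exact pow_le_pow_right₀ h1 (by omega)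

/-- the box is finite -/
private theorem t3_10_fin (h b d ρ : ℕ) : {g : (𝓞 k)[X] | InBox h b d ρ g}.Finite := by
  have hfin : ∀ B : ℝ, {a : 𝓞 k | Bdd B a}.Finite := by
    intro B
    have h1 := NumberField.Embeddings.finite_of_norm_le k ℂ B
    refine Set.Finite.of_finite_image (f := fun a : 𝓞 k => (a : k)) (h1.subset ?_)
      (fun a _ b _ hab => RingOfIntegers.ext hab)
    rintro _ ⟨a, ha, rfl⟩
    exact ⟨a.2, ha⟩
  refine Set.Finite.of_finite_image (f := fun g : (𝓞 k)[X] => fun j : Fin (d + 1) => g.coeff j)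
    ((Set.Finite.pi' fun j : Fin (d + 1) => hfin ((h : ℝ) ^ (ρ + b * (d - j)))).subset ?_) ?_
  · rintro _ ⟨g, hg, rfl⟩ j
    exact hg.2 j (by omega)
  · intro g hg g' hg' hgg
    ext1 j
    by_cases hj : j ≤ d
    · exact congrFun hgg ⟨j, by omega⟩
    · rw [coeff_eq_zero_of_natDegree_lt (lt_of_le_of_lt hg.1 (by omega)),
        coeff_eq_zero_of_natDegree_lt (lt_of_le_of_lt hg'.1 (by omega))]

variable {k} in
private noncomputable def t3_10_L (q : Ideal (𝓞 k)) (x : 𝓞 k) : Submodule (𝓞 k) (𝓞 k)[X] where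
  carrier := {g | Dbl q x g}
  add_mem' := by
    rintro g g' ⟨h1, h2⟩ ⟨h3, h4⟩
    refine ⟨?_, ?_⟩
    · rw [eval_add]; exact Ideal.add_mem _ h1 h3
    · rw [derivative_add, eval_add]; exact Ideal.add_mem _ h2 h4
  zero_mem' := by
    refine ⟨?_, ?_⟩ <;> simp
  smul_mem' := by
    rintro c g ⟨h1, h2⟩
    refine ⟨?_, ?_⟩
    · rw [eval_smul, smul_eq_mul]; exact Ideal.mul_mem_left _ _ h1
    · rw [derivative_smul, eval_smul, smul_eq_mul]; exact Ideal.mul_mem_left _ _ h2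

variable {k} in
private theorem t3_10_memL (q : Ideal (𝓞 k)) (x : 𝓞 k) (g : (𝓞 k)[X]) :
    g ∈ t3_10_L q x ↔ Dbl q x g := Iff.rfl

variable {k} in
/-- the value moves inside `q` when the point moves inside `q` -/
private theorem t3_10_move {q : Ideal (𝓞 k)} {x y : 𝓞 k} (hxy : x - y ∈ q) {g : (𝓞 k)[X]}
    (hg : g.eval x ∈ q) : g.eval y ∈ q := by
  have h1 : g.eval x - g.eval y ∈ q := Ideal.mem_of_dvd q (sub_dvd_eval_sub x y g) hxy
  have h2 := Ideal.sub_mem q hg h1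
  rwa [sub_sub_cancel] at h2

variable {k} in
private theorem t3_10_moveD {q : Ideal (𝓞 k)} {x y : 𝓞 k} (hxy : x - y ∈ q ^ 2) {g : (𝓞 k)[X]}
    (hg : Dbl q x g) : Dbl q y g :=
  ⟨t3_10_move hxy hg.1, t3_10_move (Ideal.pow_le_self two_ne_zero hxy) hg.2⟩

variable {k} in
/-- two double roots at different primes are one double root modulo the product -/
private theorem t3_10_crt {m l : HeightOneSpectrum (𝓞 k)} (hml : m ≠ l) (x x' : 𝓞 k) :
    ∃ y : 𝓞 k, ∀ g : (𝓞 k)[X], Dbl m.asIdeal x g → Dbl l.asIdeal x' g →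
      Dbl (m.asIdeal * l.asIdeal) y g := by
  have hcop : IsCoprime m.asIdeal l.asIdeal := by
    rw [Ideal.isCoprime_iff_sup_eq]
    exact Ideal.IsMaximal.coprime_of_ne m.isMaximal l.isMaximal
      (fun h => hml (HeightOneSpectrum.ext h))
  have hcop2 : IsCoprime (m.asIdeal ^ 2) (l.asIdeal ^ 2) := hcop.pow
  obtain ⟨i, hi, j, hj, hij⟩ := Ideal.isCoprime_iff_exists.mp hcop2
  refine ⟨x * j + x' * i, fun g hg hg' => ?_⟩
  have h1 : Dbl m.asIdeal (x * j + x' * i) g := by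
    refine t3_10_moveD ?_ hg
    have : x - (x * j + x' * i) = (x - x') * i := by
      linear_combination (-x) * hij
    rw [this]
    exact Ideal.mul_mem_left _ _ hi
  have h2 : Dbl l.asIdeal (x * j + x' * i) g := by
    refine t3_10_moveD ?_ hg'
    have : x' - (x * j + x' * i) = (x' - x) * j := by
      linear_combination (-x') * hij
    rw [this]
    exact Ideal.mul_mem_left _ _ hj
  refine ⟨?_, ?_⟩
  · rw [mul_pow, ← Ideal.inf_eq_mul_of_isCoprime hcop2]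
    exact ⟨h1.1, h2.1⟩
  · rw [← Ideal.inf_eq_mul_of_isCoprime hcop]
    exact ⟨h1.2, h2.2⟩

variable {k} in
/-- the classes modulo the conditions at `m` and `l` -/
private theorem t3_10_classes (m l : HeightOneSpectrum (𝓞 k)) (x x' : 𝓞 k) :
    ∃ L : AddSubgroup (𝓞 k)[X], (∀ g, g ∈ L ↔ Dbl m.asIdeal x g ∧ D1 l.asIdeal x' g) ∧
      ∃ cl : (𝓞 k)[X] → Fin (Ideal.absNorm m.asIdeal ^ 3 * Ideal.absNorm l.asIdeal ^ 2),
        ∀ g g', cl g = cl g' → g - g' ∈ L := by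
  refine ⟨{ carrier := {g | Dbl m.asIdeal x g ∧ D1 l.asIdeal x' g}
            add_mem' := ?_, zero_mem' := ?_, neg_mem' := ?_ }, fun g => Iff.rfl, ?_⟩
  · rintro g g' ⟨⟨h1, h2⟩, h3, h4⟩ ⟨⟨h5, h6⟩, h7, h8⟩
    refine ⟨⟨?_, ?_⟩, ?_, ?_⟩ <;> simp only [derivative_add, eval_add]
    exacts [Ideal.add_mem _ h1 h5, Ideal.add_mem _ h2 h6, Ideal.add_mem _ h3 h7,
      Ideal.add_mem _ h4 h8]
  · refine ⟨⟨?_, ?_⟩, ?_, ?_⟩ <;> simp
  · rintro g ⟨⟨h1, h2⟩, h3, h4⟩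
    refine ⟨⟨?_, ?_⟩, ?_, ?_⟩ <;> simp only [derivative_neg, eval_neg, neg_mem_iff]
    exacts [h1, h2, h3, h4]
  · have hm2 : m.asIdeal ^ 2 ≠ ⊥ := pow_ne_zero 2 m.ne_bot
    have hf1 : Finite (𝓞 k ⧸ m.asIdeal ^ 2) := Ideal.finiteQuotientOfFreeOfNeBot _ hm2
    have hf2 : Finite (𝓞 k ⧸ m.asIdeal) := Ideal.finiteQuotientOfFreeOfNeBot _ m.ne_bot
    have hf3 : Finite (𝓞 k ⧸ l.asIdeal) := Ideal.finiteQuotientOfFreeOfNeBot _ l.ne_bot
    have hcard : Nat.card ((𝓞 k ⧸ m.asIdeal ^ 2) × (𝓞 k ⧸ m.asIdeal) × (𝓞 k ⧸ l.asIdeal) ×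
        (𝓞 k ⧸ l.asIdeal)) = Ideal.absNorm m.asIdeal ^ 3 * Ideal.absNorm l.asIdeal ^ 2 := by
      rw [Nat.card_prod, Nat.card_prod, Nat.card_prod]
      have e1 : Nat.card (𝓞 k ⧸ m.asIdeal ^ 2) = Ideal.absNorm m.asIdeal ^ 2 := by
        rw [← map_pow]; rfl
      have e2 : Nat.card (𝓞 k ⧸ m.asIdeal) = Ideal.absNorm m.asIdeal := rfl
      have e3 : Nat.card (𝓞 k ⧸ l.asIdeal) = Ideal.absNorm l.asIdeal := rfl
      rw [e1, e2, e3]
      ring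
    refine ⟨fun g => Finite.equivFinOfCardEq hcard (Ideal.Quotient.mk _ (g.eval x),
      Ideal.Quotient.mk _ (g.derivative.eval x), Ideal.Quotient.mk _ (g.eval x'),
      Ideal.Quotient.mk _ (g.derivative.eval x')), fun g g' hgg => ?_⟩
    have h0 := (Finite.equivFinOfCardEq hcard).injective hgg
    simp only [Prod.mk.injEq, Ideal.Quotient.mk_eq_mk_iff_sub_mem] at h0
    obtain ⟨h1, h2, h3, h4⟩ := h0
    refine ⟨⟨?_, ?_⟩, ?_, ?_⟩ <;> simp only [derivative_sub, eval_sub]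
    exacts [h1, h2, h3, h4]

variable {k} in
/-- the members of the lattice of `m` in a box -/
private theorem t3_10_S (n b h ρ : ℕ) (m : Ideal (𝓞 k)) (x : 𝓞 k) :
    ∃ S : Finset (𝓞 k)[X], ∀ g, g ∈ S ↔ g ≠ 0 ∧ InBox h b (n - 2) ρ g ∧ Dbl m x g := by
  classical
  refine ⟨((t3_10_fin k h b (n - 2) ρ).toFinset.filter fun g => g ≠ 0 ∧ Dbl m x g), fun g => ?_⟩
  simp only [Finset.mem_filter, Set.Finite.mem_toFinset, Set.mem_setOf_eq]
  tauto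

variable {k} in
private theorem t3_10_cast {n : ℕ} (hn : 4 ≤ n) {P : (𝓞 k)[X] → Prop}
    (h : ∃ y : Fin (n - 2 + 1) → (𝓞 k)[X], LinearIndependent (𝓞 k) y ∧ ∀ i, P (y i)) :
    ∃ y : Fin (n - 1) → (𝓞 k)[X], LinearIndependent (𝓞 k) y ∧ ∀ i, P (y i) := by
  obtain ⟨y, hy, hP⟩ := h
  have hn1 : n - 1 = n - 2 + 1 := by omega
  exact ⟨y ∘ Fin.cast hn1, hy.comp _ (Fin.cast_injective hn1), fun i => hP _⟩

variable {k} in
private theorem t3_10_cast' {n : ℕ} (hn : 4 ≤ n) {P : (𝓞 k)[X] → Prop}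
    (h : ∃ y : Fin (n - 1) → (𝓞 k)[X], LinearIndependent (𝓞 k) y ∧ ∀ i, P (y i)) :
    ∃ y : Fin (n - 2 + 1) → (𝓞 k)[X], LinearIndependent (𝓞 k) y ∧ ∀ i, P (y i) := by
  obtain ⟨y, hy, hP⟩ := h
  have hn1 : n - 2 + 1 = n - 1 := by omega
  exact ⟨y ∘ Fin.cast hn1, hy.comp _ (Fin.cast_injective hn1), fun i => hP _⟩

/-- steps 1, 2, 3: independent small vectors in the lattice of `m` -/
private theorem t3_10_y (n b u v d0 ρ0 κ0 ρT κT : ℕ)
    (hc : Cond (Module.finrank ℚ k) n b u v d0 ρ0 κ0 ρT κT) :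
    ∃ h0 : ℕ, ∀ h ≥ h0, ∀ (m : HeightOneSpectrum (𝓞 k)) (x : 𝓞 k),
      Ideal.absNorm m.asIdeal ≤ h ^ u →
      (∀ g : (𝓞 k)[X], g ≠ 0 → InBox h b d0 ρ0 g → g.eval x ∉ m.asIdeal) →
      ∃ y : Fin (n - 2 + 1) → (𝓞 k)[X], LinearIndependent (𝓞 k) y ∧
        ∀ i, InBox h b (n - 2) ρT (y i) ∧ Dbl m.asIdeal x (y i) := by
  obtain ⟨h1, H1⟩ := full_rank k d0 ρ0 κ0 b
  have hc3 := hc.c3
  obtain ⟨h2, H2⟩ := products k n b d0 (n - 2 - d0) (ρ0 + κ0) (ρ0 + κ0) hc.cn (by omega)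
  refine ⟨h1 + h2 + 1, fun h hh m x hm hg => ?_⟩
  have hh1 : 1 ≤ h := by omega
  obtain ⟨v0, hv0, hv0'⟩ := H1 h (by omega) m.asIdeal x m.ne_bot hg (by
    calc Ideal.absNorm m.asIdeal ^ 2 * h ^ (2 * (Module.finrank ℚ k * (κ0 * d0) + 1))
        ≤ (h ^ u) ^ 2 * h ^ (2 * (Module.finrank ℚ k * (κ0 * d0) + 1)) :=
          Nat.mul_le_mul_right _ (Nat.pow_le_pow_left hm 2)
      _ = h ^ (u * 2 + 2 * (Module.finrank ℚ k * (κ0 * d0) + 1)) := by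
          rw [← pow_mul, ← pow_add]
      _ ≤ _ := by
          refine Nat.pow_le_pow_right hh1 ?_
          have := hc.c2
          nlinarith [this])
  obtain ⟨w, hw, hw'⟩ := extend_rank k h b d0 (n - 2 - d0) (ρ0 + κ0) hh1 (by omega) m.asIdeal x
    v0 hv0 hv0'
  obtain ⟨y, hy, hy'⟩ := H2 h (by omega) m.asIdeal x v0 w hv0 hw hv0' hw'
  have hc4 := hc.c4
  exact t3_10_cast' hc.cn (P := fun g => InBox h b (n - 2) ρT g ∧ Dbl m.asIdeal x g)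
    ⟨y, hy, fun i => ⟨t3_10_mono hh1 (by omega) (hy' i).1, (hy' i).2⟩⟩

/-- step 4: few vectors of the lattice of `m` in the box -/
private theorem t3_10_few (n b u v d0 ρ0 κ0 ρT κT : ℕ)
    (hc : Cond (Module.finrank ℚ k) n b u v d0 ρ0 κ0 ρT κT) :
    ∃ C : ℕ, ∀ h : ℕ, 1 ≤ h → ∀ (m : HeightOneSpectrum (𝓞 k)) (x : 𝓞 k),
      h ^ (u - 1) < Ideal.absNorm m.asIdeal →
      (∃ y : Fin (n - 2 + 1) → (𝓞 k)[X], LinearIndependent (𝓞 k) y ∧
        ∀ i, InBox h b (n - 2) ρT (y i) ∧ Dbl m.asIdeal x (y i)) →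
      ∀ S : Finset (𝓞 k)[X], (∀ g ∈ S, InBox h b (n - 2) ρT g ∧ Dbl m.asIdeal x g) →
      S.card ≤ C * h ^ (2 * v - 7) := by
  obtain ⟨C, hC, H⟩ := count_upper k (n - 2) b
  refine ⟨⌈C⌉₊, fun h hh m x hm hy S hS => ?_⟩
  obtain ⟨y, hy, hy'⟩ := hy
  obtain ⟨z, hz, hz'⟩ := classes_dbl m.asIdeal m.ne_bot x
  have hcn := hc.cn
  have h1 := H h hh ρT (Ideal.absNorm m.asIdeal ^ 3) (t3_10_L m.asIdeal x) y z hy hy'
    (fun i => (hz i).trans (by omega)) hz' S hS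
  have hh0 : (0 : ℝ) < h := by exact_mod_cast hh
  have hh1 : (1 : ℝ) ≤ h := by exact_mod_cast hh
  have hE : Module.finrank ℚ k * (ρT * (n - 2 + 1) + b * ((n - 2) * (n - 2 + 1) / 2)) ≤
      (u - 1) * 3 + (2 * v - 7) := by
    obtain ⟨N, rfl⟩ : ∃ N, n = N + 4 := ⟨n - 4, by omega⟩
    have h5 := hc.c5
    have h8 := hc.c8
    have hev : 2 * ((N + 4 - 2) * (N + 4 - 2 + 1) / 2) = (N + 4 - 2) * (N + 4 - 2 + 1) :=
      Nat.mul_div_cancel' (Nat.even_mul_succ_self _).two_dvd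
    set t := (N + 4 - 2) * (N + 4 - 2 + 1) / 2 with ht
    have e1 : N + 4 - 2 = N + 2 := by omega
    have e2 : N + 4 - 1 = N + 3 := by omega
    rw [e1] at hev ⊢
    rw [e1, e2] at h5
    have h6 : 2 * (Module.finrank ℚ k * (ρT * (N + 2 + 1) + b * t)) =
        Module.finrank ℚ k * (2 * (N + 3) * ρT + b * (N + 3) * (N + 2)) := by
      have : b * (N + 3) * (N + 2) = b * (2 * t) := by rw [hev]; ring
      rw [this]; ring
    have h7 : 12 ≤ 2 * v := le_trans (Nat.le_add_left _ _) h8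
    have hu := hc.cu
    omega
  have h2 : (S.card : ℝ) * ((h : ℝ) ^ (u - 1)) ^ 3 ≤ C * ((h : ℝ) ^ (u - 1)) ^ 3 *
      (h : ℝ) ^ (2 * v - 7) := by
    have hm' : ((h : ℝ) ^ (u - 1)) ≤ (Ideal.absNorm m.asIdeal : ℝ) := by exact_mod_cast hm.le
    calc (S.card : ℝ) * ((h : ℝ) ^ (u - 1)) ^ 3
        ≤ (S.card : ℝ) * (Ideal.absNorm m.asIdeal : ℝ) ^ 3 := by gcongr
      _ ≤ C * (h : ℝ) ^ (Module.finrank ℚ k *
          (ρT * (n - 2 + 1) + b * ((n - 2) * (n - 2 + 1) / 2))) := by exact_mod_cast h1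
      _ ≤ C * (h : ℝ) ^ ((u - 1) * 3 + (2 * v - 7)) := by gcongr
      _ = _ := by rw [pow_add, pow_mul]; ring
  have h3 : (S.card : ℝ) ≤ C * (h : ℝ) ^ (2 * v - 7) := by
    have hp : (0 : ℝ) < ((h : ℝ) ^ (u - 1)) ^ 3 := by positivity
    refine le_of_mul_le_mul_right ?_ hp
    linarith [h2, mul_comm (C * ((h : ℝ) ^ (u - 1)) ^ 3) ((h : ℝ) ^ (2 * v - 7)),
      show C * ((h : ℝ) ^ (u - 1)) ^ 3 * (h : ℝ) ^ (2 * v - 7) =
        C * (h : ℝ) ^ (2 * v - 7) * ((h : ℝ) ^ (u - 1)) ^ 3 from by ring]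
  have h4 : (S.card : ℝ) ≤ ((⌈C⌉₊ * h ^ (2 * v - 7) : ℕ) : ℝ) := by
    push_cast
    refine h3.trans ?_
    gcongr
    exact Nat.le_ceil C
  exact_mod_cast h4

/-- step 6: full rank for the lattice of `m` and `l` -/
private theorem t3_10_y' (n b u v d0 ρ0 κ0 ρT κT : ℕ)
    (hc : Cond (Module.finrank ℚ k) n b u v d0 ρ0 κ0 ρT κT) :
    ∃ h0 : ℕ, ∀ h ≥ h0, ∀ (m l : HeightOneSpectrum (𝓞 k)) (x x' : 𝓞 k),
      Ideal.absNorm m.asIdeal ≤ h ^ u → Ideal.absNorm l.asIdeal ≤ h ^ v →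
      (∀ g : (𝓞 k)[X], g ≠ 0 → InBox h b (n - 2) ρT g →
        ¬ (Dbl m.asIdeal x g ∧ D1 l.asIdeal x' g)) →
      ∃ y : Fin (n - 2 + 1) → (𝓞 k)[X], LinearIndependent (𝓞 k) y ∧
        ∀ i, InBox h b (n - 2) (ρT + κT) (y i) ∧ (Dbl m.asIdeal x (y i) ∧
          D1 l.asIdeal x' (y i)) := by
  obtain ⟨h1, H1⟩ := full_rank_gen k (n - 2) ρT κT b
  refine ⟨h1 + 1, fun h hh m l x x' hm hl hg => ?_⟩
  have hh1 : 1 ≤ h := by omega
  obtain ⟨L, hL, cl, hcl⟩ := t3_10_classes m l x x'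
  obtain ⟨y, hy, hy'⟩ := H1 h (by omega) L _ cl hcl (fun g hg0 hgb => by
      rw [hL]; exact hg g hg0 hgb) (by
    calc (Ideal.absNorm m.asIdeal ^ 3 * Ideal.absNorm l.asIdeal ^ 2) ^ 2 *
          h ^ (2 * (Module.finrank ℚ k * (κT * (n - 2)) + 1))
        ≤ ((h ^ u) ^ 3 * (h ^ v) ^ 2) ^ 2 *
          h ^ (2 * (Module.finrank ℚ k * (κT * (n - 2)) + 1)) := by gcongr
      _ = h ^ (6 * u + 4 * v + 2 * (Module.finrank ℚ k * (κT * (n - 2)) + 1)) := by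
          rw [← pow_mul, ← pow_mul, ← pow_add, ← pow_mul, ← pow_add]
          congr 1; ring
      _ ≤ _ := by
          refine Nat.pow_le_pow_right hh1 ?_
          have h6 := hc.c6
          have hcn := hc.cn
          obtain ⟨N, rfl⟩ : ∃ N, n = N + 4 := ⟨n - 4, by omega⟩
          have e1 : N + 4 - 2 = N + 2 := by omega
          have e2 : N + 4 - 1 = N + 3 := by omega
          rw [e1, e2] at h6
          rw [e1]
          nlinarith [h6])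
  exact ⟨y, hy, fun i => ⟨(hy' i).1, (hL _).mp (hy' i).2⟩⟩

/-- step 7: some vector is not in the lattice of `l²` -/
private theorem t3_10_nsq (n b u v d0 ρ0 κ0 ρT κT : ℕ)
    (hc : Cond (Module.finrank ℚ k) n b u v d0 ρ0 κ0 ρT κT) :
    ∃ h0 : ℕ, ∀ h ≥ h0, ∀ (m l : HeightOneSpectrum (𝓞 k)) (x x' : 𝓞 k), m ≠ l →
      h ^ (u - 1) < Ideal.absNorm m.asIdeal → h ^ (v - 1) < Ideal.absNorm l.asIdeal →
      ∀ y : Fin (n - 2 + 1) → (𝓞 k)[X], LinearIndependent (𝓞 k) y →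
        (∀ i, InBox h b (n - 2) (ρT + κT) (y i) ∧ (Dbl m.asIdeal x (y i) ∧
          D1 l.asIdeal x' (y i))) → ∃ i, (y i).eval x' ∉ l.asIdeal ^ 2 := by
  obtain ⟨C, hC, H⟩ := count_upper k (n - 2) b
  refine ⟨⌈C⌉₊ + 1, fun h hh m l x x' hml hm hl y hy hy' => ?_⟩
  by_contra hcon
  push Not at hcon
  have hh1 : 1 ≤ h := by omega
  have hcn := hc.cn
  obtain ⟨x0, hx0⟩ := t3_10_crt hml x x'
  have hml0 : m.asIdeal * l.asIdeal ≠ ⊥ := mul_ne_zero m.ne_bot l.ne_bot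
  obtain ⟨z, hz, hz'⟩ := classes_dbl (m.asIdeal * l.asIdeal) hml0 x0
  have h1 := H h hh1 (ρT + κT) (Ideal.absNorm (m.asIdeal * l.asIdeal) ^ 3)
    (t3_10_L (m.asIdeal * l.asIdeal) x0) y z hy
    (fun i => ⟨(hy' i).1, hx0 (y i) (hy' i).2.1 ⟨hcon i, (hy' i).2.2.2⟩⟩)
    (fun i => (hz i).trans (by omega)) hz' {0} (by
      intro g hg
      rw [Finset.mem_singleton] at hg
      subst hg
      refine ⟨⟨by simp, fun j _ φ => ?_⟩, Submodule.zero_mem _⟩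
      simp)
  have hh0 : (0 : ℝ) < h := by exact_mod_cast hh1
  have hh1' : (1 : ℝ) ≤ h := by exact_mod_cast hh1
  have hE : Module.finrank ℚ k * ((ρT + κT) * (n - 2 + 1) + b * ((n - 2) * (n - 2 + 1) / 2)) + 1 ≤
      3 * (u - 1) + 3 * (v - 1) := by
    have h9 := hc.c9
    have h7 := hc.c7
    have hu := hc.cu
    have hv := hc.cv
    have h10 : (ρT + κT) * (n - 2 + 1) + b * ((n - 2) * (n - 2 + 1) / 2) ≤
        b * (n * (n + 1) / 2 - 1) := by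
      obtain ⟨N, rfl⟩ : ∃ N, n = N + 4 := ⟨n - 4, by omega⟩
      have e1 : N + 4 - 2 = N + 2 := by omega
      rw [e1]
      have hev : 2 * ((N + 2) * (N + 2 + 1) / 2) = (N + 2) * (N + 2 + 1) :=
        Nat.mul_div_cancel' (Nat.even_mul_succ_self _).two_dvd
      have hev2 : 2 * ((N + 4) * (N + 4 + 1) / 2) = (N + 4) * (N + 4 + 1) :=
        Nat.mul_div_cancel' (Nat.even_mul_succ_self _).two_dvd
      have h11 : (N + 4) * (N + 4 + 1) / 2 - 1 = (N + 2) * (N + 2 + 1) / 2 + 2 * (N + 3) := by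
        have : (N + 4) * (N + 4 + 1) = (N + 2) * (N + 2 + 1) + 4 * (N + 3) + 2 := by ring
        omega
      rw [h11]
      have h12 : (ρT + κT) * (N + 2 + 1) ≤ 2 * b * (N + 2 + 1) :=
        Nat.mul_le_mul_right _ (by omega)
      nlinarith [h12]
    have h13 := Nat.mul_le_mul_left (Module.finrank ℚ k) h10
    omega
  have h2 : ((h : ℝ) ^ (u - 1)) ^ 3 * ((h : ℝ) ^ (v - 1)) ^ 3 ≤
      (Ideal.absNorm (m.asIdeal * l.asIdeal) : ℝ) ^ 3 := by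
    rw [map_mul, Nat.cast_mul, mul_pow]
    have hm' : ((h : ℝ) ^ (u - 1)) ≤ (Ideal.absNorm m.asIdeal : ℝ) := by exact_mod_cast hm.le
    have hl' : ((h : ℝ) ^ (v - 1)) ≤ (Ideal.absNorm l.asIdeal : ℝ) := by exact_mod_cast hl.le
    gcongr
  rw [Finset.card_singleton, Nat.cast_one, one_mul, Nat.cast_pow] at h1
  set E := Module.finrank ℚ k * ((ρT + κT) * (n - 2 + 1) + b * ((n - 2) * (n - 2 + 1) / 2)) with hEd
  have h3 : (h : ℝ) ^ (E + 1) ≤ C * (h : ℝ) ^ E := by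
    refine le_trans ?_ (h2.trans h1)
    rw [← pow_mul, ← pow_mul, ← pow_add]
    exact pow_le_pow_right₀ hh1' (by omega)
  have h4 : (h : ℝ) ≤ C := by
    have hp : (0 : ℝ) < (h : ℝ) ^ E := by positivity
    refine le_of_mul_le_mul_right ?_ hp
    rw [pow_succ] at h3
    linarith
  have h5 : (⌈C⌉₊ + 1 : ℕ) ≤ (h : ℕ) := hh
  have h6 : ((⌈C⌉₊ + 1 : ℕ) : ℝ) ≤ h := by exact_mod_cast h5
  have h7 := Nat.le_ceil C
  push_cast at h6
  linarith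

variable {k} in
/-- different windows give different primes -/
private theorem t3_10_ne {h u v : ℕ} (hh : 1 ≤ h) (huv : u ≠ v) (hu : 2 ≤ u) (hv : 2 ≤ v)
    {m l : HeightOneSpectrum (𝓞 k)}
    (hm1 : h ^ (u - 1) < Ideal.absNorm m.asIdeal) (hm2 : Ideal.absNorm m.asIdeal ≤ h ^ u)
    (hl1 : h ^ (v - 1) < Ideal.absNorm l.asIdeal) (hl2 : Ideal.absNorm l.asIdeal ≤ h ^ v) :
    m ≠ l := by
  rintro rfl
  rcases Nat.lt_or_gt_of_ne huv with h1 | h1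
  · have := Nat.pow_le_pow_right hh (show u ≤ v - 1 by omega)
    omega
  · have := Nat.pow_le_pow_right hh (show v ≤ u - 1 by omega)
    omega

variable {k} in
/-- large primes are coprime to `N0` -/
private theorem t3_10_cop {N0 : ℕ} (hN0 : 0 < N0) {m : HeightOneSpectrum (𝓞 k)}
    (hp : (Ideal.absNorm m.asIdeal).Prime) (hm : N0 < Ideal.absNorm m.asIdeal) :
    IsCoprime m.asIdeal (Ideal.span {(N0 : 𝓞 k)}) := by
  have hnm : (N0 : 𝓞 k) ∉ m.asIdeal := by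
    intro hmem
    have hcop : Nat.Coprime (Ideal.absNorm m.asIdeal) N0 :=
      (Nat.Prime.coprime_iff_not_dvd hp).mpr (fun hd => absurd (Nat.le_of_dvd hN0 hd) (by omega))
    have h1 : IsCoprime ((Ideal.absNorm m.asIdeal : ℤ)) (N0 : ℤ) :=
      Nat.isCoprime_iff_coprime.mpr hcop
    obtain ⟨a, c, hac⟩ := h1
    have h2 : (1 : 𝓞 k) ∈ m.asIdeal := by
      have h3 : ((a * (Ideal.absNorm m.asIdeal : ℤ) + c * (N0 : ℤ) : ℤ) : 𝓞 k) = 1 := by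
        rw [hac]; simp
      rw [← h3]
      push_cast
      exact Ideal.add_mem _ (Ideal.mul_mem_left _ _ (Ideal.absNorm_mem _))
        (Ideal.mul_mem_left _ _ hmem)
    exact m.isPrime.ne_top ((Ideal.eq_top_iff_one _).mpr h2)
  rw [Ideal.isCoprime_iff_sup_eq]
  have hmax := m.isMaximal
  refine hmax.out.2 _ (lt_of_le_of_ne le_sup_left (fun h => hnm ?_))
  rw [h]
  exact Ideal.mem_sup_right (Ideal.mem_span_singleton_self _)

/-- arithmetic for the size of the bad set -/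
private theorem t3_10_arith {v h A : ℕ} (hv : 6 ≤ v) (hh : 2 * A + 2 ≤ h) :
    2 * (A * h ^ (2 * v - 7) + h ^ (2 * v - 5)) ≤ h ^ (2 * v - 2) := by
  have hh1 : 1 ≤ h := by omega
  have h1 : h ^ (2 * v - 7) ≤ h ^ (2 * v - 5) := Nat.pow_le_pow_right hh1 (by omega)
  calc 2 * (A * h ^ (2 * v - 7) + h ^ (2 * v - 5))
      ≤ 2 * (A * h ^ (2 * v - 5) + h ^ (2 * v - 5)) := by gcongr
    _ = (2 * A + 2) * h ^ (2 * v - 5) := by ring
    _ ≤ h * h ^ (2 * v - 5) := Nat.mul_le_mul_right _ hh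
    _ = h ^ (2 * v - 4) := by
        rw [← pow_succ']
        congr 1; omega
    _ ≤ h ^ (2 * v - 2) := Nat.pow_le_pow_right hh1 (by omega)

open scoped Classical in
theorem fam_one_m (n N0 b u v d0 ρ0 κ0 ρT κT : ℕ) (s : (𝓞 k)[X]) (hN0 : 0 < N0) (hs : s.Monic)
    (hsn : s.natDegree = n) (hc : Cond (Module.finrank ℚ k) n b u v d0 ρ0 κ0 ρT κT) :
    ∃ c : ℝ, 0 < c ∧ ∃ h0 : ℕ, ∀ h ≥ h0, ∀ S T : Finset (HeightOneSpectrum (𝓞 k)),
      PS h u S → PS h v T → h ^ (v - 1) ≤ T.card → ∀ m ∈ S, ∀ x : ℕ,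
      (∀ g : (𝓞 k)[X], g ≠ 0 → InBox h b d0 ρ0 g → g.eval (x : 𝓞 k) ∉ m.asIdeal) →
      ∃ G : Finset (HeightOneSpectrum (𝓞 k) × ℕ), (∀ e ∈ G, e.1 ∈ T ∧
          e.2 < Ideal.absNorm e.1.asIdeal ∧ ∃ U : Finset (𝓞 k)[X],
          (∀ f ∈ U, Fam n N0 s b h f ∧ Dbl m.asIdeal (x : 𝓞 k) f ∧
            D1 e.1.asIdeal (e.2 : 𝓞 k) f ∧ f.eval (e.2 : 𝓞 k) ∉ e.1.asIdeal ^ 2) ∧
          c * (h : ℝ) ^ (Module.finrank ℚ k * (b * (n * (n + 1) / 2 - 1))) ≤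
            (Ideal.absNorm m.asIdeal : ℝ) ^ 3 * (Ideal.absNorm e.1.asIdeal : ℝ) ^ 2 *
              U.card) ∧
        h ^ (2 * v - 2) ≤ 2 * G.card := by
  have hcn := hc.cn
  have hcu := hc.cu
  have hcv := hc.cv
  have hc7 := hc.c7
  have hv6 : 6 ≤ v := by
    have := hc.c8
    omega
  obtain ⟨c, hc0, h1, H1⟩ := class_count2 k n N0 b s hc.cn hN0 hs hsn hc.cb
  obtain ⟨K, h2, H2⟩ := bad_l k n b v hc.cn hc.cb hc.c10 hc.c8
  obtain ⟨h3, H3⟩ := t3_10_y k n b u v d0 ρ0 κ0 ρT κT hc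
  obtain ⟨C, H4⟩ := t3_10_few k n b u v d0 ρ0 κ0 ρT κT hc
  obtain ⟨h5, H5⟩ := t3_10_y' k n b u v d0 ρ0 κ0 ρT κT hc
  obtain ⟨h6, H6⟩ := t3_10_nsq k n b u v d0 ρ0 κ0 ρT κT hc
  refine ⟨c, hc0, h1 + h2 + h3 + h5 + h6 + N0 + 1 + (2 * (K * C) + 2),
    fun h hh S T hS hT hTc m hm x hx => ?_⟩
  have hh1 : 1 ≤ h := by omega
  have hmlo := hS.lo m hm
  have hmhi := hS.hi m hm
  obtain ⟨Sg, hSg⟩ := t3_10_S n b h ρT m.asIdeal (x : 𝓞 k)
  have hScard : Sg.card ≤ C * h ^ (2 * v - 7) :=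
    H4 h hh1 m (x : 𝓞 k) hmlo (H3 h (by omega) m (x : 𝓞 k) hmhi hx) Sg
      (fun g hg => ((hSg g).mp hg).2)
  have hbad := H2 h (by omega) T hT Sg (fun g hg =>
    ⟨((hSg g).mp hg).1, t3_10_mono hh1 (by omega) ((hSg g).mp hg).2.1⟩)
  set F : HeightOneSpectrum (𝓞 k) → Finset ℕ := fun l =>
    (Finset.range (Ideal.absNorm l.asIdeal)).filter fun x' : ℕ =>
      ¬ ∃ g ∈ Sg, D1 l.asIdeal (x' : 𝓞 k) g with hF
  refine ⟨(T.sigma F).map (Equiv.sigmaEquivProd _ _).toEmbedding, ?_, ?_⟩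
  · intro e he
    rw [Finset.mem_map] at he
    obtain ⟨⟨l, x'⟩, hlx, rfl⟩ := he
    rw [Finset.mem_sigma] at hlx
    obtain ⟨hl, hx'⟩ := hlx
    simp only [hF, Finset.mem_filter, Finset.mem_range] at hx'
    obtain ⟨hx'1, hx'2⟩ := hx'
    refine ⟨hl, hx'1, ?_⟩
    show ∃ U : Finset (𝓞 k)[X], (∀ f ∈ U, Fam n N0 s b h f ∧ Dbl m.asIdeal (x : 𝓞 k) f ∧
            D1 l.asIdeal (x' : 𝓞 k) f ∧ f.eval (x' : 𝓞 k) ∉ l.asIdeal ^ 2) ∧
          c * (h : ℝ) ^ (Module.finrank ℚ k * (b * (n * (n + 1) / 2 - 1))) ≤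
            (Ideal.absNorm m.asIdeal : ℝ) ^ 3 * (Ideal.absNorm l.asIdeal : ℝ) ^ 2 *
              U.card
    have hllo := hT.lo l hl
    have hlhi := hT.hi l hl
    have hml : m ≠ l := t3_10_ne hh1 hc.cuv hcu hcv hmlo hmhi hllo hlhi
    obtain ⟨y, hy, hy'⟩ := H5 h (by omega) m l (x : 𝓞 k) (x' : 𝓞 k) hmhi hlhi (by
      rintro g hg0 hgb ⟨hg1, hg2⟩
      exact hx'2 ⟨g, (hSg g).mpr ⟨hg0, hgb, hg1⟩, hg2⟩)
    have hnsq := H6 h (by omega) m l (x : 𝓞 k) (x' : 𝓞 k) hml hmlo hllo y hy hy'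
    have hN0h : N0 < h := by omega
    have hcop : IsCoprime (m.asIdeal * l.asIdeal) (Ideal.span {(N0 : 𝓞 k)}) := by
      refine IsCoprime.mul_left (t3_10_cop hN0 (hS.prime m hm) ?_)
        (t3_10_cop hN0 (hT.prime l hl) ?_)
      · have : h ^ 1 ≤ h ^ (u - 1) := Nat.pow_le_pow_right hh1 (by omega)
        rw [pow_one] at this
        omega
      · have : h ^ 1 ≤ h ^ (v - 1) := Nat.pow_le_pow_right hh1 (by omega)
        rw [pow_one] at this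
        omega
    have hn1 : n - 1 = n - 2 + 1 := by omega
    obtain ⟨i0, hi0⟩ := hnsq
    obtain ⟨U, hU1, hU2⟩ := H1 h (by omega) m l (x : 𝓞 k) (x' : 𝓞 k) hml hcop
      (y ∘ Fin.cast hn1) (hy.comp _ (Fin.cast_injective hn1))
      (fun i => ⟨t3_10_mono hh1 (by omega) (hy' _).1, (hy' _).2.1, (hy' _).2.2⟩)
      ⟨Fin.cast hn1.symm i0, by simpa using hi0⟩
    exact ⟨U, hU1, hU2⟩
  · rw [Finset.card_map, Finset.card_sigma]
    have hsum : (∑ l ∈ T, (F l).card) + (∑ l ∈ T, ((Finset.range (Ideal.absNorm l.asIdeal)).filter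
        fun x' : ℕ => ∃ g ∈ Sg, D1 l.asIdeal (x' : 𝓞 k) g).card) =
        ∑ l ∈ T, Ideal.absNorm l.asIdeal := by
      rw [← Finset.sum_add_distrib]
      refine Finset.sum_congr rfl fun l _ => ?_
      rw [add_comm, hF, Finset.card_filter_add_card_filter_not, Finset.card_range]
    have hlow : h ^ (2 * v - 2) ≤ ∑ l ∈ T, Ideal.absNorm l.asIdeal := by
      calc h ^ (2 * v - 2) = h ^ (v - 1) * h ^ (v - 1) := by
            rw [← pow_add]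
            congr 1; omega
        _ ≤ T.card * h ^ (v - 1) := Nat.mul_le_mul_right _ hTc
        _ = ∑ l ∈ T, h ^ (v - 1) := by rw [Finset.sum_const, smul_eq_mul]
        _ ≤ _ := Finset.sum_le_sum fun l hl => (hT.lo l hl).le
    have har := t3_10_arith (v := v) (h := h) (A := K * C) hv6 (by omega)
    have hKS : K * Sg.card ≤ K * C * h ^ (2 * v - 7) := by
      rw [mul_assoc]; exact Nat.mul_le_mul_left _ hScard
    omega

end

end Pool.Agent.H96.T3
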