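import Pool.Agent.H96.T3.Defs
import Pool.Agent.H35.AN.Defs
import Pool.Agent.H67.MU.Bdd
import Pool.Agent.H41.RG.Boxes

/-!
# Project T3 (MP_a3214d), row T3-1

Few pairs (a prime of degree one, a residue) are roots of a nonzero polynomial of the box. (The
first part is taken from the file of row TQ-2.)
-/

set_option autoImplicit false

open Polynomial IsDedekindDomain NumberField Pool.Agent.H35.AN
open Pool.Agent.H67.MU (Bdd)
open Pool.Agent.H92.SQ2 (gg WW)
open Pool.Agent.H98.TQ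

namespace Pool.Agent.H96.T3

section

variable {k : Type} [Field k] [NumberField k]

/-- few large primes contain a fixed nonzero integer -/
private theorem t3_1_few_dvd {h j K : ℕ} (hh : 2 ≤ h) (hj : 2 ≤ j) {a : 𝓞 k} (ha : a ≠ 0)
    (hK : Bdd ((h : ℝ) ^ K) a) {S : Finset (HeightOneSpectrum (𝓞 k))} (hS : PS h j S)
    (T : Finset (HeightOneSpectrum (𝓞 k))) (hTS : T ⊆ S) (hT : ∀ p ∈ T, a ∈ p.asIdeal) :
    T.card ≤ Module.finrank ℚ k * K := by
  classical
  set N : HeightOneSpectrum (𝓞 k) → ℕ := fun p => Ideal.absNorm p.asIdeal with hN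
  have hinj : Set.InjOn N (T : Set (HeightOneSpectrum (𝓞 k))) := fun p hp q hq h =>
    hS.inj p (hTS hp) q (hTS hq) h
  have h1 : (∏ p ∈ T.image N, p) ∣ Ideal.absNorm (Ideal.span {a}) := by
    refine Finset.prod_primes_dvd _ (fun p hp => ?_) fun p hp => ?_
    · obtain ⟨q, hq, rfl⟩ := Finset.mem_image.1 hp
      exact (hS.prime q (hTS hq)).prime
    · obtain ⟨q, hq, rfl⟩ := Finset.mem_image.1 hp
      refine Ideal.absNorm_dvd_absNorm_of_le ?_
      rw [Ideal.span_singleton_le_iff_mem]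
      exact hT q hq
  have h0 : Ideal.absNorm (Ideal.span {a}) ≠ 0 := by
    intro h
    rw [Ideal.absNorm_eq_zero_iff, Ideal.span_singleton_eq_bot] at h
    exact ha h
  have h2 : (∏ p ∈ T.image N, p) ≤ Ideal.absNorm (Ideal.span {a}) :=
    Nat.le_of_dvd (Nat.pos_of_ne_zero h0) h1
  have h3 : h ^ (T.image N).card ≤ ∏ p ∈ T.image N, p := by
    refine Finset.pow_card_le_prod _ _ _ fun p hp => ?_
    obtain ⟨q, hq, rfl⟩ := Finset.mem_image.1 hp
    have h4 := hS.lo q (hTS hq)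
    have h5 : h ^ 1 ≤ h ^ (j - 1) := Nat.pow_le_pow_right (by omega) (by omega)
    rw [pow_one] at h5
    exact (h5.trans h4.le)
  rw [Finset.card_image_of_injOn hinj] at h3
  have h4 : (Ideal.absNorm (Ideal.span {a}) : ℝ) ≤ ((h : ℝ) ^ K) ^ Module.finrank ℚ k :=
    Pool.Agent.H67.MU.mu8_norm _ a (Ideal.mem_span_singleton_self a) ha _ hK
  have h5 : Ideal.absNorm (Ideal.span {a}) ≤ h ^ (Module.finrank ℚ k * K) := by
    have h6 : ((h : ℝ) ^ K) ^ Module.finrank ℚ k = ((h ^ (Module.finrank ℚ k * K) : ℕ) : ℝ) := by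
      push_cast
      rw [← pow_mul, mul_comm]
    rw [h6] at h4
    exact_mod_cast h4
  exact (Nat.pow_le_pow_iff_right (by omega)).mp (h3.trans (h2.trans h5))

/-- residues modulo an ideal of prime norm -/
private theorem t3_1_inj {m : Ideal (𝓞 k)} (hp : (Ideal.absNorm m).Prime) {x y : ℕ}
    (hx : x < Ideal.absNorm m) (hy : y < Ideal.absNorm m)
    (h : Ideal.Quotient.mk m (x : 𝓞 k) = Ideal.Quotient.mk m (y : 𝓞 k)) : x = y := by
  have hne : m ≠ ⊤ := by
    intro h0
    rw [h0, Ideal.absNorm_top] at hp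
    exact Nat.not_prime_one hp
  have : Nontrivial (𝓞 k ⧸ m) := Ideal.Quotient.nontrivial_iff.2 hne
  have hchar : CharP (𝓞 k ⧸ m) (Ideal.absNorm m) := by
    rw [CharP.charP_iff_prime_eq_zero hp]
    have h1 := Ideal.absNorm_mem m
    have h2 := Ideal.Quotient.eq_zero_iff_mem.2 h1
    rwa [map_natCast] at h2
  rw [map_natCast, map_natCast, CharP.natCast_eq_natCast (𝓞 k ⧸ m) (Ideal.absNorm m)] at h
  have h3 : x % Ideal.absNorm m = y % Ideal.absNorm m := h
  rwa [Nat.mod_eq_of_lt hx, Nat.mod_eq_of_lt hy] at h3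

open scoped Classical in
/-- a polynomial which is not zero modulo `m` has few roots modulo `m` -/
private theorem t3_1_few_roots {m : HeightOneSpectrum (𝓞 k)} {d : ℕ}
    (hp : (Ideal.absNorm m.asIdeal).Prime) {g : (𝓞 k)[X]} (hd : g.natDegree ≤ d) {i : ℕ}
    (hi : g.coeff i ∉ m.asIdeal) :
    ((Finset.range (Ideal.absNorm m.asIdeal)).filter
      fun x : ℕ => g.eval (x : 𝓞 k) ∈ m.asIdeal).card ≤ d := by
  have hprime : m.asIdeal.IsPrime := m.isPrime
  have hdom : IsDomain (𝓞 k ⧸ m.asIdeal) := Ideal.Quotient.isDomain m.asIdeal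
  set G : (𝓞 k ⧸ m.asIdeal)[X] := g.map (Ideal.Quotient.mk m.asIdeal) with hG
  have hG0 : G ≠ 0 := by
    intro h0
    apply hi
    have h1 : G.coeff i = 0 := by rw [h0, coeff_zero]
    rw [hG, coeff_map] at h1
    exact Ideal.Quotient.eq_zero_iff_mem.1 h1
  have h1 : ((Finset.range (Ideal.absNorm m.asIdeal)).filter
      fun x : ℕ => g.eval (x : 𝓞 k) ∈ m.asIdeal).card ≤ G.roots.toFinset.card := by
    refine Finset.card_le_card_of_injOn
      (fun x : ℕ => Ideal.Quotient.mk m.asIdeal (x : 𝓞 k)) ?_ ?_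
    · intro x hx
      rw [Finset.mem_coe, Finset.mem_filter] at hx
      rw [Finset.mem_coe, Multiset.mem_toFinset, mem_roots hG0, IsRoot.def, hG, eval_map,
        eval₂_hom]
      exact Ideal.Quotient.eq_zero_iff_mem.2 hx.2
    · intro x hx y hy hxy
      rw [Finset.mem_coe, Finset.mem_filter, Finset.mem_range] at hx hy
      exact t3_1_inj hp hx.1 hy.1 hxy
  have h2 : G.roots.toFinset.card ≤ G.natDegree :=
    (Multiset.toFinset_card_le _).trans (card_roots' G)
  have h3 : G.natDegree ≤ g.natDegree := natDegree_map_le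
  omega

open scoped Classical in
/-- the sum over one family of primes -/
private theorem t3_1_sum {h b d ρ u : ℕ} (hu : 2 ≤ u) (hh : 2 ≤ h)
    {S : Finset (HeightOneSpectrum (𝓞 k))} (hS : PS h u S) {g : (𝓞 k)[X]} (hg : g ≠ 0)
    (hbox : InBox h b d ρ g) :
    ∑ m ∈ S, ((Finset.range (Ideal.absNorm m.asIdeal)).filter
      fun x : ℕ => g.eval (x : 𝓞 k) ∈ m.asIdeal).card ≤
      (d + Module.finrank ℚ k * (ρ + b * d)) * h ^ u := by
  rw [← Finset.sum_filter_add_sum_filter_not S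
    (fun m : HeightOneSpectrum (𝓞 k) => ∀ i, g.coeff i ∈ m.asIdeal)]
  have hlc : g.leadingCoeff ≠ 0 := leadingCoeff_ne_zero.mpr hg
  -- the primes which contain the coefficients of `g`
  have h1 : (S.filter fun m : HeightOneSpectrum (𝓞 k) => ∀ i, g.coeff i ∈ m.asIdeal).card ≤
      Module.finrank ℚ k * (ρ + b * d) := by
    refine t3_1_few_dvd hh hu (a := g.leadingCoeff) hlc ?_ hS _ (Finset.filter_subset _ _) ?_
    · intro φ
      refine (hbox.2 _ hbox.1 φ).trans ?_
      refine pow_le_pow_right₀ (by exact_mod_cast (by omega : 1 ≤ h)) ?_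
      have : b * (d - g.natDegree) ≤ b * d := Nat.mul_le_mul_left _ (Nat.sub_le _ _)
      omega
    · intro p hp
      rw [Finset.mem_filter] at hp
      exact hp.2 _
  have h2 : ∑ m ∈ S.filter (fun m : HeightOneSpectrum (𝓞 k) => ∀ i, g.coeff i ∈ m.asIdeal),
      ((Finset.range (Ideal.absNorm m.asIdeal)).filter
        fun x : ℕ => g.eval (x : 𝓞 k) ∈ m.asIdeal).card ≤
      (Module.finrank ℚ k * (ρ + b * d)) * h ^ u := by
    refine (Finset.sum_le_card_nsmul _ _ (h ^ u) ?_).trans ?_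
    · intro m hm
      rw [Finset.mem_filter] at hm
      refine (Finset.card_filter_le _ _).trans ?_
      rw [Finset.card_range]
      exact hS.hi m hm.1
    · rw [smul_eq_mul]
      exact Nat.mul_le_mul_right _ h1
  -- the others
  have hcard : S.card ≤ h ^ u := by
    have h5 : S.card ≤ (Finset.Icc 1 (h ^ u)).card := by
      refine Finset.card_le_card_of_injOn (fun p => Ideal.absNorm p.asIdeal) ?_ ?_
      · intro p hp
        rw [Finset.mem_coe, Finset.mem_Icc]
        exact ⟨(hS.prime p hp).one_lt.le, hS.hi p hp⟩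
      · intro p hp q hq h
        exact hS.inj p hp q hq h
    rwa [Nat.card_Icc, Nat.add_sub_cancel] at h5
  have h3 : ∑ m ∈ S.filter (fun m : HeightOneSpectrum (𝓞 k) => ¬ ∀ i, g.coeff i ∈ m.asIdeal),
      ((Finset.range (Ideal.absNorm m.asIdeal)).filter
        fun x : ℕ => g.eval (x : 𝓞 k) ∈ m.asIdeal).card ≤ h ^ u * d := by
    refine (Finset.sum_le_card_nsmul _ _ d ?_).trans ?_
    · intro m hm
      rw [Finset.mem_filter] at hm
      obtain ⟨i, hi⟩ := not_forall.mp hm.2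
      exact t3_1_few_roots (hS.prime m hm.1) hbox.1 hi
    · rw [smul_eq_mul]
      exact Nat.mul_le_mul_right _ ((Finset.card_filter_le _ _).trans hcard)
  have h4 : Module.finrank ℚ k * (ρ + b * d) * h ^ u + h ^ u * d =
      (d + Module.finrank ℚ k * (ρ + b * d)) * h ^ u := by ring
  omega

private theorem t3_1_exp (d ρ b : ℕ) :
    2 * ∑ j : Fin (d + 1), (ρ + b * (d - j)) = 2 * ρ * (d + 1) + b * d * (d + 1) := by
  rw [Fin.sum_univ_eq_sum_range (fun j => ρ + b * (d - j)) (d + 1)]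
  have h1 : ∑ j ∈ Finset.range (d + 1), (d - j) = ∑ j ∈ Finset.range (d + 1), j := by
    have := Finset.sum_range_reflect (fun i => i) (d + 1)
    simpa using this
  have h2 := Finset.sum_range_id_mul_two (d + 1)
  rw [Finset.sum_add_distrib, ← Finset.mul_sum, h1]
  simp only [Finset.sum_const, Finset.card_range, smul_eq_mul, Nat.add_sub_cancel] at *
  nlinarith

variable (k) in
open scoped Classical in
theorem bad_pairs (d ρ b u : ℕ) (hu : 2 ≤ u)
    (hc : Module.finrank ℚ k * (2 * ρ * (d + 1) + b * d * (d + 1)) + 12 ≤ 2 * u) :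
    ∃ h0 : ℕ, ∀ h ≥ h0, ∀ S : Finset (HeightOneSpectrum (𝓞 k)), PS h u S →
      (∑ m ∈ S, ((Finset.range (Ideal.absNorm m.asIdeal)).filter fun x : ℕ =>
        ∃ g : (𝓞 k)[X], g ≠ 0 ∧ InBox h b d ρ g ∧ g.eval (x : 𝓞 k) ∈ m.asIdeal).card) ≤
          h ^ (2 * u - 5) := by
  set D := Module.finrank ℚ k with hD
  obtain ⟨C, hC, hbox⟩ := Pool.Agent.H41.RG.box_upper k
    (fun j : Fin (d + 1) => ρ + b * (d - j)) (C0 := 1) one_pos
  set E := ∑ j : Fin (d + 1), (ρ + b * (d - j)) with hE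
  have hE2 : D * E + 6 ≤ u := by
    have h1 := t3_1_exp d ρ b
    rw [← hE] at h1
    rw [← h1] at hc
    have h2 : D * (2 * E) = 2 * (D * E) := by ring
    omega
  set K := d + D * (ρ + b * d) with hK
  refine ⟨max 2 ⌈C * K⌉₊, fun h hh S hS => ?_⟩
  have hh1 : 2 ≤ h := (le_max_left _ _).trans hh
  have hh2 : C * K ≤ h := (Nat.le_ceil _).trans (by exact_mod_cast (le_max_right _ _).trans hh)
  -- choose a polynomial for every bad pair
  have hch : ∀ (m : HeightOneSpectrum (𝓞 k)) (x : ℕ), ∃ g : (𝓞 k)[X],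
      (∃ g : (𝓞 k)[X], g ≠ 0 ∧ InBox h b d ρ g ∧ g.eval (x : 𝓞 k) ∈ m.asIdeal) →
        g ≠ 0 ∧ InBox h b d ρ g ∧ g.eval (x : 𝓞 k) ∈ m.asIdeal := by
    intro m x
    by_cases hx : ∃ g : (𝓞 k)[X], g ≠ 0 ∧ InBox h b d ρ g ∧ g.eval (x : 𝓞 k) ∈ m.asIdeal
    · obtain ⟨g, hg⟩ := hx
      exact ⟨g, fun _ => hg⟩
    · exact ⟨0, fun h => absurd h hx⟩
  choose G hG using hch
  set T : Finset (𝓞 k)[X] := S.biUnion fun m =>
    ((Finset.range (Ideal.absNorm m.asIdeal)).filter fun x : ℕ =>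
        ∃ g : (𝓞 k)[X], g ≠ 0 ∧ InBox h b d ρ g ∧ g.eval (x : 𝓞 k) ∈ m.asIdeal).image (G m)
    with hT
  have hTmem : ∀ g ∈ T, g ≠ 0 ∧ InBox h b d ρ g := by
    intro g hg
    rw [hT, Finset.mem_biUnion] at hg
    obtain ⟨m, _, hg⟩ := hg
    rw [Finset.mem_image] at hg
    obtain ⟨x, hx, rfl⟩ := hg
    rw [Finset.mem_filter] at hx
    have h1 := hG m x hx.2
    exact ⟨h1.1, h1.2.1⟩
  have hTcard : (T.card : ℝ) ≤ C * (h : ℝ) ^ (D * E) := by
    have hinj : Set.InjOn (fun (g : (𝓞 k)[X]) (j : Fin (d + 1)) => g.coeff j) T := by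
      intro g hg g' hg' hgg
      ext i
      by_cases hi : i < d + 1
      · exact congrArg _ (congrFun hgg ⟨i, hi⟩)
      · rw [coeff_eq_zero_of_natDegree_lt (lt_of_le_of_lt (hTmem g hg).2.1 (by omega)),
          coeff_eq_zero_of_natDegree_lt (lt_of_le_of_lt (hTmem g' hg').2.1 (by omega))]
    rw [← Finset.card_image_of_injOn hinj]
    refine hbox h (by exact_mod_cast (by omega : 1 ≤ h)) _ ?_
    intro v hv i φ
    rw [Finset.mem_image] at hv
    obtain ⟨g, hg, rfl⟩ := hv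
    rw [one_mul]
    exact (hTmem g hg).2.2 i (Nat.lt_succ_iff.mp i.2) φ
  have hsum : (∑ m ∈ S, ((Finset.range (Ideal.absNorm m.asIdeal)).filter fun x : ℕ =>
        ∃ g : (𝓞 k)[X], g ≠ 0 ∧ InBox h b d ρ g ∧ g.eval (x : 𝓞 k) ∈ m.asIdeal).card) ≤
      T.card * (K * h ^ u) := by
    calc (∑ m ∈ S, ((Finset.range (Ideal.absNorm m.asIdeal)).filter fun x : ℕ =>
        ∃ g : (𝓞 k)[X], g ≠ 0 ∧ InBox h b d ρ g ∧ g.eval (x : 𝓞 k) ∈ m.asIdeal).card)
        ≤ ∑ m ∈ S, ∑ g ∈ T, ((Finset.range (Ideal.absNorm m.asIdeal)).filter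
            fun x : ℕ => g.eval (x : 𝓞 k) ∈ m.asIdeal).card := by
          refine Finset.sum_le_sum fun m hm => ?_
          refine (Finset.card_le_card ?_).trans Finset.card_biUnion_le
          intro x hx
          have hx' := hx
          rw [Finset.mem_filter] at hx
          rw [Finset.mem_biUnion]
          refine ⟨G m x, ?_, Finset.mem_filter.mpr ⟨hx.1, (hG m x hx.2).2.2⟩⟩
          rw [hT, Finset.mem_biUnion]
          exact ⟨m, hm, Finset.mem_image_of_mem _ hx'⟩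
      _ = ∑ g ∈ T, ∑ m ∈ S, ((Finset.range (Ideal.absNorm m.asIdeal)).filter
            fun x : ℕ => g.eval (x : 𝓞 k) ∈ m.asIdeal).card := Finset.sum_comm
      _ ≤ ∑ _g ∈ T, K * h ^ u :=
          Finset.sum_le_sum fun g hg => t3_1_sum hu hh1 hS (hTmem g hg).1 (hTmem g hg).2
      _ = T.card * (K * h ^ u) := by rw [Finset.sum_const, smul_eq_mul]
  have hR : ((T.card * (K * h ^ u) : ℕ) : ℝ) ≤ ((h ^ (2 * u - 5) : ℕ) : ℝ) := by
    push_cast
    have hh0 : (0 : ℝ) ≤ h := Nat.cast_nonneg _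
    have hh3 : (1 : ℝ) ≤ h := by exact_mod_cast (by omega : 1 ≤ h)
    calc (T.card : ℝ) * ((K : ℝ) * (h : ℝ) ^ u)
        ≤ C * (h : ℝ) ^ (D * E) * ((K : ℝ) * (h : ℝ) ^ u) :=
          mul_le_mul_of_nonneg_right hTcard (by positivity)
      _ = C * K * (h : ℝ) ^ (D * E + u) := by rw [pow_add]; ring
      _ ≤ h * (h : ℝ) ^ (2 * u - 6) := by
          refine mul_le_mul hh2 (pow_le_pow_right₀ hh3 (by omega)) (by positivity) hh0
      _ = (h : ℝ) ^ (2 * u - 5) := by
          rw [← pow_succ']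
          congr 1
          omega
  have hR' : T.card * (K * h ^ u) ≤ h ^ (2 * u - 5) := by exact_mod_cast hR
  exact hsum.trans hR'

end

end Pool.Agent.H96.T3
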