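import Pool.Agent.H96.T3.Defs
import Pool.Agent.H35.AN.Defs
import Pool.Agent.H98.TQ.Primes
import Pool.Agent.H96.T3.Pairs
import Pool.Agent.H96.T3.FamM

/-!
# Project T3, row T3-11: the size of the family

Good pairs `(m, x)` (no small polynomial vanishes at `x` modulo `m`) are in the majority; each of
them carries many pairs `(l, x')` with many members of the family. Double counting over the
quadruples `(m, x, l, x')`, and a common residue for `x` and `x'`.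
-/

set_option autoImplicit false

open Polynomial IsDedekindDomain NumberField Pool.Agent.H35.AN
open Pool.Agent.H67.MU (Bdd)
open Pool.Agent.H92.SQ2 (gg WW)
open Pool.Agent.H98.TQ

namespace Pool.Agent.H96.T3

/-- double counting -/
private theorem t3_11_double {α β : Type} [DecidableEq α] (G : Finset β) (T : β → Finset α)
    (k K : ℝ) (hk : ∀ i ∈ G, k ≤ ((T i).card : ℝ))
    (hK : ∀ f ∈ G.biUnion T, ((G.filter fun i => f ∈ T i).card : ℝ) ≤ K) :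
    k * G.card ≤ K * (G.biUnion T).card := by
  have h1 : ∑ i ∈ G, (T i).card = ∑ f ∈ G.biUnion T, (G.filter fun i => f ∈ T i).card := by
    calc ∑ i ∈ G, (T i).card
        = ∑ i ∈ G, ∑ f ∈ G.biUnion T, (if f ∈ T i then 1 else 0) := by
          refine Finset.sum_congr rfl fun i hi => ?_
          rw [Finset.sum_boole, Nat.cast_id]
          congr 1
          ext f
          rw [Finset.mem_filter]
          exact ⟨fun hf => ⟨Finset.mem_biUnion.mpr ⟨i, hi, hf⟩, hf⟩, fun hf => hf.2⟩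
      _ = ∑ f ∈ G.biUnion T, ∑ i ∈ G, (if f ∈ T i then 1 else 0) := Finset.sum_comm
      _ = _ := by
          refine Finset.sum_congr rfl fun f _ => ?_
          rw [Finset.sum_boole, Nat.cast_id]
  have h2 : k * G.card ≤ ∑ i ∈ G, ((T i).card : ℝ) := by
    rw [mul_comm, ← nsmul_eq_mul, ← Finset.sum_const]
    exact Finset.sum_le_sum hk
  have h3 : (∑ i ∈ G, ((T i).card : ℝ)) =
      ∑ f ∈ G.biUnion T, ((G.filter fun i => f ∈ T i).card : ℝ) := by exact_mod_cast h1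
  rw [h3] at h2
  refine h2.trans ((Finset.sum_le_sum hK).trans (le_of_eq ?_))
  rw [Finset.sum_const, nsmul_eq_mul, mul_comm]

section

variable {k : Type} [Field k] [NumberField k]

/-- the natural numbers below a prime norm are distinct modulo the ideal -/
private theorem t3_11_inj {m : HeightOneSpectrum (𝓞 k)}
    (hp : (Ideal.absNorm m.asIdeal).Prime) {x y : ℕ} (hx : x < Ideal.absNorm m.asIdeal)
    (hy : y < Ideal.absNorm m.asIdeal) (hxy : (x : 𝓞 k) - y ∈ m.asIdeal) : x = y := by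
  have hpm : ((Ideal.absNorm m.asIdeal : ℕ) : 𝓞 k) ∈ m.asIdeal := Ideal.absNorm_mem _
  have hd : ((Ideal.absNorm m.asIdeal : ℕ) : ℤ) ∣ (x : ℤ) - y := by
    by_contra hnd
    obtain ⟨a, b, hab⟩ :=
      ((Nat.prime_iff_prime_int.mp hp).coprime_iff_not_dvd).mpr hnd
    have h1 : (1 : 𝓞 k) ∈ m.asIdeal := by
      have h2 : (a : 𝓞 k) * ((Ideal.absNorm m.asIdeal : ℕ) : 𝓞 k) +
          (b : 𝓞 k) * ((x : 𝓞 k) - y) = 1 := by
        have := congrArg (Int.cast : ℤ → 𝓞 k) hab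
        push_cast at this
        exact this
      rw [← h2]
      exact m.asIdeal.add_mem (m.asIdeal.mul_mem_left _ hpm) (m.asIdeal.mul_mem_left _ hxy)
    exact m.isPrime.ne_top ((Ideal.eq_top_iff_one _).mpr h1)
  have h3 := Int.eq_zero_of_abs_lt_dvd hd (by rw [abs_lt]; constructor <;> omega)
  omega

/-- a monic polynomial of degree `n` has at most `n` roots modulo `m` -/
private theorem t3_11_roots {f : (𝓞 k)[X]} {n : ℕ} (hdeg : f.natDegree = n) (hf : f.Monic)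
    {m : HeightOneSpectrum (𝓞 k)} (hp : (Ideal.absNorm m.asIdeal).Prime) (R : Finset ℕ)
    (hR : ∀ x ∈ R, x < Ideal.absNorm m.asIdeal ∧ f.eval (x : 𝓞 k) ∈ m.asIdeal) :
    R.card ≤ n := by
  classical
  have := m.isPrime
  have hF : (f.map (Ideal.Quotient.mk m.asIdeal)).Monic := hf.map _
  have h1 : R.card ≤ (f.map (Ideal.Quotient.mk m.asIdeal)).roots.toFinset.card := by
    refine Finset.card_le_card_of_injOn
      (fun x : ℕ => Ideal.Quotient.mk m.asIdeal (x : 𝓞 k)) ?_ ?_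
    · intro x hx
      rw [Finset.mem_coe, Multiset.mem_toFinset, mem_roots hF.ne_zero, IsRoot.def,
        eval_map, eval₂_hom, Ideal.Quotient.eq_zero_iff_mem]
      exact (hR x hx).2
    · intro x hx y hy hxy
      exact t3_11_inj hp (hR x hx).1 (hR y hy).1 (Ideal.Quotient.eq.mp hxy)
  refine h1.trans ((Multiset.toFinset_card_le _).trans ((card_roots' _).trans ?_))
  exact (natDegree_map_le).trans hdeg.le

/-- pairs `(m, x)` with `f (x)` in `m` -/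
private theorem t3_11_side {f : (𝓞 k)[X]} {n : ℕ} (hdeg : f.natDegree = n) (hf : f.Monic)
    (M : Finset (HeightOneSpectrum (𝓞 k))) (hM : ∀ m ∈ M, (Ideal.absNorm m.asIdeal).Prime)
    (A : Finset (HeightOneSpectrum (𝓞 k) × ℕ)) (hA : ∀ a ∈ A, a.1 ∈ M ∧
      a.2 < Ideal.absNorm a.1.asIdeal ∧ f.eval (a.2 : 𝓞 k) ∈ a.1.asIdeal) :
    A.card ≤ n * M.card := by
  classical
  refine Finset.card_le_mul_card_image_of_maps_to (f := Prod.fst)
    (fun a ha => (hA a ha).1) n ?_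
  intro m hm
  have hinj : Set.InjOn (Prod.snd : HeightOneSpectrum (𝓞 k) × ℕ → ℕ)
      ((A.filter fun a => a.1 = m : Finset _) : Set _) := by
    intro a ha c hc hac
    rw [Finset.mem_coe, Finset.mem_filter] at ha hc
    exact Prod.ext (ha.2.trans hc.2.symm) hac
  rw [← Finset.card_image_of_injOn hinj]
  refine t3_11_roots hdeg hf (hM m hm) _ ?_
  intro x hx
  rw [Finset.mem_image] at hx
  obtain ⟨a, ha, rfl⟩ := hx
  rw [Finset.mem_filter] at ha
  obtain ⟨-, h2, h3⟩ := hA a ha.1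
  rw [ha.2] at h2 h3
  exact ⟨h2, h3⟩

open scoped Classical in
/-- each polynomial has few planted quadruples -/
private theorem t3_11_mult {n K1 K2 h u v : ℕ} {f : (𝓞 k)[X]} (hdeg : f.natDegree = n)
    (hf : f.Monic) {S T : Finset (HeightOneSpectrum (𝓞 k))} (hS : PS h u S) (hT : PS h v T)
    (h1 : (S.filter fun m => ∃ x : 𝓞 k, Dbl m.asIdeal x f).card ≤ K1)
    (h2 : (T.filter fun l => ∃ x : 𝓞 k, f.eval x ∈ l.asIdeal ∧ f.eval x ∉ l.asIdeal ^ 2 ∧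
      f.derivative.eval x ∈ l.asIdeal).card ≤ K2)
    (G : Finset (Σ _ : (Σ _ : HeightOneSpectrum (𝓞 k), ℕ), HeightOneSpectrum (𝓞 k) × ℕ))
    (hG : ∀ i ∈ G, i.1.1 ∈ S ∧ i.1.2 < Ideal.absNorm i.1.1.asIdeal ∧ i.2.1 ∈ T ∧
      i.2.2 < Ideal.absNorm i.2.1.asIdeal ∧ Dbl i.1.1.asIdeal (i.1.2 : 𝓞 k) f ∧
      D1 i.2.1.asIdeal (i.2.2 : 𝓞 k) f ∧ f.eval (i.2.2 : 𝓞 k) ∉ i.2.1.asIdeal ^ 2) :
    G.card ≤ K1 * K2 * n ^ 2 := by
  set A : Finset (HeightOneSpectrum (𝓞 k) × ℕ) := G.image fun i => (i.1.1, i.1.2) with hA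
  set B : Finset (HeightOneSpectrum (𝓞 k) × ℕ) := G.image fun i => i.2 with hB
  have hAc : A.card ≤ n * K1 := by
    refine (t3_11_side hdeg hf _ (fun m hm => hS.prime m (Finset.mem_filter.mp hm).1) A
      ?_).trans (Nat.mul_le_mul_left n h1)
    intro a ha
    rw [hA, Finset.mem_image] at ha
    obtain ⟨i, hi, rfl⟩ := ha
    obtain ⟨p1, p2, p3, p4, p5, p6, p7⟩ := hG i hi
    exact ⟨Finset.mem_filter.mpr ⟨p1, _, p5⟩, p2, Ideal.pow_le_self two_ne_zero p5.1⟩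
  have hBc : B.card ≤ n * K2 := by
    refine (t3_11_side hdeg hf _ (fun m hm => hT.prime m (Finset.mem_filter.mp hm).1) B
      ?_).trans (Nat.mul_le_mul_left n h2)
    intro a ha
    rw [hB, Finset.mem_image] at ha
    obtain ⟨i, hi, rfl⟩ := ha
    obtain ⟨p1, p2, p3, p4, p5, p6, p7⟩ := hG i hi
    exact ⟨Finset.mem_filter.mpr ⟨p3, _, p6.1, p7, p6.2⟩, p4, p6.1⟩
  have hGc : G.card ≤ (A ×ˢ B).card := by
    refine Finset.card_le_card_of_injOn (fun i => ((i.1.1, i.1.2), i.2)) ?_ ?_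
    · intro i hi
      rw [Finset.mem_coe] at hi
      rw [Finset.mem_coe, Finset.mem_product]
      exact ⟨Finset.mem_image_of_mem _ hi, Finset.mem_image_of_mem _ hi⟩
    · rintro ⟨⟨a, b⟩, c⟩ - ⟨⟨a', b'⟩, c'⟩ - hij
      simp only [Prod.mk.injEq] at hij
      obtain ⟨⟨rfl, rfl⟩, rfl⟩ := hij
      rfl
  rw [Finset.card_product] at hGc
  calc G.card ≤ A.card * B.card := hGc
    _ ≤ (n * K1) * (n * K2) := Nat.mul_le_mul hAc hBc
    _ = K1 * K2 * n ^ 2 := by ring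

/-- the ranges of the norms are disjoint -/
private theorem t3_11_ne {h u v : ℕ} (hh : 1 ≤ h) (hu : 1 ≤ u) (hv : 1 ≤ v) (huv : u ≠ v)
    {S T : Finset (HeightOneSpectrum (𝓞 k))} (hS : PS h u S) (hT : PS h v T)
    {m l : HeightOneSpectrum (𝓞 k)} (hm : m ∈ S) (hl : l ∈ T) : m ≠ l := by
  rintro rfl
  have h1 := hS.lo m hm
  have h2 := hS.hi m hm
  have h3 := hT.lo m hl
  have h4 := hT.hi m hl
  rcases Nat.lt_or_gt_of_ne huv with hlt | hlt
  · have h5 : h ^ u ≤ h ^ (v - 1) := Nat.pow_le_pow_right hh (by omega)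
    omega
  · have h5 : h ^ v ≤ h ^ (u - 1) := Nat.pow_le_pow_right hh (by omega)
    omega

omit [NumberField k] in
/-- moving the residue: values -/
private theorem t3_11_move2 {f : (𝓞 k)[X]} {m : Ideal (𝓞 k)} {x y : 𝓞 k} (hxy : y - x ∈ m)
    (hd : f.derivative.eval x ∈ m) : f.eval y - f.eval x ∈ m ^ 2 := by
  obtain ⟨z, hz⟩ := f.binomExpansion x (y - x)
  rw [add_sub_cancel] at hz
  have h1 : f.eval y - f.eval x =
      f.derivative.eval x * (y - x) + z * ((y - x) * (y - x)) := by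
    rw [hz]; ring
  rw [h1, pow_two]
  exact Ideal.add_mem _ (Ideal.mul_mem_mul hd hxy)
    (Ideal.mul_mem_left _ _ (Ideal.mul_mem_mul hxy hxy))

omit [NumberField k] in
/-- moving the residue: derivatives -/
private theorem t3_11_move1 {f : (𝓞 k)[X]} {m : Ideal (𝓞 k)} {x y : 𝓞 k} (hxy : y - x ∈ m)
    (hd : f.eval x ∈ m) : f.eval y ∈ m := by
  have h1 : f.eval y - f.eval x ∈ m := by
    obtain ⟨z, hz⟩ := sub_dvd_eval_sub y x f
    rw [hz]
    exact Ideal.mul_mem_right _ _ hxy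
  have h2 := m.add_mem h1 hd
  rwa [sub_add_cancel] at h2

/-- the common residue -/
private theorem t3_11_pl {f : (𝓞 k)[X]} {m l : HeightOneSpectrum (𝓞 k)} (hml : m ≠ l)
    {x x' : 𝓞 k} (h1 : Dbl m.asIdeal x f) (h2 : D1 l.asIdeal x' f)
    (h3 : f.eval x' ∉ l.asIdeal ^ 2) : ∃ y : 𝓞 k, Pl f m.asIdeal l.asIdeal y := by
  have hco : m.asIdeal ⊔ l.asIdeal = ⊤ := by
    have := m.isMaximal
    have := l.isMaximal
    refine Ideal.IsMaximal.coprime_of_ne m.isMaximal l.isMaximal ?_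
    intro he
    exact hml (HeightOneSpectrum.ext he)
  have h1m : (1 : 𝓞 k) ∈ m.asIdeal ⊔ l.asIdeal := by rw [hco]; trivial
  obtain ⟨a, ha, b, hb, hab⟩ := Submodule.mem_sup.mp h1m
  have e1 : x * b + x' * a - x ∈ m.asIdeal := by
    have : x * b + x' * a - x = (x' - x) * a := by linear_combination x * hab
    rw [this]
    exact Ideal.mul_mem_left _ _ ha
  have e2 : x * b + x' * a - x' ∈ l.asIdeal := by
    have : x * b + x' * a - x' = (x - x') * b := by linear_combination x' * hab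
    rw [this]
    exact Ideal.mul_mem_left _ _ hb
  refine ⟨x * b + x' * a, ?_, ?_, ?_, ?_, ?_⟩
  · have := Ideal.add_mem _ (t3_11_move2 e1 h1.2) h1.1
    rwa [sub_add_cancel] at this
  · exact t3_11_move1 e1 h1.2
  · exact t3_11_move1 e2 h2.1
  · intro hc
    have := Ideal.sub_mem _ hc (t3_11_move2 e2 h2.2)
    rw [sub_sub_cancel] at this
    exact h3 this
  · exact t3_11_move1 e2 h2.2

end

section

variable (k : Type) [Field k] [NumberField k]

open scoped Classical in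
/-- at least half of the pairs are good -/
private theorem t3_11_many (d ρ b u : ℕ) (hu : 2 ≤ u)
    (hc : Module.finrank ℚ k * (2 * ρ * (d + 1) + b * d * (d + 1)) + 12 ≤ 2 * u) :
    ∃ h0 : ℕ, ∀ h ≥ h0, ∀ S : Finset (HeightOneSpectrum (𝓞 k)), PS h u S →
      h ^ (u - 1) ≤ S.card → h ^ (2 * u - 2) ≤
      2 * (S.sigma fun m => (Finset.range (Ideal.absNorm m.asIdeal)).filter fun x : ℕ =>
        ¬ ∃ g : (𝓞 k)[X], g ≠ 0 ∧ InBox h b d ρ g ∧ g.eval (x : 𝓞 k) ∈ m.asIdeal).card := by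
  obtain ⟨h0, H⟩ := bad_pairs k d ρ b u hu hc
  refine ⟨max h0 2, fun h hh S hS hSc => ?_⟩
  have a1 : h0 ≤ h := le_trans (le_max_left _ _) hh
  have a2 : 2 ≤ h := le_trans (le_max_right _ _) hh
  have b1 := H h a1 S hS
  rw [Finset.card_sigma]
  have hone : ∀ m ∈ S, h ^ (u - 1) ≤
      ((Finset.range (Ideal.absNorm m.asIdeal)).filter fun x : ℕ =>
        ¬ ∃ g : (𝓞 k)[X], g ≠ 0 ∧ InBox h b d ρ g ∧ g.eval (x : 𝓞 k) ∈ m.asIdeal).card +
      ((Finset.range (Ideal.absNorm m.asIdeal)).filter fun x : ℕ =>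
        ∃ g : (𝓞 k)[X], g ≠ 0 ∧ InBox h b d ρ g ∧ g.eval (x : 𝓞 k) ∈ m.asIdeal).card := by
    intro m hm
    have h1 := Finset.card_filter_add_card_filter_not
      (s := Finset.range (Ideal.absNorm m.asIdeal)) (p := fun x : ℕ =>
        ∃ g : (𝓞 k)[X], g ≠ 0 ∧ InBox h b d ρ g ∧ g.eval (x : 𝓞 k) ∈ m.asIdeal)
    rw [Finset.card_range] at h1
    have h2 := (hS.lo m hm).le
    omega
  have hsum := Finset.sum_le_sum hone
  rw [Finset.sum_add_distrib, Finset.sum_const, smul_eq_mul] at hsum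
  have e1 : h ^ (2 * u - 2) ≤ S.card * h ^ (u - 1) := by
    calc h ^ (2 * u - 2) = h ^ (u - 1) * h ^ (u - 1) := by rw [← pow_add]; congr 1; omega
      _ ≤ _ := Nat.mul_le_mul_right _ hSc
  have e2 : 2 * h ^ (2 * u - 5) ≤ h ^ (2 * u - 2) := by
    calc 2 * h ^ (2 * u - 5) ≤ h * h ^ (2 * u - 5) := Nat.mul_le_mul_right _ a2
      _ = h ^ (2 * u - 5 + 1) := by rw [pow_succ]; ring
      _ ≤ h ^ (2 * u - 2) := Nat.pow_le_pow_right (by omega) (by omega)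
  omega

open scoped Classical in
theorem fam_count3 (n N0 b u v d0 ρ0 κ0 ρT κT K1 K2 : ℕ) (s : (𝓞 k)[X]) (hN0 : 0 < N0)
    (hs : s.Monic) (hsn : s.natDegree = n)
    (hc : Cond (Module.finrank ℚ k) n b u v d0 ρ0 κ0 ρT κT)
    (hfew : ∃ h0 : ℕ, ∀ h ≥ h0, ∀ S T : Finset (HeightOneSpectrum (𝓞 k)), PS h u S → PS h v T →
      ∀ f : (𝓞 k)[X], Fam n N0 s b h f →
      (S.filter fun m => ∃ x : 𝓞 k, Dbl m.asIdeal x f).card ≤ K1 ∧
      (T.filter fun l => ∃ x : 𝓞 k, f.eval x ∈ l.asIdeal ∧ f.eval x ∉ l.asIdeal ^ 2 ∧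
        f.derivative.eval x ∈ l.asIdeal).card ≤ K2) :
    ∃ c : ℝ, 0 < c ∧ ∃ h0 : ℕ, ∀ h ≥ h0, ∃ T : Finset (𝓞 k)[X],
      (∀ f ∈ T, Fam n N0 s b h f ∧ ∃ m l : HeightOneSpectrum (𝓞 k),
        (Ideal.absNorm m.asIdeal).Prime ∧ (Ideal.absNorm l.asIdeal).Prime ∧
        h ^ (u - 1) < Ideal.absNorm m.asIdeal ∧ h ^ (v - 1) < Ideal.absNorm l.asIdeal ∧
        ∃ x : 𝓞 k, Pl f m.asIdeal l.asIdeal x) ∧
      c * (h : ℝ) ^ (Module.finrank ℚ k * (b * (n * (n + 1) / 2 - 1)) - u - 4) ≤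
        T.card := by
  have hu := hc.cu
  have hv := hc.cv
  obtain ⟨h01, H1⟩ := exists_ps k u (by omega)
  obtain ⟨h02, H2⟩ := exists_ps k v (by omega)
  obtain ⟨h03, H3⟩ := t3_11_many k d0 ρ0 b u hu hc.c1
  obtain ⟨c0, hc0, h04, H4⟩ := fam_one_m k n N0 b u v d0 ρ0 κ0 ρT κT s hN0 hs hsn hc
  obtain ⟨h05, H5⟩ := hfew
  set W : ℕ := Module.finrank ℚ k * (b * (n * (n + 1) / 2 - 1)) with hW
  set K : ℝ := 4 * ((K1 * K2 * n ^ 2 : ℕ) + 1) with hK
  have hKn : (0 : ℝ) ≤ ((K1 * K2 * n ^ 2 : ℕ) : ℝ) := Nat.cast_nonneg _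
  have hK0 : 0 < K := by rw [hK]; positivity
  refine ⟨min 1 (c0 / K), lt_min one_pos (div_pos hc0 hK0),
    max (max (max h01 h02) (max h03 h04)) (max h05 1), fun h hh => ?_⟩
  have a12 : max h01 h02 ≤ h :=
    le_trans (le_trans (le_max_left _ _) (le_max_left _ _)) hh
  have a34 : max h03 h04 ≤ h :=
    le_trans (le_trans (le_max_right _ _) (le_max_left _ _)) hh
  have a1 : h01 ≤ h := le_trans (le_max_left _ _) a12
  have a2 : h02 ≤ h := le_trans (le_max_right _ _) a12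
  have a3 : h03 ≤ h := le_trans (le_max_left _ _) a34
  have a4 : h04 ≤ h := le_trans (le_max_right _ _) a34
  have a5 : h05 ≤ h := le_trans (le_trans (le_max_left _ _) (le_max_right _ _)) hh
  have a6 : 1 ≤ h := le_trans (le_trans (le_max_right _ _) (le_max_right _ _)) hh
  obtain ⟨S, hS, hSc⟩ := H1 h a1
  obtain ⟨T, hT, hTc⟩ := H2 h a2
  set P : Finset (Σ _ : HeightOneSpectrum (𝓞 k), ℕ) :=
    S.sigma fun m => (Finset.range (Ideal.absNorm m.asIdeal)).filter fun x : ℕ =>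
      ¬ ∃ g : (𝓞 k)[X], g ≠ 0 ∧ InBox h b d0 ρ0 g ∧ g.eval (x : 𝓞 k) ∈ m.asIdeal with hP
  have hPc : h ^ (2 * u - 2) ≤ 2 * P.card := H3 h a3 S hS hSc
  have hPm : ∀ p ∈ P, p.1 ∈ S ∧ p.2 < Ideal.absNorm p.1.asIdeal ∧
      ∀ g : (𝓞 k)[X], g ≠ 0 → InBox h b d0 ρ0 g → g.eval (p.2 : 𝓞 k) ∉ p.1.asIdeal := by
    intro p hp
    rw [hP, Finset.mem_sigma, Finset.mem_filter, Finset.mem_range] at hp
    exact ⟨hp.1, hp.2.1, fun g hg hgb hgm => hp.2.2 ⟨g, hg, hgb, hgm⟩⟩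
  have hexG : ∀ p : (Σ _ : HeightOneSpectrum (𝓞 k), ℕ),
      ∃ G : Finset (HeightOneSpectrum (𝓞 k) × ℕ), p ∈ P → (∀ e ∈ G, e.1 ∈ T ∧
          e.2 < Ideal.absNorm e.1.asIdeal ∧ ∃ U : Finset (𝓞 k)[X],
          (∀ f ∈ U, Fam n N0 s b h f ∧ Dbl p.1.asIdeal (p.2 : 𝓞 k) f ∧
            D1 e.1.asIdeal (e.2 : 𝓞 k) f ∧ f.eval (e.2 : 𝓞 k) ∉ e.1.asIdeal ^ 2) ∧
          c0 * (h : ℝ) ^ W ≤
            (Ideal.absNorm p.1.asIdeal : ℝ) ^ 3 * (Ideal.absNorm e.1.asIdeal : ℝ) ^ 2 *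
              U.card) ∧
        h ^ (2 * v - 2) ≤ 2 * G.card := by
    intro p
    by_cases hp : p ∈ P
    · obtain ⟨p1, p2, p3⟩ := hPm p hp
      obtain ⟨G, hG⟩ := H4 h a4 S T hS hT hTc p.1 p1 p.2 p3
      exact ⟨G, fun _ => hG⟩
    · exact ⟨∅, fun hp' => absurd hp' hp⟩
  choose G hG using hexG
  set I : Finset (Σ _ : (Σ _ : HeightOneSpectrum (𝓞 k), ℕ), HeightOneSpectrum (𝓞 k) × ℕ) :=
    P.sigma G with hI
  have hIm : ∀ i ∈ I, i.1 ∈ P ∧ i.2 ∈ G i.1 := fun i hi => by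
    rw [hI, Finset.mem_sigma] at hi
    exact hi
  have hIc : h ^ (2 * u - 2) * h ^ (2 * v - 2) ≤ 4 * I.card := by
    have h1 : P.card * h ^ (2 * v - 2) ≤ ∑ p ∈ P, 2 * (G p).card := by
      calc P.card * h ^ (2 * v - 2) = ∑ p ∈ P, h ^ (2 * v - 2) := by
            rw [Finset.sum_const, smul_eq_mul]
        _ ≤ _ := Finset.sum_le_sum fun p hp => (hG p hp).2
    rw [← Finset.mul_sum, ← Finset.card_sigma] at h1
    calc h ^ (2 * u - 2) * h ^ (2 * v - 2) ≤ (2 * P.card) * h ^ (2 * v - 2) :=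
          Nat.mul_le_mul_right _ hPc
      _ = 2 * (P.card * h ^ (2 * v - 2)) := by ring
      _ ≤ 2 * (2 * (P.sigma G).card) := Nat.mul_le_mul_left _ h1
      _ = 4 * I.card := by rw [hI]; ring
  have hexU : ∀ i : (Σ _ : (Σ _ : HeightOneSpectrum (𝓞 k), ℕ), HeightOneSpectrum (𝓞 k) × ℕ),
      ∃ U : Finset (𝓞 k)[X], i ∈ I →
        (∀ f ∈ U, Fam n N0 s b h f ∧ Dbl i.1.1.asIdeal (i.1.2 : 𝓞 k) f ∧
            D1 i.2.1.asIdeal (i.2.2 : 𝓞 k) f ∧ f.eval (i.2.2 : 𝓞 k) ∉ i.2.1.asIdeal ^ 2) ∧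
          c0 * (h : ℝ) ^ W ≤
            (Ideal.absNorm i.1.1.asIdeal : ℝ) ^ 3 * (Ideal.absNorm i.2.1.asIdeal : ℝ) ^ 2 *
              U.card := by
    intro i
    by_cases hi : i ∈ I
    · obtain ⟨i1, i2⟩ := hIm i hi
      obtain ⟨-, -, U, hU⟩ := (hG i.1 i1).1 i.2 i2
      exact ⟨U, fun _ => hU⟩
    · exact ⟨∅, fun hi' => absurd hi' hi⟩
  choose U hU using hexU
  have hh0 : (0 : ℝ) < h := by exact_mod_cast a6
  have hh1 : (1 : ℝ) ≤ h := by exact_mod_cast a6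
  have hD : (0 : ℝ) < (h : ℝ) ^ (3 * u + 2 * v) := by positivity
  have hdc := t3_11_double I U (c0 * (h : ℝ) ^ W / (h : ℝ) ^ (3 * u + 2 * v))
    ((K1 * K2 * n ^ 2 : ℕ) : ℝ)
    (fun i hi => by
      obtain ⟨i1, i2⟩ := hIm i hi
      obtain ⟨p1, p2, -⟩ := hPm i.1 i1
      obtain ⟨q1, q2, -⟩ := (hG i.1 i1).1 i.2 i2
      have r1 : (Ideal.absNorm i.1.1.asIdeal : ℝ) ≤ (h : ℝ) ^ u := by
        exact_mod_cast hS.hi _ p1
      have r2 : (Ideal.absNorm i.2.1.asIdeal : ℝ) ≤ (h : ℝ) ^ v := by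
        exact_mod_cast hT.hi _ q1
      rw [div_le_iff₀ hD]
      calc c0 * (h : ℝ) ^ W ≤ (Ideal.absNorm i.1.1.asIdeal : ℝ) ^ 3 *
            (Ideal.absNorm i.2.1.asIdeal : ℝ) ^ 2 * (U i).card := (hU i hi).2
        _ ≤ ((h : ℝ) ^ u) ^ 3 * ((h : ℝ) ^ v) ^ 2 * (U i).card := by gcongr
        _ = ((U i).card : ℝ) * (h : ℝ) ^ (3 * u + 2 * v) := by
            rw [pow_add, pow_mul', pow_mul']; ring)
    (fun f hf => by
      rw [Finset.mem_biUnion] at hf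
      obtain ⟨i, hi, hfi⟩ := hf
      have hF := ((hU i hi).1 f hfi).1
      obtain ⟨q1, q2⟩ := H5 h a5 S T hS hT f hF
      have := t3_11_mult hF.deg hF.monic hS hT q1 q2 (I.filter fun i => f ∈ U i) (by
        intro j hj
        rw [Finset.mem_filter] at hj
        obtain ⟨j1, j2⟩ := hIm j hj.1
        obtain ⟨p1, p2, -⟩ := hPm j.1 j1
        obtain ⟨q1, q2, -⟩ := (hG j.1 j1).1 j.2 j2
        obtain ⟨-, s1, s2, s3⟩ := (hU j hj.1).1 f hj.2
        exact ⟨p1, p2, q1, q2, s1, s2, s3⟩)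
      exact_mod_cast this)
  refine ⟨I.biUnion U, ?_, ?_⟩
  · intro f hf
    rw [Finset.mem_biUnion] at hf
    obtain ⟨i, hi, hfi⟩ := hf
    obtain ⟨i1, i2⟩ := hIm i hi
    obtain ⟨p1, p2, -⟩ := hPm i.1 i1
    obtain ⟨q1, q2, -⟩ := (hG i.1 i1).1 i.2 i2
    obtain ⟨s0, s1, s2, s3⟩ := (hU i hi).1 f hfi
    refine ⟨s0, i.1.1, i.2.1, hS.prime _ p1, hT.prime _ q1, hS.lo _ p1, hT.lo _ q1, ?_⟩
    exact t3_11_pl (t3_11_ne a6 (by omega) (by omega) hc.cuv hS hT p1 q1) s1 s2 s3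
  · set N : ℝ := ((I.biUnion U).card : ℝ) with hN
    have hN0' : 0 ≤ N := Nat.cast_nonneg _
    have hIr : (h : ℝ) ^ (2 * (u + v) - 4) ≤ 4 * (I.card : ℝ) := by
      have e0 : (h : ℝ) ^ (2 * (u + v) - 4) = (h : ℝ) ^ (2 * u - 2) * (h : ℝ) ^ (2 * v - 2) := by
        rw [← pow_add]; congr 1; omega
      rw [e0]
      exact_mod_cast hIc
    rw [div_mul_eq_mul_div, div_le_iff₀ hD] at hdc
    have e1 : (h : ℝ) ^ (3 * u + 2 * v) = (h : ℝ) ^ (2 * (u + v) - 4) * (h : ℝ) ^ (u + 4) := by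
      rw [← pow_add]; congr 1; omega
    have hX : (0 : ℝ) < (h : ℝ) ^ (2 * (u + v) - 4) := by positivity
    have e2 : (h : ℝ) ^ (2 * (u + v) - 4) * (c0 * (h : ℝ) ^ W) ≤
        (h : ℝ) ^ (2 * (u + v) - 4) * (K * (h : ℝ) ^ (u + 4) * N) := by
      have e3 : (h : ℝ) ^ (2 * (u + v) - 4) * (c0 * (h : ℝ) ^ W) ≤
          4 * (c0 * (h : ℝ) ^ W * I.card) := by
        have : 0 ≤ c0 * (h : ℝ) ^ W := by positivity
        nlinarith
      refine e3.trans ?_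
      rw [e1] at hdc
      have e4 : ((K1 * K2 * n ^ 2 : ℕ) : ℝ) * N *
          ((h : ℝ) ^ (2 * (u + v) - 4) * (h : ℝ) ^ (u + 4)) * 4 ≤
          (h : ℝ) ^ (2 * (u + v) - 4) * (K * (h : ℝ) ^ (u + 4) * N) := by
        rw [hK]
        have e5 : 0 ≤ (h : ℝ) ^ (2 * (u + v) - 4) * (4 * (h : ℝ) ^ (u + 4) * N) := by
          positivity
        nlinarith [e5]
      linarith
    have e6 : c0 * (h : ℝ) ^ W ≤ K * (h : ℝ) ^ (u + 4) * N := le_of_mul_le_mul_left e2 hX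
    by_cases hcase : u + 4 ≤ W
    · have e7 : (h : ℝ) ^ W = (h : ℝ) ^ (W - u - 4) * (h : ℝ) ^ (u + 4) := by
        rw [← pow_add]; congr 1; omega
      have e9 : (h : ℝ) ^ (u + 4) * (c0 * (h : ℝ) ^ (W - u - 4)) ≤
          (h : ℝ) ^ (u + 4) * (K * N) := by
        calc (h : ℝ) ^ (u + 4) * (c0 * (h : ℝ) ^ (W - u - 4)) = c0 * (h : ℝ) ^ W := by
              rw [e7]; ring
          _ ≤ K * (h : ℝ) ^ (u + 4) * N := e6
          _ = (h : ℝ) ^ (u + 4) * (K * N) := by ring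
      have e10 := le_of_mul_le_mul_left e9 (by positivity)
      calc min 1 (c0 / K) * (h : ℝ) ^ (W - u - 4) ≤ c0 / K * (h : ℝ) ^ (W - u - 4) := by
            gcongr; exact min_le_right _ _
        _ = (c0 * (h : ℝ) ^ (W - u - 4)) / K := by ring
        _ ≤ N := by rw [div_le_iff₀ hK0]; linarith
    · have e11 : W - u - 4 = 0 := by omega
      rw [e11, pow_zero, mul_one]
      refine (min_le_left _ _).trans ?_
      have e12 : 0 < N := by
        by_contra hcon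
        have : N = 0 := le_antisymm (not_lt.mp hcon) hN0'
        rw [this, mul_zero] at e6
        have : 0 < c0 * (h : ℝ) ^ W := by positivity
        linarith
      rw [hN] at e12 ⊢
      exact_mod_cast Nat.cast_pos.mp e12

end

end Pool.Agent.H96.T3
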