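import Pool.Agent.H96.T3.FamC
import Pool.Agent.H98.TQ.Few
import Pool.Agent.H98.TQ.MemK
import Pool.Agent.H98.TQ.DiscS
import Pool.Agent.H98.TQ.Low
import Pool.Agent.H98.TQ.High
import Pool.Agent.H98.TQ.Class2

/-!
# Project T3 (MP_a3214d), row T3-12: the number of fields from the family
-/

set_option autoImplicit false

open Polynomial IsDedekindDomain NumberField Pool.Agent.H35.AN
open Pool.Agent.H67.MU (Bdd)
open Pool.Agent.H92.SQ2 (gg WW)
open Pool.Agent.H98.TQ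

namespace Pool.Agent.H96.T3

section

variable (k : Type) [Field k] [NumberField k]

/-- a field with a large discriminant is thin -/
theorem t3_12_thin (n r b v : ℕ)
    (hv2 : Module.finrank ℚ k * (2 * b * gg n (r + 1)) + 2 ≤ v) (C0 : ℝ)
    (hC0 : 1 ≤ C0) (hn : 1 ≤ n) : ∃ h0 : ℕ, ∀ h : ℕ, h0 ≤ h → ∀ (K : Type) [Field K]
      [NumberField K] [Algebra k K], SymK k n K →
      (h : ℝ) ^ (v - 1) ≤ |(NumberField.discr K : ℝ)| →
      Thin k r (2 * n * (C0 * (h : ℝ) ^ b)) K := by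
  obtain ⟨C1, hC1, hd⟩ := disc_small k n (r + 1) (by omega)
  set G := gg n (r + 1) with hG
  set D := Module.finrank ℚ k with hD
  obtain ⟨h0, hh0⟩ := exists_nat_gt (C1 * (2 * n * C0) ^ (D * (2 * G)))
  refine ⟨max h0 1, fun h hh K _ _ _ hK hDi z hz hli => ?_⟩
  have hh1 : (1 : ℝ) ≤ h := by exact_mod_cast (le_max_right h0 1).trans hh
  have hh2 : C1 * (2 * n * C0) ^ (D * (2 * G)) < h := by
    refine hh0.trans_le ?_
    exact_mod_cast (le_max_left h0 1).trans hh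
  have hn1 : (1 : ℝ) ≤ n := by exact_mod_cast hn
  have hhb : (1 : ℝ) ≤ (h : ℝ) ^ b := one_le_pow₀ hh1
  have hR : (1 : ℝ) ≤ 2 * n * (C0 * (h : ℝ) ^ b) := by
    have h1 : (1 : ℝ) ≤ C0 * (h : ℝ) ^ b := one_le_mul_of_one_le_of_one_le hC0 hhb
    nlinarith
  have h1 := hd K hK _ hR z hz hli
  have h2 : C1 * (2 * n * (C0 * (h : ℝ) ^ b)) ^ (D * (2 * G)) =
      C1 * (2 * n * C0) ^ (D * (2 * G)) * (h : ℝ) ^ (D * (2 * b * G)) := by
    have e : 2 * (n : ℝ) * (C0 * (h : ℝ) ^ b) = (2 * n * C0) * (h : ℝ) ^ b := by ring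
    rw [e, mul_pow, ← pow_mul]
    have e2 : b * (D * (2 * G)) = D * (2 * b * G) := by ring
    rw [e2]
    ring
  have hpos : (0 : ℝ) < (h : ℝ) ^ (D * (2 * b * G)) := by positivity
  have h3 : (h : ℝ) ^ (D * (2 * b * G) + 1) ≤ (h : ℝ) ^ (v - 1) :=
    pow_le_pow_right₀ hh1 (by omega)
  have h4 : (h : ℝ) ^ (D * (2 * b * G) + 1) ≤
      C1 * (2 * n * C0) ^ (D * (2 * G)) * (h : ℝ) ^ (D * (2 * b * G)) := by
    rw [← h2]
    exact h3.trans (hDi.trans h1)
  rw [pow_succ, mul_comm] at h4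
  have h5 := le_of_mul_le_mul_right h4 hpos
  linarith

theorem field_count3 (n r b u v w d0 ρ0 κ0 ρT κT : ℕ) (hr : 1 ≤ r) (hrn : r + 2 ≤ n)
    (hc : Cond (Module.finrank ℚ k) n b u v d0 ρ0 κ0 ρT κT)
    (hv2 : Module.finrank ℚ k * (2 * b * gg n (r + 1)) + 2 ≤ v) (hw : w ≤ b)
    (hw2 : Module.finrank ℚ k * (w * (n * (n + 1) / 2 - 1) + (b - w + 1) * r) + u + 5 ≤
      Module.finrank ℚ k * (b * (n * (n + 1) / 2 - 1))) :
    ∃ c C : ℝ, 0 < c ∧ 0 < C ∧ ∃ h0 : ℕ, ∀ h : ℕ, h0 ≤ h →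
      c * (h : ℝ) ^ (Module.finrank ℚ k * (b * (n * (n + 1) / 2 - 1)) - u - 4 -
          Module.finrank ℚ k * ((b - w) * r)) ≤
        (malleCount k n ⊤
          (C * (h : ℝ) ^ (Module.finrank ℚ k * (b * n * (n - 1)) - 2 * (u - 1))) : ℝ) := by
  classical
  have hn : 4 ≤ n := hc.cn
  have hb : 1 ≤ b := hc.cb
  have hu : 2 ≤ u := hc.cu
  have hv : 2 ≤ v := hc.cv
  obtain ⟨N0, s, C0, hN0, hs, hsn, hC0, hmem⟩ := mem_key k n (by omega)
  obtain ⟨hm1, hfm⟩ := few_m k n b u hu C0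
  obtain ⟨hl1, hfl⟩ := few_l k n b v hv C0
  set D := Module.finrank ℚ k with hD
  have hfew : ∃ h0 : ℕ, ∀ h ≥ h0, ∀ S T : Finset (HeightOneSpectrum (𝓞 k)), PS h u S →
      PS h v T → ∀ f : (𝓞 k)[X], Fam n N0 s b h f →
      (S.filter fun m => ∃ x : 𝓞 k, Dbl m.asIdeal x f).card ≤ D * (b * n * (n - 1)) ∧
      (T.filter fun l => ∃ x : 𝓞 k, f.eval x ∈ l.asIdeal ∧ f.eval x ∉ l.asIdeal ^ 2 ∧
        f.derivative.eval x ∈ l.asIdeal).card ≤ D * (b * n * (n - 1)) + 1 := by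
    refine ⟨max (max hm1 hl1) 1, fun h hh S T hS hT f hf => ?_⟩
    have hhm : hm1 ≤ h := (le_max_left _ _).trans ((le_max_left _ _).trans hh)
    have hhl : hl1 ≤ h := (le_max_right _ _).trans ((le_max_left _ _).trans hh)
    have hh1 : 1 ≤ h := (le_max_right _ _).trans hh
    obtain ⟨-, -, hdm, x, -, -, hnf, -, hDi, -, hdl⟩ := hmem b h hh1 f hf
    refine ⟨hfm h hhm S hS f hdm, ?_⟩
    refine le_trans (Finset.card_le_card ?_) (hfl h hhl
      (NumberField.discr (IntermediateField.adjoin k {x}))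
      (NumberField.discr_ne_zero _) hDi T hT)
    intro l hl
    rw [Finset.mem_filter] at hl ⊢
    refine ⟨hl.1, ?_⟩
    obtain ⟨y, h1, h2, h3⟩ := hl.2
    exact hdl l y (hT.prime l hl.1) h1 h2 h3
  obtain ⟨c1, hc10, hf1, hfam⟩ := fam_count3 k n N0 b u v d0 ρ0 κ0 ρT κT _ _ s hN0 hs hsn hc hfew
  obtain ⟨ht1, hthin⟩ := t3_12_thin k n r b v hv2 C0 hC0 (by omega)
  obtain ⟨C2, hC2, hlow⟩ := low_count k n r (by omega) (by
    have : n ≤ n * (n + 1) / 2 := by
      rw [Nat.le_div_iff_mul_le (by norm_num)]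
      nlinarith
    omega) C0 hC0
  obtain ⟨C3, hC3, hhigh⟩ := high_mult k n r (by omega) C0 hC0
  set W := n * (n + 1) / 2 - 1 with hW
  obtain ⟨hk1, hhk⟩ := exists_nat_gt (2 * (C2 * (w + 1)) / c1)
  refine ⟨c1 / (2 * C3), C0, by positivity, by linarith,
    max (max hf1 ht1) (max hk1 2), fun h hh => ?_⟩
  have hhf : hf1 ≤ h := (le_max_left _ _).trans ((le_max_left _ _).trans hh)
  have hht : ht1 ≤ h := (le_max_right _ _).trans ((le_max_left _ _).trans hh)
  have hhk' : hk1 ≤ h := (le_max_left _ _).trans ((le_max_right _ _).trans hh)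
  have hh2 : 2 ≤ h := (le_max_right _ _).trans ((le_max_right _ _).trans hh)
  have hh1 : (1 : ℝ) ≤ h := by
    have : (2 : ℝ) ≤ h := by exact_mod_cast hh2
    linarith
  have hh0 : (0 : ℝ) < h := by linarith
  obtain ⟨T, hT, hTc⟩ := hfam h hhf
  set B : ℝ := C0 * (h : ℝ) ^ (D * (b * n * (n - 1)) - 2 * (u - 1)) with hB
  -- everything about one member
  have hone : ∀ f ∈ T, Mb n (C0 * (h : ℝ) ^ b) (s.coeff (n - 1)) f ∧
      ∃ x : AlgebraicClosure k, aeval x (FK f) = 0 ∧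
        IsSymF k n (IntermediateField.adjoin k {x}) ∧
        ∃ _ : NumberField (IntermediateField.adjoin k {x}),
          SymK k n (IntermediateField.adjoin k {x}) ∧
          |(NumberField.discr (IntermediateField.adjoin k {x}) : ℝ)| ≤ B ∧
          Thin k r (2 * n * (C0 * (h : ℝ) ^ b)) (IntermediateField.adjoin k {x}) := by
    intro f hf
    obtain ⟨hF, m, l, hmp, hlp, hmu, hlv, y, hpl⟩ := hT f hf
    obtain ⟨hirr, hrt, -, x, hx, hsym, hnf, hsk, -, hDm, hDl⟩ := hmem b h (by omega) f hF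
    refine ⟨⟨hF.deg, hF.monic, hF.snd, hirr, hrt⟩, x, hx, hsym, hnf, hsk, ?_, ?_⟩
    · have h1 := hDm m.asIdeal y m.ne_bot ⟨hpl.m2, hpl.m1⟩
      have h2 : (h : ℝ) ^ (u - 1) ≤ (Ideal.absNorm m.asIdeal : ℝ) := by exact_mod_cast hmu.le
      have h3 : (h : ℝ) ^ (2 * (u - 1)) ≤ (Ideal.absNorm m.asIdeal : ℝ) ^ 2 := by
        rw [mul_comm 2, pow_mul]
        exact pow_le_pow_left₀ (by positivity) h2 2
      have h4 : (h : ℝ) ^ (D * (b * n * (n - 1))) ≤
          (h : ℝ) ^ (D * (b * n * (n - 1)) - 2 * (u - 1)) * (h : ℝ) ^ (2 * (u - 1)) := by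
        rw [← pow_add]
        exact pow_le_pow_right₀ hh1 (by omega)
      have h5 : (0 : ℝ) < (h : ℝ) ^ (2 * (u - 1)) := by positivity
      refine le_of_mul_le_mul_right ?_ h5
      calc |(NumberField.discr (IntermediateField.adjoin k {x}) : ℝ)| * (h : ℝ) ^ (2 * (u - 1)) ≤
          |(NumberField.discr (IntermediateField.adjoin k {x}) : ℝ)| *
            (Ideal.absNorm m.asIdeal : ℝ) ^ 2 :=
            mul_le_mul_of_nonneg_left h3 (abs_nonneg _)
        _ ≤ C0 * (h : ℝ) ^ (D * (b * n * (n - 1))) := h1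
        _ ≤ C0 * ((h : ℝ) ^ (D * (b * n * (n - 1)) - 2 * (u - 1)) * (h : ℝ) ^ (2 * (u - 1))) :=
            mul_le_mul_of_nonneg_left h4 (by linarith)
        _ = B * (h : ℝ) ^ (2 * (u - 1)) := by rw [hB]; ring
    · refine hthin h hht _ hsk ?_
      have h1 := hDl l y hlp hpl.l1 hpl.l2 hpl.l3
      have h2 : ((Ideal.absNorm l.asIdeal : ℕ) : ℤ) ≤
          |NumberField.discr (IntermediateField.adjoin k {x})| :=
        Int.le_of_dvd (abs_pos.2 (NumberField.discr_ne_zero _)) ((dvd_abs _ _).2 h1)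
      have h3 : (Ideal.absNorm l.asIdeal : ℝ) ≤
          |(NumberField.discr (IntermediateField.adjoin k {x}) : ℝ)| := by
        exact_mod_cast h2
      have h4 : (h : ℝ) ^ (v - 1) ≤ (Ideal.absNorm l.asIdeal : ℝ) := by exact_mod_cast hlv.le
      exact h4.trans h3
  -- the low part
  set P : (𝓞 k)[X] → Prop := fun f => ∃ (K : Type) (_ : Field K) (_ : NumberField K)
    (_ : Algebra k K) (y : K),
    aeval y (FK f) = 0 ∧ SymK k n K ∧ Thin k r (2 * n * (C0 * (h : ℝ) ^ b)) K ∧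
      ∃ z : K, z ≠ 0 ∧ Sh k ((h : ℝ) ^ w) z with hP
  have hTl : ((T.filter P).card : ℝ) ≤ c1 / 2 * (h : ℝ) ^ (D * (b * W) - u - 4) := by
    have h1 := hlow h b w (s.coeff (n - 1)) hh2 hw (T.filter P) (fun f hf => by
      rw [Finset.mem_filter] at hf
      exact ⟨(hone f hf.1).1, hf.2⟩)
    have h2 : (h : ℝ) ^ (D * (w * W + (b - w + 1) * r)) ≤ (h : ℝ) ^ (D * (b * W) - u - 5) :=
      pow_le_pow_right₀ hh1 (by omega)
    have h3 : (h : ℝ) ^ (D * (b * W) - u - 4) = (h : ℝ) ^ (D * (b * W) - u - 5) * h := by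
      rw [← pow_succ]
      congr 1
      omega
    have h4 : C2 * (w + 1) ≤ c1 / 2 * h := by
      have h5 : 2 * (C2 * (w + 1)) / c1 < h := hhk.trans_le (by exact_mod_cast hhk')
      rw [div_lt_iff₀ hc10] at h5
      linarith
    have h6 : (0 : ℝ) < (h : ℝ) ^ (D * (b * W) - u - 5) := by positivity
    calc ((T.filter P).card : ℝ) ≤ C2 * (w + 1) * (h : ℝ) ^ (D * (w * W + (b - w + 1) * r)) := h1
      _ ≤ C2 * (w + 1) * (h : ℝ) ^ (D * (b * W) - u - 5) :=
          mul_le_mul_of_nonneg_left h2 (by positivity)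
      _ ≤ c1 / 2 * h * (h : ℝ) ^ (D * (b * W) - u - 5) := mul_le_mul_of_nonneg_right h4 h6.le
      _ = c1 / 2 * (h : ℝ) ^ (D * (b * W) - u - 4) := by rw [h3]; ring
  have hTh : c1 / 2 * (h : ℝ) ^ (D * (b * W) - u - 4) ≤ ((T.filter fun f => ¬ P f).card : ℝ) := by
    have h1 : (T.filter P).card + (T.filter fun f => ¬ P f).card = T.card :=
      Finset.card_filter_add_card_filter_not P
    have h2 : ((T.filter P).card : ℝ) + ((T.filter fun f => ¬ P f).card : ℝ) = T.card := by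
      exact_mod_cast h1
    linarith
  -- the high part
  set N : ℕ := ⌊C3 * (h : ℝ) ^ (D * ((b - w) * r))⌋₊ with hN
  have hgen : ∀ (f : (𝓞 k)[X]) (x : AlgebraicClosure k), aeval x (FK f) = 0 →
      aeval (IntermediateField.AdjoinSimple.gen k x) (FK f) = 0 := by
    intro f x hx
    apply (algebraMap (IntermediateField.adjoin k {x}) (AlgebraicClosure k)).injective
    rw [map_zero, ← hx]
    conv_rhs => rw [← IntermediateField.AdjoinSimple.algebraMap_gen k x]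
    rw [aeval_def, aeval_def, hom_eval₂]
    congr 1
  have hcls := class_sym k n B (T.filter fun f => ¬ P f) N (fun f hf => by
      rw [Finset.mem_filter] at hf
      obtain ⟨hMb, x, hx, hsym, hnf, -, hDi, -⟩ := hone f hf.1
      exact ⟨hMb.deg, hMb.irr, x, hx, hsym, hnf, hDi⟩) (fun f hf G hG hiso => by
      rw [Finset.mem_filter] at hf
      obtain ⟨hMb, x, hx, -, hnf, hsk, -, hth⟩ := hone f hf.1
      rw [hN]
      refine Nat.le_floor ?_
      refine hhigh h b w (s.coeff (n - 1)) (by omega) hw f hMb.deg hMb.irr ?_ G ?_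
      · refine ⟨IntermediateField.adjoin k {x}, inferInstance, hnf, inferInstance,
          IntermediateField.AdjoinSimple.gen k x, hgen f x hx, hsk, hth, ?_⟩
        intro z hz
        by_contra hz0
        exact hf.2 ⟨IntermediateField.adjoin k {x}, inferInstance, hnf, inferInstance,
          IntermediateField.AdjoinSimple.gen k x, hgen f x hx, hsk, hth, z, hz0, hz⟩
      · intro g hg
        have hgT := (Finset.mem_filter.1 (hG hg)).1
        exact ⟨(hone g hgT).1, hiso g hg⟩)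
  have h1 : ((T.filter fun f => ¬ P f).card : ℝ) ≤
      C3 * (h : ℝ) ^ (D * ((b - w) * r)) * (malleCount k n ⊤ B : ℝ) := by
    have h2 : ((T.filter fun f => ¬ P f).card : ℝ) ≤ (N : ℝ) * (malleCount k n ⊤ B : ℝ) := by
      exact_mod_cast hcls
    refine h2.trans (mul_le_mul_of_nonneg_right ?_ (Nat.cast_nonneg _))
    exact Nat.floor_le (by positivity)
  have h2 : (h : ℝ) ^ (D * (b * W) - u - 4) =
      (h : ℝ) ^ (D * (b * W) - u - 4 - D * ((b - w) * r)) * (h : ℝ) ^ (D * ((b - w) * r)) := by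
    rw [← pow_add]
    congr 1
    have h3 : D * (w * W + (b - w + 1) * r) = D * ((b - w) * r) + D * (w * W + r) := by ring
    omega
  have h3 : (0 : ℝ) < (h : ℝ) ^ (D * ((b - w) * r)) := by positivity
  have h4 := hTh.trans h1
  rw [h2] at h4
  have h5 : c1 / 2 * (h : ℝ) ^ (D * (b * W) - u - 4 - D * ((b - w) * r)) ≤
      C3 * (malleCount k n ⊤ B : ℝ) := by
    refine le_of_mul_le_mul_right ?_ h3
    calc c1 / 2 * (h : ℝ) ^ (D * (b * W) - u - 4 - D * ((b - w) * r)) *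
          (h : ℝ) ^ (D * ((b - w) * r)) =
        c1 / 2 * ((h : ℝ) ^ (D * (b * W) - u - 4 - D * ((b - w) * r)) *
          (h : ℝ) ^ (D * ((b - w) * r))) := by ring
      _ ≤ C3 * (h : ℝ) ^ (D * ((b - w) * r)) * (malleCount k n ⊤ B : ℝ) := h4
      _ = C3 * (malleCount k n ⊤ B : ℝ) * (h : ℝ) ^ (D * ((b - w) * r)) := by ring
  have h6 : c1 / (2 * C3) * (h : ℝ) ^ (D * (b * W) - u - 4 - D * ((b - w) * r)) =
      (c1 / 2 * (h : ℝ) ^ (D * (b * W) - u - 4 - D * ((b - w) * r))) / C3 := by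
    have : C3 ≠ 0 := by linarith
    field_simp
  rw [h6, div_le_iff₀ (by linarith)]
  linarith

end

end Pool.Agent.H96.T3
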