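import Pool.Agent.H96.T3.Ineq17

/-!
# Project T3: the exponent for `n ≥ 7`
-/

set_option autoImplicit false

open Pool.Agent.H92.SQ2 (gg WW)

namespace Pool.Agent.H96.T3

theorem ineq7 (n : ℕ) (hn : 7 ≤ n) : ∃ r : ℕ, 1 ≤ r ∧ r + 2 ≤ n ∧ 0 < mu3 n r ∧
    1 / 2 + 1 / (n : ℝ) < ee3 n r := by
  rcases Nat.lt_or_ge n 17 with h17 | h17
  · have h : n = 7 ∨ n = 8 ∨ n = 9 ∨ n = 10 ∨ n = 11 ∨ n = 12 ∨ n = 13 ∨ n = 14 ∨ n = 15 ∨
        n = 16 := by omega
    rcases h with rfl | rfl | rfl | rfl | rfl | rfl | rfl | rfl | rfl | rfl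
    · refine ⟨5, by norm_num, by norm_num, ?_, ?_⟩ <;>
        norm_num [ee3, mu3, lam3, WW, gg, Finset.sum_range_succ]
    · refine ⟨6, by norm_num, by norm_num, ?_, ?_⟩ <;>
        norm_num [ee3, mu3, lam3, WW, gg, Finset.sum_range_succ]
    · refine ⟨6, by norm_num, by norm_num, ?_, ?_⟩ <;>
        norm_num [ee3, mu3, lam3, WW, gg, Finset.sum_range_succ]
    · refine ⟨6, by norm_num, by norm_num, ?_, ?_⟩ <;>
        norm_num [ee3, mu3, lam3, WW, gg, Finset.sum_range_succ]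
    · refine ⟨7, by norm_num, by norm_num, ?_, ?_⟩ <;>
        norm_num [ee3, mu3, lam3, WW, gg, Finset.sum_range_succ]
    · refine ⟨7, by norm_num, by norm_num, ?_, ?_⟩ <;>
        norm_num [ee3, mu3, lam3, WW, gg, Finset.sum_range_succ]
    · refine ⟨7, by norm_num, by norm_num, ?_, ?_⟩ <;>
        norm_num [ee3, mu3, lam3, WW, gg, Finset.sum_range_succ]
    · refine ⟨7, by norm_num, by norm_num, ?_, ?_⟩ <;>
        norm_num [ee3, mu3, lam3, WW, gg, Finset.sum_range_succ]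
    · refine ⟨6, by norm_num, by norm_num, ?_, ?_⟩ <;>
        norm_num [ee3, mu3, lam3, WW, gg, Finset.sum_range_succ]
    · refine ⟨7, by norm_num, by norm_num, ?_, ?_⟩ <;>
        norm_num [ee3, mu3, lam3, WW, gg, Finset.sum_range_succ]
  · obtain ⟨r, h1, h2, h3, h4⟩ := ineq17 n h17
    refine ⟨r, h1, h2, h3, lt_of_le_of_lt ?_ h4⟩
    have hn0 : (0 : ℝ) < n := by
      have : (17 : ℝ) ≤ n := by exact_mod_cast h17
      linarith
    have h5 : 1 / (n : ℝ) ≤ 109 / (100 * n) := by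
      rw [div_le_div_iff₀ hn0 (by positivity)]
      nlinarith
    linarith

end Pool.Agent.H96.T3
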