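import Pool.Agent.H96.T3.FieldC
import Pool.Agent.H96.T3.Params7
import Pool.Agent.H96.T3.Ineq7
import Pool.Agent.H92.SQ2.Rpow
import Pool.Agent.H41.Rel.Count

/-!
# Project T3: the lower bound for every number field `k` and every `n ≥ 7`
-/

set_option autoImplicit false

open Polynomial IsDedekindDomain NumberField Pool.Agent.H35.AN
open Pool.Agent.H92.SQ2 (gg WW)

namespace Pool.Agent.H96.T3

theorem lower3 (k : Type) [Field k] [NumberField k] (n r : ℕ) (hn : 7 ≤ n) (hr : 1 ≤ r)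
    (hrn : r + 2 ≤ n) (hμ : 0 < mu3 n r) (θ : ℝ) (hθ : θ < ee3 n r) :
    ∀ᶠ B : ℝ in Filter.atTop, B ^ θ ≤ (malleCount k n ⊤ B : ℝ) := by
  obtain ⟨b, u, v, w, d0, ρ0, κ0, ρT, κT, hc, hv2, hw, hw2, he2, he⟩ :=
    params7 (Module.finrank ℚ k) n r Module.finrank_pos hn hr hrn hμ θ hθ
  obtain ⟨c, C, hc0, hC0, h0, hN⟩ :=
    field_count3 k n r b u v w d0 ρ0 κ0 ρT κT hr hrn hc hv2 hw hw2
  exact Pool.Agent.H92.SQ2.final_rpow2 (malleCount k n ⊤) (fun _ _ h => Pool.Agent.H41.Rel.malleCount_mono k n ⊤ h) _ _ he2 θ c C he hc0 hC0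
    h0 hN

theorem lower7 (k : Type) [Field k] [NumberField k] (n : ℕ) (hn : 7 ≤ n) :
    ∃ θ : ℝ, 1 / 2 + 1 / (n : ℝ) < θ ∧
      ∀ᶠ B : ℝ in Filter.atTop, B ^ θ ≤ (malleCount k n ⊤ B : ℝ) := by
  obtain ⟨r, h1, h2, h3, h4⟩ := ineq7 n hn
  obtain ⟨θ, h5, h6⟩ := exists_between h4
  exact ⟨θ, h5, lower3 k n r hn h1 h2 h3 θ h6⟩

theorem lower17 (k : Type) [Field k] [NumberField k] (n : ℕ) (hn : 17 ≤ n) :
    ∀ᶠ B : ℝ in Filter.atTop,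
      B ^ (1 / 2 + 109 / (100 * (n : ℝ))) ≤ (malleCount k n ⊤ B : ℝ) := by
  obtain ⟨r, h1, h2, h3, h4⟩ := ineq17 n hn
  exact lower3 k n r (by omega) h1 h2 h3 _ h4

end Pool.Agent.H96.T3
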