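import Pool.Agent.H96.T3.Defs

/-!
# Project T3, row T3-14: the exponent for `n ≥ 17`
-/

set_option autoImplicit false

open Pool.Agent.H92.SQ2 (gg WW)

namespace Pool.Agent.H96.T3

/-- reduction of the inequality for the exponent to an inequality for `mu3` -/
private theorem t3_14_red (n : ℕ) (hn : 17 ≤ n) (m : ℝ) (hm0 : 0 < m) (hm : m ≤ mu3 n 7)
    (h : 9 * ((n : ℝ) - 1) * n * ((n : ℝ) ^ 2 + n - 16) <
      m * (218 * ((n : ℝ) ^ 2 + n - 16) - 1400 * n)) :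
    0 < mu3 n 7 ∧ 1 / 2 + 109 / (100 * (n : ℝ)) < ee3 n 7 := by
  have hn' : (17 : ℝ) ≤ n := by exact_mod_cast hn
  have hmu0 : 0 < mu3 n 7 := lt_of_lt_of_le hm0 hm
  refine ⟨hmu0, ?_⟩
  have hW : WW n = ((n : ℝ) - 1) * (n + 2) / 2 := rfl
  have hlam : 0 ≤ lam3 n 7 := by
    rw [lam3]
    exact le_max_of_le_left (by positivity)
  have hmW : mu3 n 7 ≤ WW n / 3 := by
    rw [mu3]; linarith
  have hWr : 0 < WW n - ((7 : ℕ) : ℝ) := by
    rw [hW]; push_cast; nlinarith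
  have hX : 0 < (n : ℝ) * (n - 1) - 2 * mu3 n 7 := by
    rw [hW] at hmW; nlinarith
  have hq : 0 < (n : ℝ) ^ 2 + n - 16 := by nlinarith
  have hc : 0 ≤ 218 * ((n : ℝ) ^ 2 + n - 16) - 1400 * n := by nlinarith
  have h' : 9 * ((n : ℝ) - 1) * n * ((n : ℝ) ^ 2 + n - 16) <
      mu3 n 7 * (218 * ((n : ℝ) ^ 2 + n - 16) - 1400 * n) :=
    lt_of_lt_of_le h (mul_le_mul_of_nonneg_right hm hc)
  rw [ee3, lt_div_iff₀ hX]
  have hn0 : (0 : ℝ) < n := by linarith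
  have h1 : mu3 n 7 * WW n / (WW n - ((7 : ℕ) : ℝ)) =
      mu3 n 7 + mu3 n 7 * 14 / ((n : ℝ) ^ 2 + n - 16) := by
    have e1 : WW n - ((7 : ℕ) : ℝ) = ((n : ℝ) ^ 2 + n - 16) / 2 := by
      rw [hW]; push_cast; ring
    have e2 : WW n = (((n : ℝ) ^ 2 + n - 16) + 14) / 2 := by
      rw [hW]; ring
    rw [e1, e2]
    generalize (n : ℝ) ^ 2 + n - 16 = q at hq
    have hq0 : q ≠ 0 := hq.ne'
    field_simp
  have h2 : 9 * ((n : ℝ) - 1) / 100 < mu3 n 7 * 218 / (100 * n) -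
      mu3 n 7 * 14 / ((n : ℝ) ^ 2 + n - 16) := by
    rw [div_sub_div _ _ (by positivity) hq.ne', div_lt_div_iff₀ (by norm_num) (by positivity)]
    nlinarith
  have h3 : (1 / 2 + 109 / (100 * (n : ℝ))) * ((n : ℝ) * (n - 1) - 2 * mu3 n 7) =
      WW n + 9 * ((n : ℝ) - 1) / 100 - mu3 n 7 - mu3 n 7 * 218 / (100 * n) := by
    rw [hW]
    field_simp
    ring
  rw [h1, h3]
  linarith

private theorem t3_14_gg (n : ℕ) (hn : 1 ≤ n) :
    16 * (gg n 8 : ℝ) ≤ ((n : ℝ) - 1) * (n + 14) := by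
  have h : ∀ m : ℕ, 16 * gg (m + 1) 8 ≤ m * (m + 15) := by
    intro m
    induction m with
    | zero => simp [gg]
    | succ m ih =>
      have e : gg (m + 1 + 1) 8 = gg (m + 1) 8 + (m + 1 + 8 - 1) / 8 := by
        rw [gg, Finset.sum_range_succ, ← gg]
      rw [e]
      have h2 : 8 * ((m + 1 + 8 - 1) / 8) ≤ m + 8 := by omega
      nlinarith
  obtain ⟨m, rfl⟩ : ∃ m, n = m + 1 := ⟨n - 1, by omega⟩
  have h1 : ((16 * gg (m + 1) 8 : ℕ) : ℝ) ≤ ((m * (m + 15) : ℕ) : ℝ) := by exact_mod_cast h m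
  push_cast at h1 ⊢
  nlinarith

private theorem t3_14_small (n : ℕ) (h1 : 17 ≤ n) (h2 : n < 30) :
    ∃ m : ℝ, 0 < m ∧ m ≤ mu3 n 7 ∧ 9 * ((n : ℝ) - 1) * n * ((n : ℝ) ^ 2 + n - 16) <
      m * (218 * ((n : ℝ) ^ 2 + n - 16) - 1400 * n) := by
  refine ⟨mu3 n 7, ?_, le_rfl, ?_⟩
  · interval_cases n <;> norm_num [mu3, lam3, WW, gg, Finset.sum_range_succ]
  · interval_cases n <;> norm_num [mu3, lam3, WW, gg, Finset.sum_range_succ]

theorem ineq17 (n : ℕ) (hn : 17 ≤ n) : ∃ r : ℕ, 1 ≤ r ∧ r + 2 ≤ n ∧ 0 < mu3 n r ∧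
    1 / 2 + 109 / (100 * (n : ℝ)) < ee3 n r := by
  refine ⟨7, by norm_num, by omega, ?_⟩
  rcases Nat.lt_or_ge n 30 with h30 | h30
  · obtain ⟨m, m0, m1, m2⟩ := t3_14_small n hn h30
    exact t3_14_red n hn m m0 m1 m2
  · have hn' : (30 : ℝ) ≤ n := by exact_mod_cast h30
    refine t3_14_red n hn (((n : ℝ) - 1) * (n - 10) / 12) ?_ ?_ ?_
    · apply div_pos _ (by norm_num)
      apply mul_pos <;> linarith
    · have hg := t3_14_gg n (by omega)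
      have hq : (((n ^ 2 + 2 * n) / 4 : ℕ) : ℝ) ≤ ((n : ℝ) ^ 2 + 2 * n) / 4 := by
        have := @Nat.cast_div_le ℝ _ _ _ (n ^ 2 + 2 * n) 4
        push_cast at this ⊢
        exact this
      have hl : lam3 n 7 ≤ ((n : ℝ) - 1) * (n + 14) / 8 := by
        rw [lam3]
        apply max_le
        · show 2 * (gg n 8 : ℝ) ≤ _
          linarith
        · nlinarith
      rw [mu3, show WW n = ((n : ℝ) - 1) * (n + 2) / 2 from rfl]
      nlinarith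
    · have key : 0 < ((n : ℝ) - 10) * (218 * ((n : ℝ) ^ 2 + n - 16) - 1400 * n) -
          108 * n * ((n : ℝ) ^ 2 + n - 16) := by
        nlinarith [mul_nonneg (mul_nonneg (sub_nonneg.2 hn') (sub_nonneg.2 hn')) (sub_nonneg.2 hn'),
          mul_nonneg (sub_nonneg.2 hn') (sub_nonneg.2 hn')]
      have h1 : 0 < ((n : ℝ) - 1) / 12 := by linarith
      have h2 := mul_pos h1 key
      nlinarith

end Pool.Agent.H96.T3
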