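import Pool.Agent.H96.T3.Defs

/-! Project T3 (MP_a3214d), row T3-13: choice of the parameters -/

set_option autoImplicit false

open Polynomial IsDedekindDomain NumberField
open Pool.Agent.H92.SQ2 (gg WW)

namespace Pool.Agent.H96.T3

private theorem t3_13_ev {c d : ℝ} (hc : 0 < c) :
    ∀ᶠ b : ℕ in Filter.atTop, d < c * (b : ℝ) :=
  ((tendsto_natCast_atTop_atTop (R := ℝ)).const_mul_atTop hc).eventually_gt_atTop d

/-- the degree `d0` -/
private theorem t3_13_d0 (M : ℝ) (hM : 0 < M) :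
    ∃ d0 : ℕ, (d0 : ℝ) * (d0 + 1) < 2 * M ∧ 2 * M ≤ ((d0 : ℝ) + 1) * (d0 + 2) := by
  classical
  have hex : ∃ j : ℕ, 2 * M ≤ ((j : ℝ) + 1) * (j + 2) := by
    obtain ⟨j, hj⟩ := exists_nat_ge (2 * M)
    refine ⟨j, ?_⟩
    have hj0 : (0 : ℝ) ≤ j := Nat.cast_nonneg _
    nlinarith
  refine ⟨Nat.find hex, ?_, Nat.find_spec hex⟩
  by_cases h0 : Nat.find hex = 0
  · rw [h0]; push_cast; linarith
  · have h1 : Nat.find hex - 1 < Nat.find hex := by omega
    have h2 := Nat.find_min hex h1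
    push Not at h2
    have h3 : ((Nat.find hex - 1 : ℕ) : ℝ) = (Nat.find hex : ℝ) - 1 := by
      rw [Nat.cast_sub (by omega)]; norm_num
    rw [h3] at h2
    have h4 : ((Nat.find hex : ℝ) - 1 + 1) * ((Nat.find hex : ℝ) - 1 + 2) =
        (Nat.find hex : ℝ) * (Nat.find hex + 1) := by ring
    rw [h4] at h2
    exact h2

/-- a value slightly below `M3` -/
private theorem t3_13_M (M3 e s t : ℝ) (hM3 : 0 < M3) (he : e < 2 * M3)
    (hg : 0 < s + t * M3) : ∃ M : ℝ, 0 < M ∧ M < M3 ∧ e < 2 * M ∧ 0 < s + t * M := by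
  have h1 : ∀ᶠ x in nhds M3, 0 < x := (continuous_id.continuousAt).eventually_const_lt hM3
  have h2 : ∀ᶠ x in nhds M3, e < 2 * x :=
    ((continuous_const.mul continuous_id).continuousAt (x := M3)).eventually_const_lt he
  have h3 : ∀ᶠ x in nhds M3, 0 < s + t * x :=
    ((continuous_const.add (continuous_const.mul continuous_id)).continuousAt
      (x := M3)).eventually_const_lt hg
  have h4 : ∀ᶠ x in nhdsWithin M3 (Set.Iio M3), (0 < x ∧ e < 2 * x ∧ 0 < s + t * x) ∧ x < M3 :=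
    ((h1.and (h2.and h3)).filter_mono nhdsWithin_le_nhds).and self_mem_nhdsWithin
  obtain ⟨M, ⟨h5, h6, h7⟩, h8⟩ := h4.exists
  exact ⟨M, h5, h8, h6, h7⟩

theorem params3 (D n r : ℕ) (hD : 1 ≤ D) (hn : 12 ≤ n) (hr : 1 ≤ r) (hrn : r + 2 ≤ n)
    (hμ : 0 < mu3 n r) (θ : ℝ) (hθ : θ < ee3 n r) : ∃ b u v w d0 ρ0 κ0 ρT κT : ℕ,
      Cond D n b u v d0 ρ0 κ0 ρT κT ∧
      D * (2 * b * gg n (r + 1)) + 2 ≤ v ∧ w ≤ b ∧
      D * (w * (n * (n + 1) / 2 - 1) + (b - w + 1) * r) + u + 5 ≤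
        D * (b * (n * (n + 1) / 2 - 1)) ∧
      0 < D * (b * n * (n - 1)) - 2 * (u - 1) ∧
      θ * ((D * (b * n * (n - 1)) - 2 * (u - 1) : ℕ) : ℝ) <
        ((D * (b * (n * (n + 1) / 2 - 1)) - u - 4 - D * ((b - w) * r) : ℕ) : ℝ) := by
  obtain ⟨G, hG⟩ : ∃ G, G = gg n (r + 1) := ⟨_, rfl⟩
  obtain ⟨F, hF⟩ : ∃ F, F = (n ^ 2 + 2 * n) / 4 := ⟨_, rfl⟩
  -- the integer W
  obtain ⟨W, hW⟩ : ∃ W, W = n * (n + 1) / 2 - 1 := ⟨_, rfl⟩
  have hW2 : 2 * W + 2 = n * (n + 1) := by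
    have h1 : 2 ∣ n * (n + 1) := (Nat.even_mul_succ_self n).two_dvd
    obtain ⟨m, hm⟩ := h1
    have h2 : 12 * 13 ≤ n * (n + 1) := Nat.mul_le_mul hn (by omega)
    rw [hW, hm]; omega
  obtain ⟨n1, hn1⟩ : ∃ n1, n = n1 + 1 := ⟨n - 1, by omega⟩
  obtain ⟨n2, hn2⟩ : ∃ n2, n = n2 + 2 := ⟨n - 2, by omega⟩
  have hn1' : n - 1 = n1 := by omega
  have hn2' : n - 2 = n2 := by omega
  have hn1R : (n : ℝ) = n1 + 1 := by exact_mod_cast hn1
  have hn2R : (n : ℝ) = n2 + 2 := by exact_mod_cast hn2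
  have hnR : (12 : ℝ) ≤ n := by exact_mod_cast hn
  have hn0 : (0 : ℝ) < n := by linarith
  have hrR : (1 : ℝ) ≤ r := by exact_mod_cast hr
  have hrnR : (r : ℝ) + 2 ≤ n := by exact_mod_cast hrn
  have hdR : (1 : ℝ) ≤ D := by exact_mod_cast hD
  have hd0 : (0 : ℝ) < D := by linarith
  have hWR2 : (2 : ℝ) * W + 2 = n * (n + 1) := by exact_mod_cast hW2
  have hWR : WW n = (W : ℝ) := by
    unfold WW; linarith
  have hF1 : 4 * F ≤ n ^ 2 + 2 * n := by rw [hF]; exact Nat.mul_div_le _ _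
  have hF2 : n ^ 2 + 2 * n ≤ 4 * F + 3 := by rw [hF]; omega
  have hF1R : 4 * (F : ℝ) ≤ n ^ 2 + 2 * n := by exact_mod_cast hF1
  have hF2R : (n : ℝ) ^ 2 + 2 * n ≤ 4 * F + 3 := by exact_mod_cast hF2
  have hsq : 12 * (n : ℝ) ≤ n * n := mul_le_mul_of_nonneg_right hnR hn0.le
  obtain ⟨L, hL⟩ : ∃ L, L = lam3 n r := ⟨_, rfl⟩
  have hLG : 2 * (G : ℝ) ≤ L := by rw [hL, hG]; exact le_max_left _ _
  have hLF : (F : ℝ) / 2 ≤ L := by rw [hL, hF]; exact le_max_right _ _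
  obtain ⟨M3, hM3⟩ : ∃ M3, M3 = mu3 n r := ⟨_, rfl⟩
  have hM3L : 3 * M3 = W - 2 * L := by rw [hM3, mu3, hWR, hL]; ring
  have hM3le : 12 * M3 ≤ n ^ 2 - 1 := by linarith
  rw [← hM3] at hμ
  have hG0 : (0 : ℝ) ≤ G := Nat.cast_nonneg _
  have hWr : 0 < (W : ℝ) - r := by linarith
  have hden3 : 0 < (n : ℝ) * (n - 1) - 2 * M3 := by linarith
  have hg3 : 0 < (W - θ * (n * (n - 1))) + (2 * θ - W / (W - r)) * M3 := by
    rw [ee3, hWR, ← hM3, lt_div_iff₀ hden3] at hθ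
    have : M3 * W / ((W : ℝ) - r) = W / (W - r) * M3 := by ring
    linarith
  obtain ⟨d0, hd1, hd2⟩ := t3_13_d0 M3 hμ
  obtain ⟨M, hM0, hMM3, hMd, hMg⟩ := t3_13_M M3 ((d0 : ℝ) * (d0 + 1)) _ _ hμ hd1 hg3
  have hMle : 12 * M < n ^ 2 - 1 := by linarith
  have hWrM : 0 < (W : ℝ) - r - M := by linarith
  have hden : 0 < (n : ℝ) * (n - 1) - 2 * M := by linarith
  obtain ⟨la, hla⟩ : ∃ la, la = ((W : ℝ) - 3 * M) / 2 := ⟨_, rfl⟩
  have hlaL : L < la := by rw [hla]; linarith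
  have hlaM : M < la := by rw [hla]; linarith
  have hlan : (n : ℝ) < la := by linarith
  -- the gap
  obtain ⟨g, hg⟩ : ∃ g, g = ((W : ℝ) - M * W / (W - r)) - θ * ((n : ℝ) * (n - 1) - 2 * M) :=
    ⟨_, rfl⟩
  have hg0 : 0 < g := by
    rw [hg]
    have : M * W / ((W : ℝ) - r) = W / (W - r) * M := by ring
    linarith
  obtain ⟨E, hE⟩ : ∃ E, E = 16 * (D : ℝ) * (n - 1) / 3 := ⟨_, rfl⟩
  have hE3 : 6 * E = 32 * (D : ℝ) * (n - 1) := by rw [hE]; ring
  have hDn : (n : ℝ) - 1 ≤ D * (n - 1) := by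
    have : 0 ≤ ((D : ℝ) - 1) * (n - 1) := mul_nonneg (by linarith) (by linarith)
    linarith
  have hE0 : 58 < E := by linarith
  obtain ⟨K, hK⟩ : ∃ K, K = (5 + (D : ℝ) * r) / (W - r) + D := ⟨_, rfl⟩
  obtain ⟨γ, hγ⟩ : ∃ γ, γ = ((d0 : ℝ) + 1) * (d0 + 2) - 2 * M := ⟨_, rfl⟩
  have hγ0 : 0 < γ := by rw [hγ]; linarith
  obtain ⟨β, hβ⟩ : ∃ β, β = 2 * M - (d0 : ℝ) * (d0 + 1) := ⟨_, rfl⟩
  have hβ0 : 0 < β := by rw [hβ]; linarith
  -- choice of b
  have c4 : 0 < 2 * la - F := by linarith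
  have c5 : 0 < la := by linarith
  have c6 : 0 < la - n := by linarith
  have c7 : 0 < la - 2 * G := by linarith
  have c13 : 0 < la - M := by linarith
  obtain ⟨b, ⟨hb1, hb2, hb3, hb4⟩, ⟨hb5, hb6, hb7, hb8⟩, ⟨hb9, hb10, hb11, hb12⟩⟩ : ∃ b : ℕ,
      ((E + 2 < M * D * b ∧ 12 + 2 * E < β * D * b ∧
        (2 * (d0 : ℝ) + 33) * (d0 + 1) < γ * b ∧ 12 < (2 * la - F) * D * b) ∧
      (7 + 3 * E < la * D * b ∧ 2 < (la - n) * D * b ∧ 2 < (la - 2 * G) * D * b ∧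
        |θ| * (2 * E + 10) + 2 + r * K < g * D * b) ∧
      (5 + (D : ℝ) * r < (W - r - M) * D * b ∧ (8 : ℝ) < 1 * b ∧
        (0 : ℝ) < (n * (n - 1) - 2 * M) * D * b ∧ (1 : ℝ) < (la - M) * D * b)) := by
    have hA := ((t3_13_ev (d := E + 2) (mul_pos hM0 hd0)).and
      ((t3_13_ev (d := 12 + 2 * E) (mul_pos hβ0 hd0)).and
      ((t3_13_ev (d := (2 * (d0 : ℝ) + 33) * (d0 + 1)) hγ0).and
      (t3_13_ev (d := 12) (mul_pos c4 hd0)))))
    have hB := ((t3_13_ev (d := 7 + 3 * E) (mul_pos c5 hd0)).and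
      ((t3_13_ev (d := 2) (mul_pos c6 hd0)).and
      ((t3_13_ev (d := 2) (mul_pos c7 hd0)).and
      (t3_13_ev (d := |θ| * (2 * E + 10) + 2 + r * K) (mul_pos hg0 hd0)))))
    have hC := ((t3_13_ev (d := 5 + (D : ℝ) * r) (mul_pos hWrM hd0)).and
      ((t3_13_ev (d := 8) one_pos).and
      ((t3_13_ev (d := 0) (mul_pos hden hd0)).and
      (t3_13_ev (d := 1) (mul_pos c13 hd0)))))
    obtain ⟨b, hb⟩ := (hA.and (hB.and hC)).exists
    exact ⟨b, hb⟩
  have hb8' : 8 < b := by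
    have : (8 : ℝ) < b := by linarith
    exact_mod_cast this
  obtain ⟨c, hc⟩ : ∃ c, b = c + 8 := ⟨b - 8, by omega⟩
  have hcR : (b : ℝ) = c + 8 := by exact_mod_cast hc
  obtain ⟨A, hA⟩ : ∃ A, A = D * (2 * n1 * (2 * c) + b * n1 * n2) := ⟨_, rfl⟩
  have hAR : (A : ℝ) = 2 * (D * b * W) - 6 * E := by
    have h1 : (A : ℝ) = D * (2 * n1 * (2 * c) + b * n1 * n2) := by
      rw [hA]; push_cast; ring
    have h2 : (n1 : ℝ) = n - 1 := by linarith
    have h3 : (n2 : ℝ) = n - 2 := by linarith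
    have h4 : (c : ℝ) = b - 8 := by linarith
    have h5 : (W : ℝ) = (n * (n + 1) - 2) / 2 := by linarith
    rw [h1, h2, h3, h4, h5, hE3]
    ring
  -- choice of v
  obtain ⟨v, hv1, hv2⟩ : ∃ v : ℕ, la * D * b ≤ v ∧ (v : ℝ) < la * D * b + 1 :=
    ⟨⌈la * D * b⌉₊, Nat.le_ceil _, Nat.ceil_lt_add_one (by positivity)⟩
  have hla2 : 2 * (la * D * b) = D * b * W - 3 * (M * D * b) := by rw [hla]; ring
  have hTT : 4 * v ≤ A + 25 := by
    have h1 : 4 * (v : ℝ) ≤ A + 25 := by linarith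
    exact_mod_cast h1
  obtain ⟨T, hT⟩ : ∃ T, A + 25 = 4 * v + T := ⟨A + 25 - 4 * v, by omega⟩
  obtain ⟨u, hu1, hu2⟩ : ∃ u, 6 * u ≤ T ∧ T ≤ 6 * u + 5 := ⟨T / 6, by omega, by omega⟩
  have hu1R : 6 * (u : ℝ) + 4 * v ≤ A + 25 := by
    have : 6 * u + 4 * v ≤ A + 25 := by omega
    exact_mod_cast this
  have hu2R : (A : ℝ) + 20 ≤ 6 * u + 4 * v := by
    have : A + 20 ≤ 6 * u + 4 * v := by omega
    exact_mod_cast this
  have huR1 : (u : ℝ) ≤ M * D * b - 2 := by linarith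
  have huR2 : M * D * b - E < (u : ℝ) := by linarith
  have hu0 : 2 ≤ u := by
    have : (2 : ℝ) < u := by linarith
    exact_mod_cast this.le
  have huv : u < v := by
    have : (u : ℝ) < v := by linarith
    exact_mod_cast this
  -- choice of ρ0
  obtain ⟨X0, hX0⟩ : ∃ X0, 2 * u = X0 + (12 + D * (b * d0 * (d0 + 1))) := by
    have h1 : (12 : ℝ) + D * (b * d0 * (d0 + 1)) ≤ 2 * u := by
      have : β * D * b = 2 * (M * D * b) - D * (b * d0 * (d0 + 1)) := by rw [hβ]; ring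
      linarith
    have h2 : 12 + D * (b * d0 * (d0 + 1)) ≤ 2 * u := by exact_mod_cast h1
    exact ⟨2 * u - (12 + D * (b * d0 * (d0 + 1))), by omega⟩
  have hX0R : 2 * (u : ℝ) = X0 + (12 + D * (b * d0 * (d0 + 1))) := by exact_mod_cast hX0
  have hPP : 0 < D * (2 * (d0 + 1)) := Nat.mul_pos (by omega) (by omega)
  obtain ⟨ρ, hρ1, hρ2⟩ : ∃ ρ, D * (2 * (d0 + 1)) * ρ ≤ X0 ∧
      X0 < D * (2 * (d0 + 1)) * ρ + D * (2 * (d0 + 1)) :=
    ⟨X0 / (D * (2 * (d0 + 1))), Nat.mul_div_le _ _, Nat.lt_mul_div_succ _ hPP⟩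
  have hρ1R : (D : ℝ) * (2 * (d0 + 1)) * ρ ≤ X0 := by exact_mod_cast hρ1
  have hρb : 2 * (ρ + (d0 + 8)) + 1 ≤ 2 * c := by
    have h0 : (0 : ℝ) < D * (d0 + 1) := by positivity
    have h1 : (D : ℝ) * (d0 + 1) * (2 * ρ + (2 * d0 + 33)) ≤ D * (d0 + 1) * (2 * b) := by
      have h2 : (D : ℝ) * ((2 * d0 + 33) * (d0 + 1)) ≤ D * (γ * b) := by gcongr
      have h3 : (D : ℝ) * (γ * b) = D * b * ((d0 + 1) * (d0 + 2)) - 2 * (M * D * b) := by
        rw [hγ]; ring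
      have h4 : (D : ℝ) * (2 * (d0 + 1)) * ρ ≤ 2 * (M * D * b) - D * (b * d0 * (d0 + 1)) := by
        linarith
      linarith
    have h5 : 2 * (ρ : ℝ) + (2 * d0 + 33) ≤ 2 * b := le_of_mul_le_mul_left h1 h0
    have h6 : 2 * ρ + (2 * d0 + 33) ≤ 2 * b := by exact_mod_cast h5
    omega
  have hdn : 2 * d0 ≤ n2 := by
    by_contra hcon
    have h1 : n ≤ 2 * d0 + 1 := by omega
    have h2 : (n : ℝ) ≤ 2 * d0 + 1 := by exact_mod_cast h1
    have h3 : (n : ℝ) * n ≤ (2 * d0 + 1) * (2 * d0 + 1) := mul_self_le_mul_self hn0.le h2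
    linarith
  -- choice of w
  obtain ⟨R, hR⟩ : ∃ R, W = R + r := by
    have : (r : ℝ) < W := by linarith
    have : r < W := by exact_mod_cast this
    exact ⟨W - r, by omega⟩
  have hRR : (W : ℝ) = R + r := by exact_mod_cast hR
  have hR0 : 0 < R := by
    have : (0 : ℝ) < R := by linarith
    exact_mod_cast this
  have hR0R : (0 : ℝ) < R := by exact_mod_cast hR0
  obtain ⟨X, hX⟩ : ∃ X, D * (b * W) = X + (u + 5 + D * ((b + 1) * r)) := by
    have h1 : (u : ℝ) + 5 + D * ((b + 1) * r) ≤ D * (b * W) := by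
      have : ((W : ℝ) - r - M) * D * b = D * (b * W) - D * (b * r) - M * D * b := by ring
      linarith
    have h2 : u + 5 + D * ((b + 1) * r) ≤ D * (b * W) := by exact_mod_cast h1
    exact ⟨D * (b * W) - (u + 5 + D * ((b + 1) * r)), by omega⟩
  have hP0 : 0 < D * R := Nat.mul_pos (by omega) hR0
  obtain ⟨w, hw1, hw2⟩ : ∃ w, D * R * w ≤ X ∧ X < D * R * w + D * R :=
    ⟨X / (D * R), Nat.mul_div_le _ _, Nat.lt_mul_div_succ _ hP0⟩
  have hXR : (D : ℝ) * (b * W) = X + (u + 5 + D * ((b + 1) * r)) := by exact_mod_cast hX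
  have hXb : X ≤ D * R * b := by
    have h1 : D * (b * W) = D * R * b + D * (b * r) := by rw [hR]; ring
    have h2 : D * ((b + 1) * r) = D * (b * r) + D * r := by ring
    omega
  have hwb : w ≤ b := by
    have : D * R * w ≤ D * R * b := hw1.trans hXb
    exact Nat.le_of_mul_le_mul_left this hP0
  obtain ⟨z, hz⟩ : ∃ z, b = w + z := ⟨b - w, by omega⟩
  have hzR : (b : ℝ) = w + z := by exact_mod_cast hz
  have hbw : b - w = z := by omega
  have hzle : (D : ℝ) * z ≤ M * D * b / (W - r) + K := by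
    have h1 : (X : ℝ) < D * R * w + D * R := by exact_mod_cast hw2
    have h2 : (D : ℝ) * R * z < u + 5 + D * r + D * R := by
      have : (D : ℝ) * R * z = D * R * b - D * R * w := by rw [hzR]; ring
      rw [hRR] at hXR
      linarith
    have h3 : (D : ℝ) * R * z ≤ M * D * b + (5 + D * r) + D * R := by linarith
    have h4 : (W : ℝ) - r = R := by linarith
    rw [hK, h4]
    have h5 : M * D * b / R + ((5 + (D : ℝ) * r) / R + D) =
        (M * D * b + (5 + D * r) + D * R) / R := by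
      field_simp
      ring
    rw [h5, le_div_iff₀ hR0R]
    linarith
  have hmain : D * (w * W + (z + 1) * r) + u + 5 ≤ D * (b * W) := by
    have h1 : D * (w * W + (z + 1) * r) = D * R * w + D * ((b + 1) * r) := by rw [hR, hz]; ring
    omega
  have hlim : 2 * u < D * (b * n * (n - 1)) := by
    have h1 : (2 : ℝ) * u < D * (b * n * (n - 1)) := by
      have : ((n : ℝ) * (n - 1) - 2 * M) * D * b =
        D * (b * n * (n - 1)) - 2 * (M * D * b) := by ring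
      linarith
    have h2 : ((n - 1 : ℕ) : ℝ) = (n : ℝ) - 1 := by
      rw [Nat.cast_sub (by omega)]; norm_num
    rw [← h2] at h1
    exact_mod_cast h1
  refine ⟨b, u, v, w, d0, ρ, d0 + 8, 2 * c, 15, ?_, ?_, hwb, ?_, ?_, ?_⟩
  · constructor
    · omega
    · omega
    · exact hu0
    · omega
    · omega
    · have h1 : D * (2 * ρ * (d0 + 1) + b * d0 * (d0 + 1)) =
          D * (2 * (d0 + 1)) * ρ + D * (b * d0 * (d0 + 1)) := by ring
      rw [h1]; omega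
    · have h1 : D * (2 * ρ * (d0 + 1) + 2 * (d0 + 8) + b * d0 * (d0 + 1)) =
          D * (2 * (d0 + 1)) * ρ + D * (2 * (d0 + 1)) + 14 * D + D * (b * d0 * (d0 + 1)) := by
        ring
      rw [h1]; omega
    · rw [hn2']; exact hdn
    · exact hρb
    · rw [hn1', hn2', ← hA]; omega
    · rw [hn1', hn2']
      have h1 : D * (2 * n1 * (2 * c) + 2 * 15 + b * n1 * n2) = A + 30 * D := by rw [hA]; ring
      rw [h1]; omega
    · omega
    · rw [← hF]
      have h1 : (D : ℝ) * (b * F) + 12 ≤ 2 * v := by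
        have : (2 * la - F) * D * b = 2 * (la * D * b) - D * (b * F) := by ring
        linarith
      exact_mod_cast h1
    · rw [← hW]
      have h1 : (D : ℝ) * (b * W) + 7 ≤ 3 * u + 3 * v := by linarith
      exact_mod_cast h1
    · have h1 : (D : ℝ) * (b * n) + 2 ≤ v := by
        have : (la - n) * D * b = la * D * b - D * (b * n) := by ring
        linarith
      exact_mod_cast h1
  · rw [← hG]
    have h1 : (D : ℝ) * (2 * b * G) + 2 ≤ v := by
      have : (la - 2 * G) * D * b = la * D * b - D * (2 * b * G) := by ring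
      linarith
    exact_mod_cast h1
  · rw [← hW, hbw]; exact hmain
  · omega
  · have h2 : ((n - 1 : ℕ) : ℝ) = (n : ℝ) - 1 := by
      rw [Nat.cast_sub (by omega)]; norm_num
    have h3 : 2 * (u - 1) ≤ D * (b * n * (n - 1)) := by omega
    have e1 : ((D * (b * n * (n - 1)) - 2 * (u - 1) : ℕ) : ℝ) =
        D * (b * n * (n - 1)) - 2 * (u - 1) := by
      rw [Nat.cast_sub h3]; push_cast; rw [h2, Nat.cast_sub (by omega)]; norm_num
    rw [← hW, hbw]
    have e2 : ((D * (b * W) - u - 4 - D * (z * r) : ℕ) : ℝ) =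
        D * (b * W) - u - 4 - D * (z * r) := by
      have h4 : D * (w * W + (z + 1) * r) = D * (w * W) + D * (z * r) + D * r := by ring
      have h5 : u + 4 + D * (z * r) ≤ D * (b * W) := by omega
      have h6 : D * (b * W) - u - 4 - D * (z * r) =
        D * (b * W) - (u + 4 + D * (z * r)) := by omega
      rw [h6, Nat.cast_sub h5]; push_cast; ring
    rw [e1, e2]
    have k1 : θ * (D * (b * n * (n - 1)) - 2 * (u - 1)) ≤
        θ * (D * b * (n * (n - 1) - 2 * M)) + |θ| * (2 * E + 10) := by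
      have h7 : θ * (D * (b * n * (n - 1)) - 2 * (u - 1)) =
          θ * (D * b * (n * (n - 1) - 2 * M)) + θ * (2 * (M * D * b - u) + 2) := by ring
      rw [h7]
      have h8 : θ * (2 * (M * D * b - u) + 2) ≤ |θ| * (2 * E + 10) := by
        have h9 : θ * (2 * (M * D * b - u) + 2) ≤ |θ| * (2 * (M * D * b - u) + 2) := by
          apply mul_le_mul_of_nonneg_right (le_abs_self _)
          linarith
        refine h9.trans ?_
        apply mul_le_mul_of_nonneg_left _ (abs_nonneg _)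
        linarith
      linarith
    have k2 : D * b * ((W : ℝ) - M * W / (W - r)) - 2 - r * K ≤
        D * (b * W) - u - 4 - D * (z * r) := by
      have h10 : (D : ℝ) * z * r ≤ (M * D * b / (W - r) + K) * r := by gcongr
      have h11 : M * (W : ℝ) / (W - r) = M + r * M / (W - r) := by
        field_simp; ring
      have h12 : D * b * ((W : ℝ) - M * W / (W - r)) =
          D * (b * W) - M * D * b - M * D * b / (W - r) * r := by
        rw [h11]; ring
      rw [h12]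
      linarith
    have k3 : g * D * b = D * b * ((W : ℝ) - M * W / (W - r)) -
        θ * (D * b * (n * (n - 1) - 2 * M)) := by
      rw [hg]; ring
    linarith

end Pool.Agent.H96.T3
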